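import Pool.Agent.H877_TF.Basic

/-!
# The number of edges of the base graph
-/

namespace Pool.Agent.H877_TF

open Finset

/-- Number of special pairs of letters. -/
noncomputable def ns (N : ℕ) : ℕ := Nat.card {p : Lt N × Lt N // spc p.1 p.2}

/-- Number of regular pairs of letters. -/
noncomputable def nr (N : ℕ) : ℕ := Nat.card {p : Lt N × Lt N // reg p.1 p.2}

theorem ns_ge (N : ℕ) : N * 4 ^ N ≤ 2 * ns N := by
  classical
  have h1 : Nat.card (Fin N × (Fin N → Bool) × (Fin N → Bool)) = N * 4 ^ N := by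
    simp [Nat.card_eq_fintype_card, ← mul_pow]
  have h2 : Nat.card ({p : Lt N × Lt N // spc p.1 p.2} × Bool) = 2 * ns N := by
    rw [Nat.card_prod, mul_comm]; simp [ns]
  rw [← h1, ← h2]
  refine Nat.card_le_card_of_injective (fun t => (⟨((t.1, t.2.1),
    (t.1, Function.update t.2.2 t.1 (!(t.2.1 t.1)))), ?_⟩, t.2.2 t.1)) ?_
  · refine ⟨rfl, ?_⟩
    simp
  · rintro ⟨i, a, b⟩ ⟨i', a', b'⟩ h
    simp only [Prod.mk.injEq, Subtype.mk.injEq] at h
    obtain ⟨⟨⟨rfl, rfl⟩, -, h2⟩, h3⟩ := h
    simp only [Prod.mk.injEq, true_and]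
    funext x
    by_cases hx : x = i
    · subst hx; exact h3
    · have := congrFun h2 x
      simpa [Function.update_of_ne hx] using this

theorem nr_ge (N : ℕ) : N * (N - 1) * 4 ^ N ≤ 4 * nr N := by
  classical
  have h0 : Nat.card {p : Fin N × Fin N // p.1 ≠ p.2} = N * (N - 1) := by
    rw [Nat.card_eq_fintype_card, Fintype.card_subtype]
    have : (univ.filter (fun p : Fin N × Fin N => p.1 ≠ p.2)) = (univ : Finset (Fin N)).offDiag := by
      ext ⟨a, b⟩; simp
    rw [this, offDiag_card, card_univ, Fintype.card_fin, Nat.mul_sub, mul_one]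
  have h1 : Nat.card ({p : Fin N × Fin N // p.1 ≠ p.2} × (Fin N → Bool) × (Fin N → Bool)) =
      N * (N - 1) * 4 ^ N := by
    rw [Nat.card_prod, h0]
    simp [Nat.card_eq_fintype_card, ← mul_pow]
  have h2 : Nat.card ({p : Lt N × Lt N // reg p.1 p.2} × Bool × Bool) = 4 * nr N := by
    rw [Nat.card_prod, mul_comm]; simp [nr]
  rw [← h1, ← h2]
  refine Nat.card_le_card_of_injective (fun t => (⟨((t.1.1.1, t.2.1),
    (t.1.1.2, Function.update (Function.update t.2.2 t.1.1.1 (t.2.1 t.1.1.1)) t.1.1.2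
      (t.2.1 t.1.1.2))), ?_⟩, t.2.2 t.1.1.1, t.2.2 t.1.1.2)) ?_
  · refine ⟨t.1.2, ?_, ?_⟩
    · simp only
      rw [Function.update_of_ne t.1.2, Function.update_self]
    · simp
  · rintro ⟨⟨⟨i, j⟩, hij⟩, a, b⟩ ⟨⟨⟨i', j'⟩, hij'⟩, a', b'⟩ h
    simp only [Prod.mk.injEq, Subtype.mk.injEq] at h
    obtain ⟨⟨⟨rfl, rfl⟩, rfl, h2⟩, h3, h4⟩ := h
    simp only [Prod.mk.injEq, true_and]
    funext x
    by_cases hx : x = i
    · subst hx; exact h3
    · by_cases hy : x = j
      · subst hy; exact h4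
      · have := congrFun h2 x
        simpa [Function.update_of_ne hx, Function.update_of_ne hy] using this

/-- Number of ordered adjacent pairs of the base graph. -/
noncomputable def hK (m N : ℕ) : ℕ :=
  Nat.card {p : (Fin m → Lt N) × (Fin m → Lt N) // (G0 m N).Adj p.1 p.2}

theorem hK_ge (m N : ℕ) : m * (ns N * nr N ^ (m - 1)) ≤ hK m N := by
  classical
  have h1 : Nat.card (Σ j : Fin m, ∀ j' : Fin m,
      {p : Lt N × Lt N // if j' = j then spc p.1 p.2 else reg p.1 p.2}) =
      m * (ns N * nr N ^ (m - 1)) := by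
    rw [Nat.card_sigma]
    have h2 : ∀ j : Fin m, Nat.card (∀ j' : Fin m,
        {p : Lt N × Lt N // if j' = j then spc p.1 p.2 else reg p.1 p.2}) =
        ns N * nr N ^ (m - 1) := by
      intro j
      rw [Nat.card_pi, ← mul_prod_erase univ _ (mem_univ j)]
      congr 1
      · simp [ns]
      · have h3 : (univ.erase j).card = m - 1 := by
          rw [card_erase_of_mem (mem_univ _), card_univ, Fintype.card_fin]
        rw [← h3]
        refine prod_eq_pow_card ?_
        intro j' hj'
        have hne : j' ≠ j := (mem_erase.1 hj').1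
        simp [nr, hne]
    rw [sum_congr rfl (fun j _ => h2 j), sum_const, card_univ, Fintype.card_fin, smul_eq_mul]
  rw [← h1]
  unfold hK
  refine Nat.card_le_card_of_injective (fun t => ⟨(fun j' => (t.2 j').1.1,
    fun j' => (t.2 j').1.2), ?_⟩) ?_
  · refine ⟨t.1, ?_, ?_⟩
    · have := (t.2 t.1).2
      simpa using this
    · intro j' hj'
      have := (t.2 j').2
      simpa [hj'] using this
  · rintro ⟨j, w⟩ ⟨j', w'⟩ h
    simp only [Subtype.mk.injEq, Prod.mk.injEq] at h
    obtain ⟨h2, h3⟩ := h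
    have hw : ∀ i, (w i).1 = (w' i).1 := fun i => Prod.ext (congrFun h2 i) (congrFun h3 i)
    have hj : j = j' := by
      by_contra hne
      have h4 := (w j).2
      have h5 := (w' j).2
      rw [if_pos rfl] at h4
      rw [if_neg hne, ← hw j] at h5
      exact not_reg_of_spc h4 h5
    subst hj
    congr 1
    funext i
    exact Subtype.ext (hw i)

end Pool.Agent.H877_TF
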