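import Pool.Agent.H877_TF.Hom2
import Pool.Agent.H877_TF.Edge

/-!
# Parameters and asymptotics for the base graph
-/

namespace Pool.Agent.H877_TF

open Finset Filter Topology

/-- Number of coordinates. -/
def mm (k : ℕ) : ℕ := 2 ^ k

/-- Number of indices. -/
def NN (k : ℕ) : ℕ := (k + 1) * 2 ^ k

/-- Number of vertices of the base graph. -/
def n0 (k : ℕ) : ℕ := (NN k * 2 ^ (NN k)) ^ (mm k)

theorem card_Om (k : ℕ) : Fintype.card (Fin (mm k) → Lt (NN k)) = n0 k := by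
  simp [n0]

theorem mm_pos (k : ℕ) : 0 < mm k := by unfold mm; positivity

theorem NN_pos (k : ℕ) : 0 < NN k := by unfold NN; positivity

theorem n0_pos (k : ℕ) : 0 < n0 k := by
  unfold n0
  have := NN_pos k
  positivity

theorem NN_cast (k : ℕ) : (NN k : ℝ) = ((k : ℝ) + 1) * (mm k : ℝ) := by
  unfold NN mm; push_cast; ring

theorem mm_le_NN (k : ℕ) : mm k ≤ NN k := by
  unfold mm NN
  nlinarith [Nat.zero_le (k * 2 ^ k)]

theorem tot_pow (V : Type*) [Fintype V] (k : ℕ) :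
    tot V (NN k) ^ (mm k) = (n0 k : ℝ) ^ (Fintype.card V) := by
  unfold tot n0
  push_cast
  rw [mul_comm (Fintype.card V) (NN k), pow_mul 2 (NN k) (Fintype.card V), ← mul_pow, ← pow_mul,
    ← pow_mul, mul_comm (mm k)]

/-- The ideal density. -/
noncomputable def pi0 (k : ℕ) : ℝ := (2 / ((k : ℝ) + 1)) * (1 / 4) ^ (mm k)

theorem pi0_pos (k : ℕ) : 0 < pi0 k := by unfold pi0; positivity

/-- Lower bound for the number of edges of the base graph. -/
theorem hK_lower (k : ℕ) :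
    (n0 k : ℝ) ^ 2 * (pi0 k * (1 - 1 / ((k : ℝ) + 1))) ≤ hK (mm k) (NN k) := by
  set m := mm k with hm
  set N := NN k with hN
  have hm0 : 0 < m := mm_pos k
  have hN0 : 0 < N := NN_pos k
  have hm0' : (0 : ℝ) < m := by exact_mod_cast hm0
  have hN0' : (0 : ℝ) < N := by exact_mod_cast hN0
  have hN1 : (1 : ℝ) ≤ N := by exact_mod_cast hN0
  have hNx : (N : ℝ) = ((k : ℝ) + 1) * m := NN_cast k
  have hx : (0 : ℝ) < (k : ℝ) + 1 := by positivity
  have h1 : ((m * (ns N * nr N ^ (m - 1)) : ℕ) : ℝ) ≤ hK m N := by exact_mod_cast hK_ge m N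
  refine le_trans ?_ h1
  push_cast
  have h2 : (N : ℝ) * 4 ^ N / 2 ≤ ns N := by
    have : ((N * 4 ^ N : ℕ) : ℝ) ≤ ((2 * ns N : ℕ) : ℝ) := by exact_mod_cast ns_ge N
    push_cast at this
    linarith
  have h3 : ((N : ℝ) ^ 2 * 4 ^ N) * ((1 - 1 / N) / 4) ≤ nr N := by
    have : ((N * (N - 1) * 4 ^ N : ℕ) : ℝ) ≤ ((4 * nr N : ℕ) : ℝ) := by exact_mod_cast nr_ge N
    rw [Nat.cast_mul, Nat.cast_mul, Nat.cast_sub hN0] at this
    push_cast at this
    have h4 : ((N : ℝ) ^ 2 * 4 ^ N) * ((1 - 1 / N) / 4) = (N * (N - 1) * 4 ^ N) / 4 := by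
      field_simp
    rw [h4]
    linarith
  set T : ℝ := (N : ℝ) ^ 2 * 4 ^ N with hT
  have hT0 : 0 < T := by positivity
  have hn0 : (n0 k : ℝ) ^ 2 = T ^ m := by
    unfold n0
    push_cast
    rw [← hm, ← hN, ← pow_mul, pow_mul', mul_pow, hT]
    congr 2
    rw [← pow_mul, pow_mul', ]; norm_num
  have hsub : 0 ≤ 1 - 1 / (N : ℝ) := by
    rw [sub_nonneg, div_le_one hN0']; exact hN1
  have h5 : 1 - 1 / ((k : ℝ) + 1) ≤ (1 - 1 / (N : ℝ)) ^ (m - 1) := by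
    have h6 := one_add_mul_le_pow (a := -(1 / (N : ℝ))) (by linarith) (m - 1)
    have h7 : ((m - 1 : ℕ) : ℝ) ≤ m := by exact_mod_cast Nat.sub_le m 1
    have h8 : 1 / ((k : ℝ) + 1) = m * (1 / N) := by
      rw [hNx]; field_simp
    have h9 : ((m - 1 : ℕ) : ℝ) * (1 / N) ≤ m * (1 / N) :=
      mul_le_mul_of_nonneg_right h7 (by positivity)
    calc 1 - 1 / ((k : ℝ) + 1) = 1 - m * (1 / N) := by rw [h8]
      _ ≤ 1 + ((m - 1 : ℕ) : ℝ) * (-(1 / (N : ℝ))) := by linarith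
      _ ≤ (1 + -(1 / (N : ℝ))) ^ (m - 1) := h6
      _ = _ := by ring
  have h10 : T ^ (m - 1) * ((1 / 4) ^ (m - 1) * (1 - 1 / ((k : ℝ) + 1))) ≤
      (nr N : ℝ) ^ (m - 1) := by
    calc T ^ (m - 1) * ((1 / 4) ^ (m - 1) * (1 - 1 / ((k : ℝ) + 1)))
        ≤ T ^ (m - 1) * ((1 / 4) ^ (m - 1) * (1 - 1 / (N : ℝ)) ^ (m - 1)) := by
          refine mul_le_mul_of_nonneg_left (mul_le_mul_of_nonneg_left h5 ?_) ?_ <;> positivity
      _ = (T * ((1 - 1 / (N : ℝ)) / 4)) ^ (m - 1) := by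
          rw [← mul_pow, ← mul_pow]; congr 1; ring
      _ ≤ _ := pow_le_pow_left₀ (by positivity) h3 _
  have h11 : 0 ≤ T ^ (m - 1) * ((1 / 4) ^ (m - 1) * (1 - 1 / ((k : ℝ) + 1))) := by
    have : 0 ≤ 1 - 1 / ((k : ℝ) + 1) := by
      rw [sub_nonneg, div_le_one hx]; linarith [Nat.cast_nonneg (α := ℝ) k]
    positivity
  obtain ⟨m', hm'⟩ : ∃ m', m = m' + 1 := ⟨m - 1, by omega⟩
  calc (n0 k : ℝ) ^ 2 * (pi0 k * (1 - 1 / ((k : ℝ) + 1)))
      = m * ((N : ℝ) * 4 ^ N / 2 *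
          (T ^ (m - 1) * ((1 / 4) ^ (m - 1) * (1 - 1 / ((k : ℝ) + 1))))) := by
        rw [hn0]
        unfold pi0
        rw [← hm]
        have h12 : (m : ℝ) * (N * 4 ^ N / 2) = T * (1 / (2 * ((k : ℝ) + 1))) := by
          rw [hT]
          have : (m : ℝ) = N / ((k : ℝ) + 1) := by rw [hNx]; field_simp
          rw [this]
          field_simp
        rw [← mul_assoc (m : ℝ), h12, hm']
        simp only [Nat.add_sub_cancel]
        rw [pow_succ, pow_succ]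
        field_simp
        ring
    _ ≤ m * (ns N * (nr N : ℝ) ^ (m - 1)) := by
        refine mul_le_mul_of_nonneg_left ?_ hm0'.le
        exact mul_le_mul h2 h10 h11 (Nat.cast_nonneg _)

section

variable {V : Type*} [Fintype V] [LinearOrder V]

/-- The exponent in the crude bound. -/
noncomputable def yy (F : SimpleGraph V) (k : ℕ) : ℝ :=
  4 ^ (Nat.card (Ed F)) * ((Fintype.card V : ℝ) ^ 2 + Nat.card (Ed F) +
    2 ^ (Nat.card (Ed F)) * (((k : ℝ) + 1) ^ (Nat.card (Ed F)) / mm k))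

theorem yy_nonneg (F : SimpleGraph V) (k : ℕ) : 0 ≤ yy F k := by
  unfold yy; positivity

theorem inner_le (F : SimpleGraph V) (k : ℕ) :
    ((1 / 4 ^ (Nat.card (Ed F)) + (Fintype.card V : ℝ) ^ 2 / (NN k)) +
      Nat.card (Ed F) * (((k : ℝ) + 1) / (NN k)) +
      2 ^ (Nat.card (Ed F)) * (((k : ℝ) + 1) ^ (Nat.card (Ed F)) / (NN k) ^ 2)) ≤
    (1 / 4) ^ (Nat.card (Ed F)) * (1 + yy F k / mm k) := by
  have hm0' : (0 : ℝ) < mm k := by exact_mod_cast mm_pos k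
  have hN0' : (0 : ℝ) < NN k := by exact_mod_cast NN_pos k
  have hNm : (mm k : ℝ) ≤ NN k := by exact_mod_cast mm_le_NN k
  have hx : (0 : ℝ) < (k : ℝ) + 1 := by positivity
  set e := Nat.card (Ed F) with he
  have h1 : (Fintype.card V : ℝ) ^ 2 / (NN k) ≤ (Fintype.card V : ℝ) ^ 2 / (mm k) :=
    div_le_div_of_nonneg_left (by positivity) hm0' hNm
  have h2 : ((k : ℝ) + 1) / (NN k) = 1 / mm k := by
    rw [NN_cast]; field_simp
  have h3 : ((k : ℝ) + 1) ^ e / (NN k) ^ 2 ≤ ((k : ℝ) + 1) ^ e / (mm k) ^ 2 :=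
    div_le_div_of_nonneg_left (by positivity) (by positivity)
      (pow_le_pow_left₀ hm0'.le hNm 2)
  have h4 : (1 / 4 : ℝ) ^ e * (1 + yy F k / mm k) = 1 / 4 ^ e + (Fintype.card V : ℝ) ^ 2 / (mm k) +
      e * (1 / mm k) + 2 ^ e * (((k : ℝ) + 1) ^ e / (mm k) ^ 2) := by
    unfold yy
    rw [← he, one_div_pow]
    field_simp
    ring
  rw [h4, h2]
  have h5 : (2 : ℝ) ^ e * (((k : ℝ) + 1) ^ e / (NN k) ^ 2) ≤
    2 ^ e * (((k : ℝ) + 1) ^ e / (mm k) ^ 2) := mul_le_mul_of_nonneg_left h3 (by positivity)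
  linarith

theorem one_add_pow_le_exp (t : ℝ) (ht : 0 ≤ t) (m : ℕ) : (1 + t) ^ m ≤ Real.exp (m * t) := by
  rw [mul_comm, Real.exp_mul, Real.rpow_natCast]
  refine pow_le_pow_left₀ (by linarith) ?_ m
  linarith [Real.add_one_le_exp t]

/-- Crude bound. -/
theorem hm_crude (F : SimpleGraph V) (k : ℕ) :
    (hm F (mm k) (NN k) : ℝ) ≤ (n0 k : ℝ) ^ (Fintype.card V) *
      (pi0 k ^ (Nat.card (Ed F)) * Real.exp (yy F k)) := by
  have hm0' : (0 : ℝ) < mm k := by exact_mod_cast mm_pos k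
  have hx : (0 : ℝ) < (k : ℝ) + 1 := by positivity
  have hx1 : (1 : ℝ) ≤ (k : ℝ) + 1 := by linarith [Nat.cast_nonneg (α := ℝ) k]
  have ht := tot_nonneg (V := V) (NN k)
  have hy := yy_nonneg F k
  set e := Nat.card (Ed F) with he
  refine (hm_le_crude F (mm k) (NN k) (NN_pos k) ((k : ℝ) + 1) hx1).trans ?_
  rw [mul_pow, tot_pow]
  have h1 := inner_le F k
  have h2 : ((1 / 4 : ℝ) ^ e * (1 + yy F k / mm k)) ^ (mm k) ≤
      ((1 / 4 : ℝ) ^ (mm k)) ^ e * Real.exp (yy F k) := by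
    rw [mul_pow, ← pow_mul, ← pow_mul, mul_comm e]
    refine mul_le_mul_of_nonneg_left ?_ (by positivity)
    refine (one_add_pow_le_exp _ (by positivity) _).trans (le_of_eq ?_)
    congr 1
    field_simp
  have h3 := (pow_le_pow_left₀ (by positivity) h1 (mm k)).trans h2
  have h4 : ((((k : ℝ) + 1) ^ e)⁻¹) ≤ (2 / ((k : ℝ) + 1)) ^ e := by
    rw [← inv_pow]
    refine pow_le_pow_left₀ (by positivity) ?_ e
    rw [inv_eq_one_div]
    exact div_le_div_of_nonneg_right (by norm_num) hx.le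
  calc _ ≤ (2 / ((k : ℝ) + 1)) ^ e * ((n0 k : ℝ) ^ (Fintype.card V) *
        (((1 / 4 : ℝ) ^ (mm k)) ^ e * Real.exp (yy F k))) := by
        refine mul_le_mul h4 (mul_le_mul_of_nonneg_left h3 (by positivity)) (by positivity)
          (by positivity)
    _ = _ := by
        unfold pi0
        rw [mul_pow]; ring

/-- Sharp bound. -/
theorem hm_sharp (F : SimpleGraph V) (k : ℕ) (hek : Nat.card (Ed F) ≤ mm k)
    (htri : ∀ e0 : Ed F, ∀ w, ¬ (F.Adj w e0.1.1 ∧ F.Adj w e0.1.2)) :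
    (hm F (mm k) (NN k) : ℝ) ≤ (n0 k : ℝ) ^ (Fintype.card V) *
      (pi0 k ^ (Nat.card (Ed F)) *
        (Real.exp (4 ^ (Nat.card (Ed F)) * (Fintype.card V : ℝ) ^ 2 / ((k : ℝ) + 1)) +
          (Nat.card (Ed F) : ℝ) ^ 2 * 4 ^ (Nat.card (Ed F)) *
            (((k : ℝ) + 1) ^ (Nat.card (Ed F)) / mm k) * Real.exp (yy F k))) := by
  have hm0' : (0 : ℝ) < mm k := by exact_mod_cast mm_pos k
  have hN0' : (0 : ℝ) < NN k := by exact_mod_cast NN_pos k
  have hNm : (mm k : ℝ) ≤ NN k := by exact_mod_cast mm_le_NN k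
  have hx : (0 : ℝ) < (k : ℝ) + 1 := by positivity
  have hx1 : (1 : ℝ) ≤ (k : ℝ) + 1 := by linarith [Nat.cast_nonneg (α := ℝ) k]
  have ht := tot_nonneg (V := V) (NN k)
  have hy := yy_nonneg F k
  have htot := tot_pow V k
  have hNN := NN_cast k
  refine (hm_le_sharp F (mm k) (NN k) (NN_pos k) ((k : ℝ) + 1) hx1 htri).trans ?_
  have hin := inner_le F k
  set e := Nat.card (Ed F) with he
  set v : ℝ := (Fintype.card V : ℝ) with hv
  have hmul : (n0 k : ℝ) ^ (Fintype.card V) *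
      (pi0 k ^ e * (Real.exp (4 ^ e * v ^ 2 / ((k : ℝ) + 1)) + (e : ℝ) ^ 2 * 4 ^ e *
            (((k : ℝ) + 1) ^ e / mm k) * Real.exp (yy F k))) =
      (n0 k : ℝ) ^ (Fintype.card V) *
        (pi0 k ^ e * (Real.exp (4 ^ e * v ^ 2 / ((k : ℝ) + 1)))) +
      (n0 k : ℝ) ^ (Fintype.card V) *
        (pi0 k ^ e * ((e : ℝ) ^ 2 * 4 ^ e * (((k : ℝ) + 1) ^ e / mm k) * Real.exp (yy F k))) := by
    ring
  rw [hmul]
  have hpi : pi0 k ^ e = (2 / ((k : ℝ) + 1)) ^ e * (((1 / 4 : ℝ) ^ e) ^ (mm k)) := by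
    unfold pi0
    rw [mul_pow, ← pow_mul, ← pow_mul, mul_comm e]
  refine add_le_add ?_ ?_
  · set z : ℝ := 4 ^ e * v ^ 2 / NN k with hz
    have hz0 : 0 ≤ z := by positivity
    have ha1 : tot V (NN k) * (1 / (NN k) * (2 / 4 ^ e + v ^ 2 / NN k)) ≤
        (2 * (1 / 4) ^ e / NN k) * tot V (NN k) * (1 + z) := by
      have h1 : (2 * (1 / 4) ^ e / NN k) * tot V (NN k) * (1 + z) =
          tot V (NN k) * (1 / (NN k) * (2 / 4 ^ e + 2 * (v ^ 2 / NN k))) := by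
        rw [hz, one_div_pow]; field_simp
      rw [h1]
      refine mul_le_mul_of_nonneg_left (mul_le_mul_of_nonneg_left ?_ (by positivity)) ht
      have : 0 ≤ v ^ 2 / NN k := by positivity
      linarith
    have ha0 : tot V (NN k) * (1 / 4 ^ e + v ^ 2 / NN k) =
        (1 / 4) ^ e * tot V (NN k) * (1 + z) := by
      rw [hz, one_div_pow]; field_simp
    rw [ha0]
    have h2 : (tot V (NN k) * (1 / (NN k) * (2 / 4 ^ e + v ^ 2 / NN k))) ^ e ≤
        ((2 * (1 / 4) ^ e / NN k) * tot V (NN k) * (1 + z)) ^ e :=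
      pow_le_pow_left₀ (by positivity) ha1 e
    calc (mm k : ℝ) ^ e * ((tot V (NN k) * (1 / (NN k) * (2 / 4 ^ e + v ^ 2 / NN k))) ^ e *
          ((1 / 4) ^ e * tot V (NN k) * (1 + z)) ^ (mm k - e))
        ≤ (mm k : ℝ) ^ e * (((2 * (1 / 4) ^ e / NN k) * tot V (NN k) * (1 + z)) ^ e *
          ((1 / 4) ^ e * tot V (NN k) * (1 + z)) ^ (mm k - e)) := by
          refine mul_le_mul_of_nonneg_left (mul_le_mul_of_nonneg_right h2 ?_) ?_ <;> positivity
      _ = (2 / ((k : ℝ) + 1)) ^ e * ((((1 / 4) ^ e * tot V (NN k) * (1 + z)) ^ e) *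
          ((1 / 4) ^ e * tot V (NN k) * (1 + z)) ^ (mm k - e)) := by
          have h6 : (2 * (1 / 4) ^ e / NN k) * tot V (NN k) * (1 + z) =
              (2 / NN k) * ((1 / 4) ^ e * tot V (NN k) * (1 + z)) := by ring
          have h7 : (2 / ((k : ℝ) + 1)) = mm k * (2 / NN k) := by
            rw [hNN]; field_simp
          rw [h6, h7, mul_pow (2 / (NN k : ℝ)), mul_pow (mm k : ℝ)]
          ring
      _ = (2 / ((k : ℝ) + 1)) ^ e * (((1 / 4) ^ e * tot V (NN k) * (1 + z)) ^ (mm k)) := by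
          rw [← pow_add, Nat.add_sub_cancel' hek]
      _ = (n0 k : ℝ) ^ (Fintype.card V) * (pi0 k ^ e * (1 + z) ^ (mm k)) := by
          rw [mul_pow, mul_pow, htot, hpi]; ring
      _ ≤ _ := by
          refine mul_le_mul_of_nonneg_left (mul_le_mul_of_nonneg_left ?_ ?_) ?_
          · refine (one_add_pow_le_exp z hz0 _).trans (le_of_eq ?_)
            congr 1
            rw [hz, hNN]; field_simp
          · exact pow_nonneg (pi0_pos k).le _
          · positivity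
  · obtain ⟨m', hm'⟩ : ∃ m', mm k = m' + 1 := ⟨mm k - 1, by have := mm_pos k; omega⟩
    have h1 : (tot V (NN k) * ((1 / 4 ^ e + v ^ 2 / (NN k)) + e * (((k : ℝ) + 1) / (NN k)) +
        2 ^ e * (((k : ℝ) + 1) ^ e / (NN k) ^ 2))) ^ (mm k - 1) ≤
        tot V (NN k) ^ (mm k - 1) * (((1 / 4 : ℝ) ^ e) ^ (mm k - 1) * Real.exp (yy F k)) := by
      rw [mul_pow]
      refine mul_le_mul_of_nonneg_left ?_ (by positivity)
      refine (pow_le_pow_left₀ (by positivity) hin _).trans ?_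
      rw [mul_pow]
      refine mul_le_mul_of_nonneg_left ?_ (by positivity)
      refine (one_add_pow_le_exp _ (by positivity) _).trans ?_
      refine Real.exp_le_exp.2 ?_
      have h2 : ((mm k - 1 : ℕ) : ℝ) ≤ mm k := by exact_mod_cast Nat.sub_le _ 1
      calc ((mm k - 1 : ℕ) : ℝ) * (yy F k / mm k) ≤ mm k * (yy F k / mm k) :=
            mul_le_mul_of_nonneg_right h2 (by positivity)
        _ = yy F k := by field_simp
    have h3 : (1 : ℝ) / (NN k) ^ 2 ≤ 1 / (mm k) ^ 2 :=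
      div_le_div_of_nonneg_left (by norm_num) (by positivity) (pow_le_pow_left₀ hm0'.le hNm 2)
    calc (e : ℝ) ^ 2 * (mm k * ((((k : ℝ) + 1) ^ e)⁻¹ *
          ((tot V (NN k) * (2 ^ e * (((k : ℝ) + 1) ^ e / (NN k) ^ 2))) *
          (tot V (NN k) * ((1 / 4 ^ e + v ^ 2 / (NN k)) + e * (((k : ℝ) + 1) / (NN k)) +
            2 ^ e * (((k : ℝ) + 1) ^ e / (NN k) ^ 2))) ^ (mm k - 1))))
        ≤ (e : ℝ) ^ 2 * (mm k * ((((k : ℝ) + 1) ^ e)⁻¹ *
          ((tot V (NN k) * (2 ^ e * (((k : ℝ) + 1) ^ e / (NN k) ^ 2))) *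
          (tot V (NN k) ^ (mm k - 1) *
            (((1 / 4 : ℝ) ^ e) ^ (mm k - 1) * Real.exp (yy F k)))))) := by
          refine mul_le_mul_of_nonneg_left (mul_le_mul_of_nonneg_left
            (mul_le_mul_of_nonneg_left (mul_le_mul_of_nonneg_left h1 ?_) ?_) ?_) ?_ <;> positivity
      _ = (e : ℝ) ^ 2 * (mm k * (2 ^ e * tot V (NN k) ^ (mm k) * 4 ^ e *
            ((1 / 4 : ℝ) ^ e) ^ (mm k) * Real.exp (yy F k))) * (1 / (NN k) ^ 2) := by
          rw [hm']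
          simp only [Nat.add_sub_cancel]
          rw [pow_succ (tot V (NN k)), pow_succ ((1 / 4 : ℝ) ^ e)]
          have h4 : (1 / 4 : ℝ) ^ e * 4 ^ e = 1 := by rw [← mul_pow]; norm_num
          have h5 : ((((k : ℝ) + 1) ^ e)⁻¹) * ((k : ℝ) + 1) ^ e = 1 :=
            inv_mul_cancel₀ (by positivity)
          calc _ = (e : ℝ) ^ 2 * ((m' + 1 : ℕ) * (2 ^ e * (tot V (NN k) ^ m' * tot V (NN k)) *
              (((1 / 4 : ℝ) ^ e) ^ m') * Real.exp (yy F k))) * (1 / (NN k) ^ 2) *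
              (((((k : ℝ) + 1) ^ e)⁻¹) * ((k : ℝ) + 1) ^ e) := by ring
            _ = (e : ℝ) ^ 2 * ((m' + 1 : ℕ) * (2 ^ e * (tot V (NN k) ^ m' * tot V (NN k)) *
              (((1 / 4 : ℝ) ^ e) ^ m') * Real.exp (yy F k))) * (1 / (NN k) ^ 2) *
              ((1 / 4 : ℝ) ^ e * 4 ^ e) := by rw [h5, h4]
            _ = _ := by ring
      _ ≤ (e : ℝ) ^ 2 * (mm k * (2 ^ e * tot V (NN k) ^ (mm k) * 4 ^ e *
            ((1 / 4 : ℝ) ^ e) ^ (mm k) * Real.exp (yy F k))) * (1 / (mm k) ^ 2) :=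
          mul_le_mul_of_nonneg_left h3 (by positivity)
      _ = _ := by
          rw [htot, hpi, div_pow (2 : ℝ) ((k : ℝ) + 1) e]
          field_simp

end

end Pool.Agent.H877_TF
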