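import Mathlib

/-!
# Sparse quasirandom triangle-free graphs: letters and the base graph

A letter is a pair `(i, ξ)` with `i : Fin N` and `ξ : Fin N → Bool`.
-/

namespace Pool.Agent.H877_TF

/-- Letters. -/
abbrev Lt (N : ℕ) : Type := Fin N × (Fin N → Bool)

/-- The regular relation between two letters. -/
def reg {N : ℕ} (a b : Lt N) : Prop :=
  a.1 ≠ b.1 ∧ a.2 a.1 = b.2 a.1 ∧ a.2 b.1 = b.2 b.1

/-- The special relation between two letters. -/
def spc {N : ℕ} (a b : Lt N) : Prop :=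
  a.1 = b.1 ∧ a.2 a.1 ≠ b.2 a.1

theorem reg_symm {N : ℕ} {a b : Lt N} (h : reg a b) : reg b a :=
  ⟨fun h' => h.1 h'.symm, h.2.2.symm, h.2.1.symm⟩

theorem spc_symm {N : ℕ} {a b : Lt N} (h : spc a b) : spc b a := by
  refine ⟨h.1.symm, ?_⟩
  rw [← h.1]
  exact fun h' => h.2 h'.symm

theorem not_reg_of_spc {N : ℕ} {a b : Lt N} (h : spc a b) : ¬ reg a b :=
  fun h' => h'.1 h.1

theorem not_spc_self {N : ℕ} (a : Lt N) : ¬ spc a a := fun h => h.2 rfl

/-- The base graph: exactly one coordinate is special, all others are regular. -/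
def G0 (m N : ℕ) : SimpleGraph (Fin m → Lt N) where
  Adj x y := ∃ j, spc (x j) (y j) ∧ ∀ j', j' ≠ j → reg (x j') (y j')
  symm := ⟨by
    rintro x y ⟨j, h1, h2⟩
    exact ⟨j, spc_symm h1, fun j' hj' => reg_symm (h2 j' hj')⟩⟩
  loopless := ⟨by
    rintro x ⟨j, h1, -⟩
    exact not_spc_self _ h1⟩

/-- A special pair has no common (regular or special) neighbour. -/
theorem no_common {N : ℕ} {a b c : Lt N} (hab : spc a b) (hac : reg a c ∨ spc a c)
    (hbc : reg b c ∨ spc b c) : False := by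
  obtain ⟨h1, h2⟩ := hab
  rcases hac with hac | hac <;> rcases hbc with hbc | hbc
  · have e1 := hac.2.1
    have e2 := hbc.2.1
    rw [← h1] at e2
    exact h2 (e1.trans e2.symm)
  · exact hac.1 (h1.trans hbc.1)
  · exact hbc.1 (h1.symm.trans hac.1)
  · have e1 := hac.2
    have e2 := hbc.2
    rw [← h1] at e2
    revert h2 e1 e2
    cases a.2 a.1 <;> cases b.2 a.1 <;> cases c.2 a.1 <;> simp

theorem G0_coord {m N : ℕ} {x y : Fin m → Lt N} (h : (G0 m N).Adj x y) (j : Fin m) :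
    reg (x j) (y j) ∨ spc (x j) (y j) := by
  obtain ⟨j0, h1, h2⟩ := h
  by_cases hj : j = j0
  · subst hj; exact Or.inr h1
  · exact Or.inl (h2 j hj)

theorem G0_no_triangle {m N : ℕ} {x y z : Fin m → Lt N} (hxy : (G0 m N).Adj x y)
    (hxz : (G0 m N).Adj x z) (hyz : (G0 m N).Adj y z) : False := by
  obtain ⟨j, h1, -⟩ := hxy
  exact no_common h1 (G0_coord hxz j) (G0_coord hyz j)

end Pool.Agent.H877_TF
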