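import Mathlib

/-!
# Blow-ups along residues
-/

namespace Pool.Agent.H877_TF

open Finset

section

variable (Ω : Type*) [Fintype Ω] [Nonempty Ω]

/-- The map sending `t < n` to the element of `Ω` indexed by `t % |Ω|`. -/
noncomputable def kap (n : ℕ) (t : Fin n) : Ω :=
  (Fintype.equivFin Ω).symm ⟨t.1 % Fintype.card Ω, Nat.mod_lt _ Fintype.card_pos⟩

variable {Ω}

open scoped Classical in
theorem kap_fiber (n : ℕ) (ω : Ω) :
    n / Fintype.card Ω ≤ (univ.filter (fun t : Fin n => kap Ω n t = ω)).card ∧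
    (univ.filter (fun t : Fin n => kap Ω n t = ω)).card ≤ n / Fintype.card Ω + 1 := by
  set c := Fintype.card Ω with hc
  have hc0 : 0 < c := Fintype.card_pos
  set r : ℕ := ((Fintype.equivFin Ω) ω).1 with hr
  have hrc : r < c := ((Fintype.equivFin Ω) ω).2
  have h1 : (univ.filter (fun t : Fin n => kap Ω n t = ω)).card = n.count (· ≡ r [MOD c]) := by
    rw [Nat.count_eq_card_filter_range]
    refine card_bij (fun t _ => t.1) ?_ ?_ ?_
    · intro t ht
      have h2 : kap Ω n t = ω := (mem_filter.1 ht).2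
      refine mem_filter.2 ⟨mem_range.2 t.2, ?_⟩
      unfold kap at h2
      rw [Equiv.symm_apply_eq] at h2
      have h3 := congrArg Fin.val h2
      simp only at h3
      show t.1 % c = r % c
      rw [Nat.mod_eq_of_lt hrc]
      exact h3
    · intro a _ b _ h
      exact Fin.ext h
    · intro b hb
      obtain ⟨hb1, hb2⟩ := mem_filter.1 hb
      refine ⟨⟨b, mem_range.1 hb1⟩, ?_, rfl⟩
      refine mem_filter.2 ⟨mem_univ _, ?_⟩
      unfold kap
      rw [Equiv.symm_apply_eq]
      apply Fin.ext
      have h3 : b % c = r % c := hb2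
      rw [Nat.mod_eq_of_lt hrc] at h3
      exact h3
  rw [h1, Nat.count_modEq_card _ hc0]
  split_ifs <;> omega

open scoped Classical in
/-- Upper bound for homomorphisms into the blow-up. -/
theorem blow_le {V : Type*} [Fintype V] (F : SimpleGraph V) (H : SimpleGraph Ω) (n : ℕ) :
    Nat.card {f : V → Fin n // ∀ u v, F.Adj u v → H.Adj (kap Ω n (f u)) (kap Ω n (f v))} ≤
      (n / Fintype.card Ω + 1) ^ (Fintype.card V) *
        Nat.card {φ : V → Ω // ∀ u v, F.Adj u v → H.Adj (φ u) (φ v)} := by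
  rw [Nat.card_eq_fintype_card, Nat.card_eq_fintype_card, Fintype.card_subtype,
    Fintype.card_subtype]
  set A := univ.filter (fun f : V → Fin n =>
    ∀ u v, F.Adj u v → H.Adj (kap Ω n (f u)) (kap Ω n (f v))) with hA
  set B := univ.filter (fun φ : V → Ω => ∀ u v, F.Adj u v → H.Adj (φ u) (φ v)) with hB
  set g : (V → Fin n) → (V → Ω) := fun f v => kap Ω n (f v) with hg
  have h1 : A.card ≤ (n / Fintype.card Ω + 1) ^ (Fintype.card V) * (A.image g).card := by
    refine card_le_mul_card_image A _ ?_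
    intro φ _
    have h2 : (A.filter (fun f => g f = φ)) ⊆
        Fintype.piFinset (fun v => univ.filter (fun t : Fin n => kap Ω n t = φ v)) := by
      intro f hf
      rw [Fintype.mem_piFinset]
      intro v
      refine mem_filter.2 ⟨mem_univ _, ?_⟩
      exact congrFun (mem_filter.1 hf).2 v
    refine (card_le_card h2).trans ?_
    rw [Fintype.card_piFinset, ← card_univ (α := V), ← prod_const]
    exact prod_le_prod' (fun v _ => (kap_fiber n (φ v)).2)
  refine h1.trans (Nat.mul_le_mul_left _ (card_le_card ?_))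
  intro φ hφ
  obtain ⟨f, hf, rfl⟩ := mem_image.1 hφ
  exact mem_filter.2 ⟨mem_univ _, (mem_filter.1 hf).2⟩

open scoped Classical in
/-- Lower bound for adjacent pairs in the blow-up. -/
theorem blow_ge (H : SimpleGraph Ω) (n : ℕ) :
    (n / Fintype.card Ω) ^ 2 * Nat.card {p : Ω × Ω // H.Adj p.1 p.2} ≤
    Nat.card {p : Fin n × Fin n // H.Adj (kap Ω n p.1) (kap Ω n p.2)} := by
  rw [Nat.card_eq_fintype_card, Nat.card_eq_fintype_card, Fintype.card_subtype,
    Fintype.card_subtype]
  set A := univ.filter (fun p : Fin n × Fin n => H.Adj (kap Ω n p.1) (kap Ω n p.2)) with hA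
  set B := univ.filter (fun p : Ω × Ω => H.Adj p.1 p.2) with hB
  have h1 : A.card = ∑ b ∈ B, (A.filter (fun p => (kap Ω n p.1, kap Ω n p.2) = b)).card := by
    refine card_eq_sum_card_fiberwise ?_
    intro p hp
    exact mem_coe.2 (mem_filter.2 ⟨mem_univ _, (mem_filter.1 (mem_coe.1 hp)).2⟩)
  rw [h1]
  have h2 : ∀ b ∈ B, (n / Fintype.card Ω) ^ 2 ≤
      (A.filter (fun p => (kap Ω n p.1, kap Ω n p.2) = b)).card := by
    intro b hb
    have h3 : (univ.filter (fun t : Fin n => kap Ω n t = b.1)) ×ˢ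
        (univ.filter (fun t : Fin n => kap Ω n t = b.2)) ⊆
        A.filter (fun p => (kap Ω n p.1, kap Ω n p.2) = b) := by
      intro p hp
      rw [mem_product, mem_filter, mem_filter] at hp
      refine mem_filter.2 ⟨mem_filter.2 ⟨mem_univ _, ?_⟩, ?_⟩
      · rw [hp.1.2, hp.2.2]; exact (mem_filter.1 hb).2
      · rw [hp.1.2, hp.2.2]
    refine le_trans ?_ (card_le_card h3)
    rw [card_product, sq]
    exact Nat.mul_le_mul (kap_fiber n b.1).1 (kap_fiber n b.2).1
  have h4 := card_nsmul_le_sum B _ _ h2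
  rw [smul_eq_mul, mul_comm] at h4
  exact h4

end

/-- Ordered adjacent pairs number twice the number of edges. -/
theorem two_edges {W : Type*} [Finite W] (G : SimpleGraph W) :
    Nat.card {p : W × W // G.Adj p.1 p.2} = 2 * Nat.card G.edgeSet := by
  classical
  have : Fintype W := Fintype.ofFinite W
  have h1 := G.dart_card_eq_twice_card_edges
  rw [SimpleGraph.edgeFinset_card] at h1
  rw [Nat.card_eq_fintype_card (α := G.edgeSet), ← h1, ← Nat.card_eq_fintype_card]
  exact Nat.card_congr ⟨fun p => ⟨p.1, p.2⟩, fun d => ⟨d.toProd, d.adj⟩, fun _ => rfl, fun _ => rfl⟩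

end Pool.Agent.H877_TF
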