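import Pool.Agent.H877_TF.Count2

/-!
# A lower bound for the number of 4-cycles
-/

namespace Pool.Agent.H877_TF

open Finset

section

variable {n : ℕ} (G : SimpleGraph (Fin n))

/-- Ordered adjacent pairs. -/
noncomputable def dd : ℕ := Nat.card {p : Fin n × Fin n // G.Adj p.1 p.2}

/-- Homomorphisms from the 4-cycle. -/
noncomputable def hh : ℕ :=
  Nat.card {f : Fin 4 → Fin n // ∀ u v, (SimpleGraph.cycleGraph 4).Adj u v → G.Adj (f u) (f v)}

/-- Degree. -/
noncomputable def dg (b : Fin n) : ℕ := Nat.card {a : Fin n // G.Adj b a}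

/-- Codegree. -/
noncomputable def cd (p : Fin n × Fin n) : ℕ := Nat.card {b : Fin n // G.Adj b p.1 ∧ G.Adj b p.2}

theorem dd_eq : dd G = ∑ b, dg G b := by
  classical
  unfold dd dg
  rw [← Nat.card_sigma]
  exact Nat.card_congr ⟨fun p => ⟨p.1.1, ⟨p.1.2, p.2⟩⟩, fun s => ⟨(s.1, s.2.1), s.2.2⟩,
    fun _ => rfl, fun _ => rfl⟩

theorem sum_cd : ∑ p, cd G p = ∑ b, dg G b ^ 2 := by
  classical
  unfold cd dg
  rw [← Nat.card_sigma]
  simp_rw [sq, ← Nat.card_prod]
  rw [← Nat.card_sigma]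
  exact Nat.card_congr ⟨fun s => ⟨s.2.1, (⟨s.1.1, s.2.2.1⟩, ⟨s.1.2, s.2.2.2⟩)⟩,
    fun s => ⟨(s.2.1.1, s.2.2.1), ⟨s.1, s.2.1.2, s.2.2.2⟩⟩, fun _ => rfl, fun _ => rfl⟩

theorem sum_cd_sq_le : ∑ p, cd G p ^ 2 ≤ hh G := by
  classical
  unfold cd hh
  simp_rw [sq, ← Nat.card_prod]
  rw [← Nat.card_sigma]
  refine Nat.card_le_card_of_injective
    (fun s => ⟨![s.1.1, s.2.1.1, s.1.2, s.2.2.1], ?_⟩) ?_
  · obtain ⟨⟨a, c⟩, ⟨b, hb1, hb2⟩, ⟨d, hd1, hd2⟩⟩ := s
    simp only at hb1 hb2 hd1 hd2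
    intro u v huv
    rw [SimpleGraph.cycleGraph_adj] at huv
    fin_cases u <;> fin_cases v <;> first
      | (exfalso; revert huv; decide)
      | (simp; first
          | exact hb1 | exact hb2 | exact hd1 | exact hd2 | exact hb1.symm | exact hb2.symm
          | exact hd1.symm | exact hd2.symm)
  · rintro ⟨⟨a, c⟩, ⟨b, hb1, hb2⟩, ⟨d, hd1, hd2⟩⟩ ⟨⟨a', c'⟩, ⟨b', hb1', hb2'⟩, ⟨d', hd1', hd2'⟩⟩ h
    simp only [Subtype.mk.injEq] at h
    have h0 := congrFun h 0
    have h1 := congrFun h 1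
    have h2 := congrFun h 2
    have h3 := congrFun h 3
    simp at h0 h1 h2 h3
    subst h0 h1 h2 h3
    rfl

theorem dd_pow_four_le : (dd G : ℝ) ^ 4 ≤ (n : ℝ) ^ 4 * hh G := by
  have h1 : (dd G : ℝ) ^ 2 ≤ n * ∑ b, (dg G b : ℝ) ^ 2 := by
    have := sq_sum_le_card_mul_sum_sq (s := (univ : Finset (Fin n))) (f := fun b => (dg G b : ℝ))
    rw [card_univ, Fintype.card_fin] at this
    rw [dd_eq]
    push_cast
    exact this
  have h2 : (∑ b, (dg G b : ℝ) ^ 2) ^ 2 ≤ (n : ℝ) ^ 2 * ∑ p, (cd G p : ℝ) ^ 2 := by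
    have := sq_sum_le_card_mul_sum_sq (s := (univ : Finset (Fin n × Fin n)))
      (f := fun p => (cd G p : ℝ))
    rw [card_univ, Fintype.card_prod, Fintype.card_fin] at this
    have h3 : (∑ b, (dg G b : ℝ) ^ 2) = ∑ p, (cd G p : ℝ) := by
      have := sum_cd G
      exact_mod_cast this.symm
    rw [h3]
    refine this.trans (le_of_eq ?_)
    push_cast
    ring
  have h4 : ∑ p, (cd G p : ℝ) ^ 2 ≤ (hh G : ℝ) := by
    exact_mod_cast sum_cd_sq_le G
  have h5 : (0 : ℝ) ≤ ∑ b, (dg G b : ℝ) ^ 2 := sum_nonneg (fun b _ => by positivity)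
  calc (dd G : ℝ) ^ 4 = ((dd G : ℝ) ^ 2) ^ 2 := by ring
    _ ≤ (n * ∑ b, (dg G b : ℝ) ^ 2) ^ 2 := pow_le_pow_left₀ (by positivity) h1 2
    _ = (n : ℝ) ^ 2 * (∑ b, (dg G b : ℝ) ^ 2) ^ 2 := by ring
    _ ≤ (n : ℝ) ^ 2 * ((n : ℝ) ^ 2 * ∑ p, (cd G p : ℝ) ^ 2) :=
        mul_le_mul_of_nonneg_left h2 (by positivity)
    _ ≤ (n : ℝ) ^ 2 * ((n : ℝ) ^ 2 * hh G) :=
        mul_le_mul_of_nonneg_left (mul_le_mul_of_nonneg_left h4 (by positivity)) (by positivity)
    _ = _ := by ring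

theorem hh_le : hh G ≤ Nat.card {f : Fin 4 → Fin n // Function.Injective f ∧
      ∀ u v, (SimpleGraph.cycleGraph 4).Adj u v → G.Adj (f u) (f v)} + 2 * n ^ 3 := by
  classical
  rcases Nat.eq_zero_or_pos n with hn | hn
  · subst hn
    have : hh G = 0 := by
      unfold hh
      have : IsEmpty {f : Fin 4 → Fin 0 // ∀ u v,
        (SimpleGraph.cycleGraph 4).Adj u v → G.Adj (f u) (f v)} := ⟨fun f => (f.1 0).elim0⟩
      exact Nat.card_of_isEmpty
    omega
  unfold hh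
  rw [Nat.card_eq_fintype_card, Nat.card_eq_fintype_card, Fintype.card_subtype,
    Fintype.card_subtype]
  have hsub : (univ.filter (fun f : Fin 4 → Fin n => ∀ u v,
      (SimpleGraph.cycleGraph 4).Adj u v → G.Adj (f u) (f v))) ⊆
      ((univ.filter (fun f : Fin 4 → Fin n => Function.Injective f ∧
        ∀ u v, (SimpleGraph.cycleGraph 4).Adj u v → G.Adj (f u) (f v))) ∪
      (univ.filter (fun f : Fin 4 → Fin n => f 0 = f 2))) ∪
      (univ.filter (fun f : Fin 4 → Fin n => f 1 = f 3)) := by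
    intro f hf
    have hf' := (mem_filter.1 hf).2
    rw [mem_union, mem_union, mem_filter, mem_filter, mem_filter]
    by_cases h02 : f 0 = f 2
    · exact Or.inl (Or.inr ⟨mem_univ _, h02⟩)
    by_cases h13 : f 1 = f 3
    · exact Or.inr ⟨mem_univ _, h13⟩
    refine Or.inl (Or.inl ⟨mem_univ _, ?_, hf'⟩)
    have e01 : f 0 ≠ f 1 := (hf' 0 1 (by rw [SimpleGraph.cycleGraph_adj]; decide)).ne
    have e12 : f 1 ≠ f 2 := (hf' 1 2 (by rw [SimpleGraph.cycleGraph_adj]; decide)).ne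
    have e23 : f 2 ≠ f 3 := (hf' 2 3 (by rw [SimpleGraph.cycleGraph_adj]; decide)).ne
    have e30 : f 3 ≠ f 0 := (hf' 3 0 (by rw [SimpleGraph.cycleGraph_adj]; decide)).ne
    intro a b hab
    fin_cases a <;> fin_cases b <;> first
      | rfl
      | (exfalso; simp at hab; first
          | exact e01 hab | exact e12 hab | exact e23 hab | exact e30 hab
          | exact e01 hab.symm | exact e12 hab.symm | exact e23 hab.symm | exact e30 hab.symm
          | exact h02 hab | exact h13 hab | exact h02 hab.symm | exact h13 hab.symm)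
  have h1 : (univ.filter (fun f : Fin 4 → Fin n => f 0 = f 2)).card ≤ n ^ 3 := by
    have := idx1 (V := Fin 4) (N := n) (u := 0) (v := 2) (by decide)
    rw [Fintype.card_fin] at this
    exact Nat.le_of_mul_le_mul_right (this.trans (le_of_eq (pow_succ n 3))) hn
  have h2 : (univ.filter (fun f : Fin 4 → Fin n => f 1 = f 3)).card ≤ n ^ 3 := by
    have := idx1 (V := Fin 4) (N := n) (u := 1) (v := 3) (by decide)
    rw [Fintype.card_fin] at this
    exact Nat.le_of_mul_le_mul_right (this.trans (le_of_eq (pow_succ n 3))) hn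
  have h3 := card_le_card hsub
  have h4 := h3.trans ((card_union_le _ _).trans (Nat.add_le_add_right (card_union_le _ _) _))
  omega

end

end Pool.Agent.H877_TF
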