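import Pool.Agent.H877_TF.Asym
import Pool.Agent.H877_TF.Blow
import Pool.Agent.H877_TF.C4

/-!
# The blow-ups of the base graphs
-/

namespace Pool.Agent.H877_TF

open Finset Filter Topology

/-- Labelled copies of `F` in `G`. -/
noncomputable def emb {k n : ℕ} (F : SimpleGraph (Fin k)) (G : SimpleGraph (Fin n)) : ℕ :=
  Nat.card {f : Fin k → Fin n // Function.Injective f ∧ ∀ u v, F.Adj u v → G.Adj (f u) (f v)}

instance (k : ℕ) : Nonempty (Fin (mm k) → Lt (NN k)) :=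
  ⟨fun _ => (⟨0, NN_pos k⟩, fun _ => false)⟩

/-- The blow-up of the base graph to `n` vertices. -/
noncomputable def BG (k n : ℕ) : SimpleGraph (Fin n) :=
  (G0 (mm k) (NN k)).comap (kap (Fin (mm k) → Lt (NN k)) n)

theorem BG_adj (k n : ℕ) (a b : Fin n) : (BG k n).Adj a b ↔
    (G0 (mm k) (NN k)).Adj (kap (Fin (mm k) → Lt (NN k)) n a)
      (kap (Fin (mm k) → Lt (NN k)) n b) := Iff.rfl

theorem BG_cliqueFree (k n : ℕ) : (BG k n).CliqueFree 3 := by
  classical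
  intro s hs
  rw [SimpleGraph.is3Clique_iff] at hs
  obtain ⟨a, b, c, hab, hac, hbc, -⟩ := hs
  exact G0_no_triangle hab hac hbc

theorem card_Ed_eq {k : ℕ} (F : SimpleGraph (Fin k)) :
    Nat.card (Ed F) = Nat.card F.edgeSet := by
  classical
  have h1 := card_darts F
  have h2 := two_edges F
  have h3 : Nat.card {p : Fin k × Fin k // F.Adj p.1 p.2} =
      (univ.filter (fun p : Fin k × Fin k => F.Adj p.1 p.2)).card := by
    rw [Nat.card_eq_fintype_card, Fintype.card_subtype]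
  omega

theorem dd_eq_two_edges {n : ℕ} (G : SimpleGraph (Fin n)) :
    dd G = 2 * Nat.card G.edgeSet := two_edges G

/-- The ratio `k / (k + 1)`. -/
noncomputable def rr (k : ℕ) : ℝ := 1 - 1 / ((k : ℝ) + 1)

theorem rr_pos {k : ℕ} (hk : 1 ≤ k) : 0 < rr k := by
  unfold rr
  have : (1 : ℝ) ≤ k := by exact_mod_cast hk
  rw [sub_pos, div_lt_one (by positivity)]; linarith

theorem rr_le_one (k : ℕ) : rr k ≤ 1 := by
  unfold rr
  have : (0 : ℝ) ≤ 1 / ((k : ℝ) + 1) := by positivity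
  linarith

theorem rr_mul (k : ℕ) : rr k * ((k : ℝ) + 1) = k := by
  unfold rr; field_simp; ring

/-- Sizes: with `q = n / n0 k`, `q * n0 ≥ rr k * n` and `rr k * (q + 1) * n0 ≤ n`. -/
theorem size_bounds {k n : ℕ} (hk : 1 ≤ k) (hn : k * n0 k ≤ n) :
    rr k * n ≤ ((n / n0 k : ℕ) : ℝ) * n0 k ∧ rr k * ((((n / n0 k : ℕ) : ℝ) + 1) * n0 k) ≤ n := by
  set q := n / n0 k with hq
  have hn0 := n0_pos k
  have hqk : k ≤ q := (Nat.le_div_iff_mul_le hn0).2 hn
  have h1 : n < (q + 1) * n0 k := Nat.lt_mul_of_div_lt (Nat.lt_succ_self _) hn0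
  have h2 : q * n0 k ≤ n := Nat.div_mul_le_self n (n0 k)
  have h1' : (n : ℝ) ≤ ((q : ℝ) + 1) * n0 k := by exact_mod_cast h1.le
  have h2' : (q : ℝ) * n0 k ≤ n := by exact_mod_cast h2
  have hqk' : (k : ℝ) ≤ q := by exact_mod_cast hqk
  have hn0' : (0 : ℝ) < n0 k := by exact_mod_cast hn0
  have h3 : rr k * ((q : ℝ) + 1) ≤ q := by
    have h4 : rr k * ((q : ℝ) + 1) = q + 1 - ((q : ℝ) + 1) / ((k : ℝ) + 1) := by
      unfold rr; field_simp
    have h5 : 1 ≤ ((q : ℝ) + 1) / ((k : ℝ) + 1) := by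
      rw [le_div_iff₀ (by positivity)]; linarith
    linarith
  have hr := rr_pos hk
  constructor
  · calc rr k * n ≤ rr k * (((q : ℝ) + 1) * n0 k) := mul_le_mul_of_nonneg_left h1' hr.le
      _ = (rr k * ((q : ℝ) + 1)) * n0 k := by ring
      _ ≤ q * n0 k := mul_le_mul_of_nonneg_right h3 hn0'.le
  · calc rr k * (((q : ℝ) + 1) * n0 k) = (rr k * ((q : ℝ) + 1)) * n0 k := by ring
      _ ≤ q * n0 k := mul_le_mul_of_nonneg_right h3 hn0'.le
      _ ≤ n := h2'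

/-- Lower bound for the number of ordered adjacent pairs. -/
theorem dd_BG_ge {k n : ℕ} (hk : 1 ≤ k) (hn : k * n0 k ≤ n) :
    (n : ℝ) ^ 2 * (pi0 k * rr k ^ 3) ≤ dd (BG k n) := by
  have h1 := blow_ge (Ω := Fin (mm k) → Lt (NN k)) (G0 (mm k) (NN k)) n
  rw [card_Om] at h1
  have h2 : (((n / n0 k : ℕ) : ℝ)) ^ 2 * hK (mm k) (NN k) ≤ dd (BG k n) := by
    exact_mod_cast h1
  refine le_trans ?_ h2
  have h3 := hK_lower k
  obtain ⟨h4, -⟩ := size_bounds hk hn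
  have hr := rr_pos hk
  have hpi := pi0_pos k
  calc (n : ℝ) ^ 2 * (pi0 k * rr k ^ 3) = (rr k * n) ^ 2 * (pi0 k * rr k) := by ring
    _ ≤ (((n / n0 k : ℕ) : ℝ) * n0 k) ^ 2 * (pi0 k * rr k) :=
        mul_le_mul_of_nonneg_right (pow_le_pow_left₀ (by positivity) h4 2) (by positivity)
    _ = (((n / n0 k : ℕ) : ℝ)) ^ 2 * ((n0 k : ℝ) ^ 2 * (pi0 k * (1 - 1 / ((k : ℝ) + 1)))) := by
        unfold rr; ring
    _ ≤ _ := mul_le_mul_of_nonneg_left h3 (by positivity)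

/-- Upper bound for labelled copies in terms of the base graph. -/
theorem emb_BG_le {k n v : ℕ} (hk : 1 ≤ k) (hn : k * n0 k ≤ n) (F : SimpleGraph (Fin v)) (R : ℝ)
    (hR : (hm F (mm k) (NN k) : ℝ) ≤ (n0 k : ℝ) ^ v * (pi0 k ^ (Nat.card F.edgeSet) * R))
    (hR0 : 0 ≤ R) (p : ℝ) (hp : pi0 k * rr k ^ 3 ≤ p) :
    (emb F (BG k n) : ℝ) ≤ (n : ℝ) ^ v * p ^ (Nat.card F.edgeSet) *
      (R / (rr k) ^ (v + 3 * Nat.card F.edgeSet)) := by
  have h1 : emb F (BG k n) ≤ Nat.card {f : Fin v → Fin n // ∀ a b, F.Adj a b →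
      (G0 (mm k) (NN k)).Adj (kap (Fin (mm k) → Lt (NN k)) n (f a))
        (kap (Fin (mm k) → Lt (NN k)) n (f b))} := by
    unfold emb
    exact Nat.card_le_card_of_injective (fun f => ⟨f.1, f.2.2⟩)
      (fun f g h => Subtype.ext (by simpa using h))
  have h2 := h1.trans (blow_le (Ω := Fin (mm k) → Lt (NN k)) F (G0 (mm k) (NN k)) n)
  rw [card_Om, Fintype.card_fin] at h2
  have h3 : (emb F (BG k n) : ℝ) ≤ (((n / n0 k : ℕ) : ℝ) + 1) ^ v * hm F (mm k) (NN k) := by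
    have h2' : ((emb F (BG k n) : ℕ) : ℝ) ≤ (((n / n0 k + 1) ^ v *
      Nat.card {φ : Fin v → (Fin (mm k) → Lt (NN k)) // ∀ a b, F.Adj a b →
        (G0 (mm k) (NN k)).Adj (φ a) (φ b)} : ℕ) : ℝ) := by exact_mod_cast h2
    push_cast at h2'
    exact h2'
  refine h3.trans ?_
  obtain ⟨-, h4⟩ := size_bounds hk hn
  have hr := rr_pos hk
  have hpi := pi0_pos k
  set e := Nat.card F.edgeSet with he
  set q : ℝ := ((n / n0 k : ℕ) : ℝ) with hq
  have hq0 : 0 ≤ q := Nat.cast_nonneg _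
  have h5 : (q + 1) * n0 k ≤ n / rr k := by
    rw [le_div_iff₀ hr]; linarith
  have h6 : pi0 k ≤ p / rr k ^ 3 := by
    rw [le_div_iff₀ (by positivity)]; exact hp
  have hp0 : 0 ≤ p := le_trans (by positivity) hp
  calc (q + 1) ^ v * (hm F (mm k) (NN k) : ℝ)
      ≤ (q + 1) ^ v * ((n0 k : ℝ) ^ v * (pi0 k ^ e * R)) :=
        mul_le_mul_of_nonneg_left hR (by positivity)
    _ = ((q + 1) * n0 k) ^ v * (pi0 k ^ e * R) := by rw [mul_pow]; ring
    _ ≤ (n / rr k) ^ v * ((p / rr k ^ 3) ^ e * R) := by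
        refine mul_le_mul (pow_le_pow_left₀ (by positivity) h5 v) ?_ (by positivity)
          (by positivity)
        exact mul_le_mul_of_nonneg_right (pow_le_pow_left₀ hpi.le h6 e) hR0
    _ = _ := by
        rw [div_pow, div_pow, ← pow_mul, pow_add]
        field_simp

end Pool.Agent.H877_TF
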