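import Pool.Agent.H877_TF.Final

/-!
# The dense case (Chung-Graham-Wilson)
-/

namespace Pool.Agent.H877_TF

open Finset Filter Topology

theorem emb_K3 {n : ℕ} (G : SimpleGraph (Fin n)) [DecidablePred (fun p : Fin n × Fin n =>
    G.Adj p.1 p.2)] :
    emb (⊤ : SimpleGraph (Fin 3)) G = ∑ p ∈ univ.filter (fun p : Fin n × Fin n => G.Adj p.1 p.2),
      cd G p := by
  classical
  have h1 : ∑ p ∈ univ.filter (fun p : Fin n × Fin n => G.Adj p.1 p.2), cd G p =
      ∑ p : {p : Fin n × Fin n // G.Adj p.1 p.2}, cd G p.1 := by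
    rw [← Finset.sum_subtype]
    intro p; simp
  rw [h1]
  unfold cd emb
  rw [← Nat.card_sigma]
  refine Nat.card_congr ⟨fun f => ⟨⟨(f.1 0, f.1 1), f.2.2 0 1 (by simp)⟩,
    ⟨f.1 2, f.2.2 2 0 (by simp), f.2.2 2 1 (by simp)⟩⟩,
    fun s => ⟨![s.1.1.1, s.1.1.2, s.2.1], ?_, ?_⟩, ?_, ?_⟩
  · obtain ⟨⟨⟨a, b⟩, hab⟩, ⟨c, hc1, hc2⟩⟩ := s
    simp only at hab hc1 hc2
    have h1 := hab.ne
    have h2 := hc1.ne
    have h3 := hc2.ne
    intro u v huv
    fin_cases u <;> fin_cases v <;> first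
      | rfl
      | (exfalso; simp at huv; first
          | exact h1 huv | exact h2 huv | exact h3 huv | exact h1 huv.symm | exact h2 huv.symm
          | exact h3 huv.symm)
  · obtain ⟨⟨⟨a, b⟩, hab⟩, ⟨c, hc1, hc2⟩⟩ := s
    simp only at hab hc1 hc2
    intro u v huv
    fin_cases u <;> fin_cases v <;> first
      | (exfalso; revert huv; simp; done)
      | (simp; first
          | exact hab | exact hc1 | exact hc2 | exact hab.symm | exact hc1.symm
          | exact hc2.symm)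
  · intro f
    apply Subtype.ext
    funext u
    fin_cases u <;> rfl
  · intro s
    rfl

theorem var_le {n : ℕ} (hn : 1 ≤ n) (G : SimpleGraph (Fin n)) (t : ℝ) (ht : 0 ≤ t) :
    ∑ q, ((cd G q : ℝ) - t) ^ 2 ≤ hh G - 2 * t * ((dd G : ℝ) ^ 2 / n) + (n : ℝ) ^ 2 * t ^ 2 := by
  have hn0 : (0 : ℝ) < n := by exact_mod_cast hn
  have h1 : ∑ q, ((cd G q : ℝ) - t) ^ 2 =
      ∑ q, (cd G q : ℝ) ^ 2 - 2 * t * ∑ q, (cd G q : ℝ) + (n : ℝ) ^ 2 * t ^ 2 := by
    have h2 : ∀ q, ((cd G q : ℝ) - t) ^ 2 = (cd G q : ℝ) ^ 2 - 2 * t * (cd G q : ℝ) + t ^ 2 := by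
      intro q; ring
    rw [sum_congr rfl (fun q _ => h2 q), sum_add_distrib, sum_sub_distrib, ← mul_sum, sum_const,
      card_univ, Fintype.card_prod, Fintype.card_fin, nsmul_eq_mul]
    push_cast
    ring
  have h3 : ∑ q, (cd G q : ℝ) ^ 2 ≤ (hh G : ℝ) := by exact_mod_cast sum_cd_sq_le G
  have h4 : (∑ q, (cd G q : ℝ)) = ∑ b, (dg G b : ℝ) ^ 2 := by exact_mod_cast sum_cd G
  have h5 : (dd G : ℝ) ^ 2 / n ≤ ∑ b, (dg G b : ℝ) ^ 2 := by
    rw [div_le_iff₀ hn0, mul_comm]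
    have := sq_sum_le_card_mul_sum_sq (s := (univ : Finset (Fin n))) (f := fun b => (dg G b : ℝ))
    rw [card_univ, Fintype.card_fin] at this
    rw [dd_eq]
    push_cast
    exact this
  rw [h1, h4]
  have h6 : 2 * t * ((dd G : ℝ) ^ 2 / n) ≤ 2 * t * ∑ b, (dg G b : ℝ) ^ 2 :=
    mul_le_mul_of_nonneg_left h5 (by linarith)
  linarith

theorem K3_close {n : ℕ} (hn : 1 ≤ n) (G : SimpleGraph (Fin n)) (t : ℝ) :
    ((emb (⊤ : SimpleGraph (Fin 3)) G : ℝ) - t * dd G) ^ 2 ≤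
      (n : ℝ) ^ 2 * ∑ q, ((cd G q : ℝ) - t) ^ 2 := by
  classical
  have h1 : (emb (⊤ : SimpleGraph (Fin 3)) G : ℝ) - t * dd G =
      ∑ q ∈ univ.filter (fun p : Fin n × Fin n => G.Adj p.1 p.2), ((cd G q : ℝ) - t) := by
    rw [emb_K3, sum_sub_distrib, sum_const, nsmul_eq_mul]
    push_cast
    congr 1
    unfold dd
    rw [Nat.card_eq_fintype_card, Fintype.card_subtype]
    ring
  rw [h1]
  refine sq_sum_le_card_mul_sum_sq.trans ?_
  have h2 : ((univ.filter (fun p : Fin n × Fin n => G.Adj p.1 p.2)).card : ℝ) ≤ (n : ℝ) ^ 2 := by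
    have : (univ.filter (fun p : Fin n × Fin n => G.Adj p.1 p.2)).card ≤ n ^ 2 := by
      refine (card_le_univ _).trans ?_
      rw [Fintype.card_prod, Fintype.card_fin, sq]
    exact_mod_cast this
  have h3 : ∑ q ∈ univ.filter (fun p : Fin n × Fin n => G.Adj p.1 p.2), ((cd G q : ℝ) - t) ^ 2 ≤
      ∑ q, ((cd G q : ℝ) - t) ^ 2 :=
    sum_le_sum_of_subset_of_nonneg (filter_subset _ _) (fun _ _ _ => sq_nonneg _)
  exact mul_le_mul h2 h3 (sum_nonneg (fun _ _ => sq_nonneg _)) (by positivity)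

theorem cgw (p : ℕ → ℝ) (hp : Adm p) (c : ℝ) (hc : 0 < c) (hpc : ∀ n, c ≤ p n)
    (G : ∀ n, SimpleGraph (Fin n)) (hG : Cond p G) :
    Tendsto (fun n => sp (p n) (⊤ : SimpleGraph (Fin 3)) (G n)) atTop (𝓝 1) := by
  obtain ⟨hp01, -, -⟩ := hp
  obtain ⟨hG1, hG2, -⟩ := hG
  -- the error
  set ε : ℕ → ℝ := fun n => |sp (p n) (SimpleGraph.cycleGraph 4) (G n) + 1 -
    2 * (((n : ℝ) - 1) / n) ^ 2| + 2 / n with hε
  have hr : Tendsto (fun n : ℕ => ((n : ℝ) - 1) / n) atTop (𝓝 1) := by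
    have h2 : Tendsto (fun n : ℕ => 1 - 1 / (n : ℝ)) atTop (𝓝 1) := by
      have := (tendsto_one_div_atTop_nhds_zero_nat (𝕜 := ℝ)).const_sub 1
      rwa [sub_zero] at this
    refine h2.congr' ?_
    filter_upwards [eventually_ge_atTop 1] with n hn
    have hn0 : (0 : ℝ) < n := by exact_mod_cast hn
    field_simp
  have hεt : Tendsto ε atTop (𝓝 0) := by
    have h1 := (((hG2.add_const 1).sub ((hr.pow 2).const_mul 2)).abs).add
      (tendsto_const_div_atTop_nhds_zero_nat (2 : ℝ))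
    norm_num at h1
    refine h1.congr (fun n => ?_)
    simp only [hε]
  have hkey : ∀ n : ℕ, 4 ≤ n → ((emb (⊤ : SimpleGraph (Fin 3)) (G n) : ℝ) -
      (p n ^ 2 * n) * (p n * (n * (n - 1)))) ^ 2 ≤ (n : ℝ) ^ 6 * ε n := by
    intro n hn
    have hn0 : (0 : ℝ) < n := by exact_mod_cast (by omega : 0 < n)
    have hpn := (hp01 n).1
    have hpn1 := (hp01 n).2
    have h2 : (dd (G n) : ℝ) = p n * (n * (n - 1)) := by
      rw [dd_eq_two_edges]
      push_cast
      rw [hG1 n, Nat.cast_choose_two]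
      ring
    have h3 := K3_close (by omega : 1 ≤ n) (G n) (p n ^ 2 * n)
    rw [h2] at h3
    refine h3.trans ?_
    have h4 := var_le (by omega : 1 ≤ n) (G n) (p n ^ 2 * n) (by positivity)
    rw [h2] at h4
    have h5 : (hh (G n) : ℝ) ≤ emb (SimpleGraph.cycleGraph 4) (G n) + 2 * (n : ℝ) ^ 3 := by
      exact_mod_cast hh_le (G n)
    have hd : (0 : ℝ) < n.descFactorial 4 := by exact_mod_cast Nat.descFactorial_pos.2 hn
    set s : ℝ := sp (p n) (SimpleGraph.cycleGraph 4) (G n) with hs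
    have hs0 : 0 ≤ s := by rw [hs]; unfold sp; positivity
    have h6 : (emb (SimpleGraph.cycleGraph 4) (G n) : ℝ) ≤ s * ((n : ℝ) ^ 4 * p n ^ 4) := by
      have h7 : (emb (SimpleGraph.cycleGraph 4) (G n) : ℝ) =
          s * ((n.descFactorial 4 : ℝ) * p n ^ 4) := by
        rw [hs]; unfold sp; rw [card_C4]; field_simp
      rw [h7]
      refine mul_le_mul_of_nonneg_left (mul_le_mul_of_nonneg_right ?_ (by positivity)) hs0
      exact_mod_cast Nat.descFactorial_le_pow n 4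
    have h8 : ∑ q, ((cd (G n) q : ℝ) - p n ^ 2 * n) ^ 2 ≤ (n : ℝ) ^ 4 * ε n := by
      refine h4.trans ?_
      have h9 : (hh (G n) : ℝ) - 2 * (p n ^ 2 * n) * ((p n * (n * (n - 1))) ^ 2 / n) +
          (n : ℝ) ^ 2 * (p n ^ 2 * n) ^ 2 ≤
          (n : ℝ) ^ 4 * p n ^ 4 * (s + 1 - 2 * (((n : ℝ) - 1) / n) ^ 2) + 2 * (n : ℝ) ^ 3 := by
        have h10 : (n : ℝ) ^ 4 * p n ^ 4 * (s + 1 - 2 * (((n : ℝ) - 1) / n) ^ 2) +
            2 * (n : ℝ) ^ 3 = (s * ((n : ℝ) ^ 4 * p n ^ 4) + 2 * (n : ℝ) ^ 3) -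
            2 * (p n ^ 2 * n) * ((p n * (n * (n - 1))) ^ 2 / n) +
            (n : ℝ) ^ 2 * (p n ^ 2 * n) ^ 2 := by
          field_simp
          ring
        rw [h10]
        linarith
      refine h9.trans ?_
      have h11 : s + 1 - 2 * (((n : ℝ) - 1) / n) ^ 2 ≤
          |s + 1 - 2 * (((n : ℝ) - 1) / n) ^ 2| := le_abs_self _
      have h12 : p n ^ 4 ≤ 1 := pow_le_one₀ hpn.le hpn1
      have h13 : (n : ℝ) ^ 4 * p n ^ 4 * (s + 1 - 2 * (((n : ℝ) - 1) / n) ^ 2) ≤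
          (n : ℝ) ^ 4 * |s + 1 - 2 * (((n : ℝ) - 1) / n) ^ 2| := by
        calc _ ≤ (n : ℝ) ^ 4 * p n ^ 4 * |s + 1 - 2 * (((n : ℝ) - 1) / n) ^ 2| :=
              mul_le_mul_of_nonneg_left h11 (by positivity)
          _ ≤ (n : ℝ) ^ 4 * 1 * |s + 1 - 2 * (((n : ℝ) - 1) / n) ^ 2| := by
              refine mul_le_mul_of_nonneg_right (mul_le_mul_of_nonneg_left h12 ?_)
                (abs_nonneg _)
              positivity
          _ = _ := by ring
      have h14 : (n : ℝ) ^ 4 * ε n = (n : ℝ) ^ 4 * |s + 1 - 2 * (((n : ℝ) - 1) / n) ^ 2| +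
          2 * (n : ℝ) ^ 3 := by
        simp only [hε, ← hs]
        field_simp
      rw [h14]
      linarith
    calc (n : ℝ) ^ 2 * ∑ q, ((cd (G n) q : ℝ) - p n ^ 2 * n) ^ 2
        ≤ (n : ℝ) ^ 2 * ((n : ℝ) ^ 4 * ε n) := mul_le_mul_of_nonneg_left h8 (by positivity)
      _ = _ := by ring
  -- the main term and the error term
  have hmain : Tendsto (fun n : ℕ => (((n : ℝ) - 1) / n) *
      ((n : ℝ) ^ 3 / (n.descFactorial 3 : ℝ))) atTop (𝓝 1) := by
    have := hr.mul (descFactorial_ratio_tendsto 3)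
    rwa [one_mul] at this
  have herr : Tendsto (fun n : ℕ => Real.sqrt (ε n) *
      ((n : ℝ) ^ 3 / (n.descFactorial 3 : ℝ)) / c ^ 3) atTop (𝓝 0) := by
    have h1 : Tendsto (fun n => Real.sqrt (ε n)) atTop (𝓝 0) := by
      have := (Real.continuous_sqrt.tendsto 0).comp hεt
      rwa [Real.sqrt_zero] at this
    have h2 := (h1.mul (descFactorial_ratio_tendsto 3)).div_const (c ^ 3)
    rwa [zero_mul, zero_div] at h2
  have hdiff : Tendsto (fun n : ℕ => sp (p n) (⊤ : SimpleGraph (Fin 3)) (G n) -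
      (((n : ℝ) - 1) / n) * ((n : ℝ) ^ 3 / (n.descFactorial 3 : ℝ))) atTop (𝓝 0) := by
    refine squeeze_zero_norm' ?_ herr
    filter_upwards [eventually_ge_atTop 4] with n hn
    have hn0 : (0 : ℝ) < n := by exact_mod_cast (by omega : 0 < n)
    have hpn := (hp01 n).1
    have hd : (0 : ℝ) < n.descFactorial 3 := by
      exact_mod_cast Nat.descFactorial_pos.2 (by omega)
    have hcard : Nat.card (⊤ : SimpleGraph (Fin 3)).edgeSet = 3 := by
      classical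
      rw [Nat.card_eq_fintype_card, ← SimpleGraph.edgeFinset_card,
        SimpleGraph.card_edgeFinset_top_eq_card_choose_two, Fintype.card_fin]
      rfl
    have h1 : sp (p n) (⊤ : SimpleGraph (Fin 3)) (G n) -
        (((n : ℝ) - 1) / n) * ((n : ℝ) ^ 3 / (n.descFactorial 3 : ℝ)) =
        ((emb (⊤ : SimpleGraph (Fin 3)) (G n) : ℝ) -
          (p n ^ 2 * n) * (p n * (n * (n - 1)))) / ((n.descFactorial 3 : ℝ) * p n ^ 3) := by
      unfold sp
      rw [hcard]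
      field_simp
    rw [h1, Real.norm_eq_abs, abs_div, abs_of_pos (by positivity :
      (0 : ℝ) < (n.descFactorial 3 : ℝ) * p n ^ 3)]
    have h2 : |(emb (⊤ : SimpleGraph (Fin 3)) (G n) : ℝ) -
        (p n ^ 2 * n) * (p n * (n * (n - 1)))| ≤ (n : ℝ) ^ 3 * Real.sqrt (ε n) := by
      have hε0 : 0 ≤ ε n := by simp only [hε]; positivity
      apply abs_le_of_sq_le_sq _ (by positivity)
      rw [mul_pow, Real.sq_sqrt hε0]
      refine (hkey n hn).trans (le_of_eq ?_)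
      ring
    have hc3 : c ^ 3 ≤ p n ^ 3 := pow_le_pow_left₀ hc.le (hpc n) 3
    calc _ ≤ ((n : ℝ) ^ 3 * Real.sqrt (ε n)) / ((n.descFactorial 3 : ℝ) * p n ^ 3) :=
          div_le_div_of_nonneg_right h2 (by positivity)
      _ ≤ ((n : ℝ) ^ 3 * Real.sqrt (ε n)) / ((n.descFactorial 3 : ℝ) * c ^ 3) := by
          refine div_le_div_of_nonneg_left (by positivity) (by positivity) ?_
          exact mul_le_mul_of_nonneg_left hc3 hd.le
      _ = _ := by field_simp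
  have := hdiff.add hmain
  rw [zero_add] at this
  refine this.congr (fun n => ?_)
  ring

end Pool.Agent.H877_TF
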