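import Pool.Agent.H877_TF.Basic

/-!
# Counting letter assignments
-/

namespace Pool.Agent.H877_TF

open Finset

/-- If the elements of `T` are determined by their values outside `D`, then
`|T| * |α|^|D| ≤ |α|^|B|`. -/
theorem card_mul_pow_le {B α : Type*} [Fintype B] [DecidableEq B] [Fintype α]
    (T : Finset (B → α)) (D : Finset B)
    (h : ∀ f ∈ T, ∀ g ∈ T, (∀ b, b ∉ D → f b = g b) → f = g) :
    T.card * (Fintype.card α) ^ D.card ≤ (Fintype.card α) ^ (Fintype.card B) := by
  classical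
  have h1 : T.card ≤ Fintype.card ({b // b ∉ D} → α) := by
    rw [← Finset.card_univ]
    refine Finset.card_le_card_of_injOn (fun f => fun b : {b // b ∉ D} => f b.1)
      (fun _ _ => Finset.mem_coe.2 (Finset.mem_univ _)) ?_
    intro f hf g hg hfg
    refine h f hf g hg (fun b hb => ?_)
    exact congrFun hfg ⟨b, hb⟩
  have h2 : Fintype.card {b // b ∉ D} + D.card = Fintype.card B := by
    have := Fintype.card_subtype_compl (fun b => b ∈ D)
    rw [this]
    have h3 : Fintype.card {x // x ∈ D} = D.card := by simp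
    rw [h3]
    have := Finset.card_le_univ D
    omega
  rw [Fintype.card_fun] at h1
  calc T.card * (Fintype.card α) ^ D.card
      ≤ (Fintype.card α) ^ (Fintype.card {b // b ∉ D}) * (Fintype.card α) ^ D.card :=
        Nat.mul_le_mul_right _ h1
    _ = _ := by rw [← pow_add, h2]

section

variable {V : Type*} [Fintype V] [LinearOrder V]

/-- Edges of `F`, oriented upwards. -/
abbrev Ed (F : SimpleGraph V) : Type _ := {d : V × V // d.1 < d.2 ∧ F.Adj d.1 d.2}

/-- The pattern condition on letter assignments. -/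
def Pat (F : SimpleGraph V) {N : ℕ} (S : Finset (Ed F)) (f : V → Lt N) : Prop :=
  ∀ e : Ed F, (e ∈ S → spc (f e.1.1) (f e.1.2)) ∧ (e ∉ S → reg (f e.1.1) (f e.1.2))

/-- The pattern condition in terms of index/bit data. -/
def QQ (F : SimpleGraph V) {N : ℕ} (S : Finset (Ed F)) (i : V → Fin N)
    (ξ : V × Fin N → Bool) : Prop :=
  ∀ e : Ed F, (e ∈ S → i e.1.1 = i e.1.2 ∧ ξ (e.1.1, i e.1.1) ≠ ξ (e.1.2, i e.1.1)) ∧
    (e ∉ S → i e.1.1 ≠ i e.1.2 ∧ ξ (e.1.1, i e.1.1) = ξ (e.1.2, i e.1.1) ∧
      ξ (e.1.1, i e.1.2) = ξ (e.1.2, i e.1.2))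

/-- Number of letter assignments with pattern `S`. -/
noncomputable def cnt (F : SimpleGraph V) (N : ℕ) (S : Finset (Ed F)) : ℕ :=
  Nat.card {f : V → Lt N // Pat F S f}

/-- For fixed indices, the number of bit assignments. -/
noncomputable def cntx (F : SimpleGraph V) {N : ℕ} (S : Finset (Ed F)) (i : V → Fin N) : ℕ :=
  Nat.card {ξ : V × Fin N → Bool // QQ F S i ξ}

theorem cnt_eq_sum (F : SimpleGraph V) (N : ℕ) (S : Finset (Ed F)) :
    cnt F N S = ∑ i : V → Fin N, cntx F S i := by
  classical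
  unfold cnt cntx
  rw [← Nat.card_sigma]
  refine Nat.card_congr ⟨fun f => ⟨fun v => (f.1 v).1, ⟨fun b => (f.1 b.1).2 b.2, f.2⟩⟩,
    fun p => ⟨fun v => (p.1 v, fun x => p.2.1 (v, x)), p.2.2⟩, ?_, ?_⟩
  · intro f; rfl
  · intro p; rfl

theorem cntx_le_all (F : SimpleGraph V) {N : ℕ} (S : Finset (Ed F)) (i : V → Fin N) :
    cntx F S i ≤ 2 ^ (Fintype.card V * N) := by
  classical
  unfold cntx
  rw [Nat.card_eq_fintype_card]
  refine (Fintype.card_subtype_le _).trans ?_
  simp

omit [Fintype V] in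
/-- A pattern with an edge of `S` whose ends have different indices is impossible. -/
theorem cntx_eq_zero (F : SimpleGraph V) {N : ℕ} (S : Finset (Ed F)) (i : V → Fin N)
    (h : ∃ e ∈ S, i e.1.1 ≠ i e.1.2) : cntx F S i = 0 := by
  classical
  unfold cntx
  obtain ⟨e, he, hne⟩ := h
  have : IsEmpty {ξ : V × Fin N → Bool // QQ F S i ξ} := ⟨fun ξ => hne ((ξ.2 e).1 he).1⟩
  exact Nat.card_of_isEmpty

/-- Ordered adjacent pairs number twice the number of edges. -/
theorem card_darts (F : SimpleGraph V) [DecidablePred (fun p : V × V => F.Adj p.1 p.2)] :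
    (univ.filter (fun p : V × V => F.Adj p.1 p.2)).card = 2 * Nat.card (Ed F) := by
  classical
  have h0 : Nat.card (Ed F) = (univ.filter (fun p : V × V => p.1 < p.2 ∧ F.Adj p.1 p.2)).card := by
    rw [Nat.card_eq_fintype_card, Fintype.card_subtype]
  have h1 : (univ.filter (fun p : V × V => F.Adj p.1 p.2)) =
      (univ.filter (fun p : V × V => p.1 < p.2 ∧ F.Adj p.1 p.2)) ∪
      (univ.filter (fun p : V × V => p.1 < p.2 ∧ F.Adj p.1 p.2)).image Prod.swap := by
    ext ⟨a, b⟩
    simp only [mem_filter, mem_univ, true_and, mem_union, mem_image, Prod.exists, Prod.swap_prod_mk,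
      Prod.mk.injEq]
    constructor
    · intro h
      rcases lt_trichotomy a b with hab | hab | hab
      · exact Or.inl ⟨hab, h⟩
      · subst hab; exact absurd h (F.loopless.irrefl a)
      · exact Or.inr ⟨b, a, ⟨hab, h.symm⟩, rfl, rfl⟩
    · rintro (⟨_, h⟩ | ⟨c, d, ⟨_, h⟩, rfl, rfl⟩)
      · exact h
      · exact h.symm
  rw [h1, card_union_of_disjoint, card_image_of_injective _ Prod.swap_injective, h0, two_mul]
  rw [Finset.disjoint_left]
  rintro ⟨a, b⟩ h2 h3
  simp only [mem_filter, mem_univ, true_and, mem_image, Prod.exists, Prod.swap_prod_mk,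
      Prod.mk.injEq] at h2 h3
  obtain ⟨c, d, ⟨h4, _⟩, rfl, rfl⟩ := h3
  exact absurd h2.1 (not_lt_of_gt h4)

omit [Fintype V] in
/-- The bit constraints in symmetric form when `S = ∅`. -/
theorem QQ_adj (F : SimpleGraph V) {N : ℕ} {S : Finset (Ed F)} {i : V → Fin N}
    {ξ : V × Fin N → Bool} (h : QQ F S i ξ) {w u : V} (hwu : F.Adj w u)
    (hS : ∀ e ∈ S, ¬ (e.1.1 = w ∧ e.1.2 = u) ∧ ¬ (e.1.1 = u ∧ e.1.2 = w)) :
    ξ (w, i u) = ξ (u, i u) := by
  rcases lt_trichotomy w u with hlt | heq | hlt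
  · have := (h ⟨(w, u), hlt, hwu⟩).2 (fun hm => (hS _ hm).1 ⟨rfl, rfl⟩)
    exact this.2.2
  · subst heq; rfl
  · have := (h ⟨(u, w), hlt, hwu.symm⟩).2 (fun hm => (hS _ hm).2 ⟨rfl, rfl⟩)
    exact this.2.1.symm

/-- Case (A): injective indices and empty pattern. -/
theorem cntx_empty_of_inj (F : SimpleGraph V) {N : ℕ} (i : V → Fin N)
    (hi : Function.Injective i) :
    cntx F (∅ : Finset (Ed F)) i * 2 ^ (2 * Nat.card (Ed F)) ≤ 2 ^ (Fintype.card V * N) := by
  classical
  set T : Finset (V × Fin N → Bool) := univ.filter (fun ξ => QQ F (∅ : Finset (Ed F)) i ξ) with hT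
  have hcard : cntx F (∅ : Finset (Ed F)) i = T.card := by
    unfold cntx
    rw [Nat.card_eq_fintype_card, Fintype.card_subtype]
  set D : Finset (V × Fin N) :=
    (univ.filter (fun p : V × V => F.Adj p.1 p.2)).image (fun p => (p.1, i p.2)) with hD
  have hDcard : D.card = 2 * Nat.card (Ed F) := by
    rw [hD, card_image_of_injective, card_darts]
    rintro ⟨a, b⟩ ⟨c, d⟩ h
    simp only [Prod.mk.injEq] at h
    rw [h.1, hi h.2]
  have key := card_mul_pow_le T D ?_
  · rw [hDcard] at key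
    simpa [hcard] using key
  · intro f hf g hg hfg
    have hf' : QQ F (∅ : Finset (Ed F)) i f := (mem_filter.1 hf).2
    have hg' : QQ F (∅ : Finset (Ed F)) i g := (mem_filter.1 hg).2
    funext b
    by_cases hb : b ∈ D
    · rw [hD, mem_image] at hb
      obtain ⟨⟨w, u⟩, hwu, rfl⟩ := hb
      have hadj : F.Adj w u := (mem_filter.1 hwu).2
      have h1 := QQ_adj F hf' hadj (fun e he => absurd he (notMem_empty e))
      have h2 := QQ_adj F hg' hadj (fun e he => absurd he (notMem_empty e))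
      have hu : (u, i u) ∉ D := by
        rw [hD, mem_image]
        rintro ⟨⟨w', u'⟩, hwu', he⟩
        simp only [Prod.mk.injEq] at he
        have h3 : u' = u := hi he.2
        have h4 : F.Adj w' u' := (mem_filter.1 hwu').2
        rw [he.1, h3] at h4
        exact F.loopless.irrefl u h4
      simp only
      rw [h1, h2, hfg _ hu]
    · exact hfg b hb

end

end Pool.Agent.H877_TF
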