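import Pool.Agent.H877_TF.Count

/-!
# Counting letter assignments, continued
-/

namespace Pool.Agent.H877_TF

open Finset

section

variable {V : Type*} [Fintype V] [LinearOrder V]

/-- Index assignments with one coincidence. -/
theorem idx1 {N : ℕ} {u v : V} (huv : u ≠ v) :
    (univ.filter (fun i : V → Fin N => i u = i v)).card * N ≤ N ^ (Fintype.card V) := by
  have key := card_mul_pow_le (univ.filter (fun i : V → Fin N => i u = i v)) {v} ?_
  · simpa using key
  · intro f hf g hg hfg
    have hf' : f u = f v := (mem_filter.1 hf).2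
    have hg' : g u = g v := (mem_filter.1 hg).2
    funext b
    by_cases hb : b = v
    · subst hb
      rw [← hf', ← hg']
      exact hfg _ (by simpa using huv)
    · exact hfg b (by simpa using hb)

/-- Index assignments with two coincidences. -/
theorem idx2 {N : ℕ} {u v a b : V} (huv : u ≠ v) (hab : a ≠ b)
    (h1 : ¬ (a = u ∧ b = v)) (h2 : ¬ (a = v ∧ b = u)) :
    (univ.filter (fun i : V → Fin N => i u = i v ∧ i a = i b)).card * N ^ 2
      ≤ N ^ (Fintype.card V) := by
  by_cases ha : a = u ∨ a = v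
  · -- then `b ∉ {u, v}`
    have hbu : b ≠ u := by
      rintro rfl
      rcases ha with ha | ha
      · exact hab ha
      · exact h2 ⟨ha, rfl⟩
    have hbv : b ≠ v := by
      rintro rfl
      rcases ha with ha | ha
      · exact h1 ⟨ha, rfl⟩
      · exact hab ha
    have key := card_mul_pow_le
      (univ.filter (fun i : V → Fin N => i u = i v ∧ i a = i b)) {b, v} ?_
    · rw [card_pair hbv] at key
      simpa using key
    · intro f hf g hg hfg
      obtain ⟨hf1, hf2⟩ := (mem_filter.1 hf).2
      obtain ⟨hg1, hg2⟩ := (mem_filter.1 hg).2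
      have e1 : f u = g u := hfg u (by simp [hbu.symm, huv])
      have e2 : f v = g v := by rw [← hf1, ← hg1, e1]
      have e3 : f b = g b := by
        rw [← hf2, ← hg2]
        rcases ha with rfl | rfl
        · exact e1
        · exact e2
      funext c
      by_cases hc : c = b ∨ c = v
      · rcases hc with rfl | rfl
        · exact e3
        · exact e2
      · exact hfg c (by simpa using hc)
  · push Not at ha
    have key := card_mul_pow_le
      (univ.filter (fun i : V → Fin N => i u = i v ∧ i a = i b)) {a, v} ?_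
    · rw [card_pair ha.2] at key
      simpa using key
    · intro f hf g hg hfg
      obtain ⟨hf1, hf2⟩ := (mem_filter.1 hf).2
      obtain ⟨hg1, hg2⟩ := (mem_filter.1 hg).2
      have e1 : f u = g u := hfg u (by simp [ha.1.symm, huv])
      have e2 : f v = g v := by rw [← hf1, ← hg1, e1]
      have e3 : f b = g b := by
        by_cases hb : b = v
        · rw [hb]; exact e2
        · exact hfg b (by simp [hab.symm, hb])
      have e4 : f a = g a := by rw [hf2, hg2, e3]
      funext c
      by_cases hc : c = a ∨ c = v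
      · rcases hc with rfl | rfl
        · exact e4
        · exact e2
      · exact hfg c (by simpa using hc)

/-- Case (B): exactly one special edge, in no triangle, and the indices are otherwise distinct. -/
theorem cntx_single_of_good (F : SimpleGraph V) {N : ℕ} (e0 : Ed F) (i : V → Fin N)
    (hi0 : i e0.1.1 = i e0.1.2)
    (hi : ∀ a b, i a = i b → a ≠ b → (a = e0.1.1 ∧ b = e0.1.2) ∨ (a = e0.1.2 ∧ b = e0.1.1))
    (htri : ∀ w, ¬ (F.Adj w e0.1.1 ∧ F.Adj w e0.1.2)) :
    cntx F ({e0} : Finset (Ed F)) i * 2 ^ (2 * Nat.card (Ed F)) ≤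
      2 * 2 ^ (Fintype.card V * N) := by
  classical
  obtain ⟨⟨u0, v0⟩, hlt0, hadj0⟩ := e0
  simp only at hi0 hi htri hlt0 hadj0
  set e0 : Ed F := ⟨(u0, v0), hlt0, hadj0⟩ with he0
  have hne0 : u0 ≠ v0 := ne_of_lt hlt0
  set T : Finset (V × Fin N → Bool) := univ.filter (fun ξ => QQ F ({e0} : Finset (Ed F)) i ξ)
    with hT
  have hcard : cntx F ({e0} : Finset (Ed F)) i = T.card := by
    unfold cntx
    rw [Nat.card_eq_fintype_card, Fintype.card_subtype]
  set P : Finset (V × V) := univ.filter (fun p : V × V => F.Adj p.1 p.2) with hP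
  set P' : Finset (V × V) := (P.erase (u0, v0)).erase (v0, u0) with hP'
  have hPcard : P'.card + 2 = 2 * Nat.card (Ed F) := by
    rw [← card_darts F, ← hP]
    have h1 : (u0, v0) ∈ P := mem_filter.2 ⟨mem_univ _, hadj0⟩
    have h2 : (v0, u0) ∈ P.erase (u0, v0) :=
      mem_erase.2 ⟨by simp [hne0.symm], mem_filter.2 ⟨mem_univ _, hadj0.symm⟩⟩
    have h3 := card_erase_add_one h1
    have h4 := card_erase_add_one h2
    rw [hP']
    omega
  have hP'mem : ∀ w u, (w, u) ∈ P' → F.Adj w u ∧ ¬ (w = u0 ∧ u = v0) ∧ ¬ (w = v0 ∧ u = u0) := by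
    intro w u h
    rw [hP', mem_erase, mem_erase, hP, mem_filter] at h
    refine ⟨h.2.2.2, ?_, ?_⟩
    · rintro ⟨rfl, rfl⟩; exact h.2.1 rfl
    · rintro ⟨rfl, rfl⟩; exact h.1 rfl
  have hinj : Set.InjOn (fun p : V × V => (p.1, i p.2)) (P' : Set (V × V)) := by
    rintro ⟨a, b⟩ hab ⟨c, d⟩ hcd h
    simp only [Prod.mk.injEq] at h
    obtain ⟨rfl, h2⟩ := h
    by_cases hbd : b = d
    · rw [hbd]
    · exfalso
      have ha1 := (hP'mem _ _ hab).1
      have ha2 := (hP'mem _ _ hcd).1
      rcases hi b d h2 hbd with ⟨rfl, rfl⟩ | ⟨rfl, rfl⟩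
      · exact htri a ⟨ha1, ha2⟩
      · exact htri a ⟨ha2, ha1⟩
  set D : Finset (V × Fin N) := insert (v0, i v0) (P'.image (fun p => (p.1, i p.2))) with hD
  have hnot : (v0, i v0) ∉ P'.image (fun p => (p.1, i p.2)) := by
    rw [mem_image]
    rintro ⟨⟨w, u⟩, hwu, he⟩
    simp only [Prod.mk.injEq] at he
    obtain ⟨rfl, h2⟩ := he
    obtain ⟨h3, h4, h5⟩ := hP'mem _ _ hwu
    by_cases huv : u = w
    · subst huv; exact F.loopless.irrefl _ h3
    · rcases hi u w h2 huv with ⟨rfl, -⟩ | ⟨h6, h7⟩
      · exact h5 ⟨rfl, rfl⟩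
      · exact hne0 h7.symm
  have hDcard : D.card + 1 = 2 * Nat.card (Ed F) := by
    rw [hD, card_insert_of_notMem hnot, card_image_of_injOn hinj]
    omega
  have key := card_mul_pow_le T D ?_
  · rw [← hDcard, pow_succ, ← mul_assoc, mul_comm _ 2]
    refine Nat.mul_le_mul_left 2 ?_
    simpa [hcard] using key
  · intro f hf g hg hfg
    have hf' : QQ F ({e0} : Finset (Ed F)) i f := (mem_filter.1 hf).2
    have hg' : QQ F ({e0} : Finset (Ed F)) i g := (mem_filter.1 hg).2
    -- own bits of all vertices except `v0` are outside `D`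
    have hown : ∀ u, u ≠ v0 → (u, i u) ∉ D := by
      intro u huv h
      rw [hD, mem_insert, mem_image] at h
      rcases h with h | ⟨⟨w', u'⟩, hwu', he⟩
      · simp only [Prod.mk.injEq] at h
        exact huv h.1
      · simp only [Prod.mk.injEq] at he
        obtain ⟨rfl, h2⟩ := he
        obtain ⟨h3, h4, h5⟩ := hP'mem _ _ hwu'
        by_cases huu : u' = w'
        · subst huu; exact F.loopless.irrefl _ h3
        · rcases hi u' w' h2 huu with ⟨-, h7⟩ | ⟨h6, h7⟩
          · exact huv h7
          · exact h4 ⟨h7, h6⟩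
    have hu0 : f (u0, i u0) = g (u0, i u0) := hfg _ (hown u0 hne0)
    have hv0 : f (v0, i v0) = g (v0, i v0) := by
      have h1 := ((hf' e0).1 (mem_singleton_self _)).2
      have h2 := ((hg' e0).1 (mem_singleton_self _)).2
      simp only [he0] at h1 h2
      rw [← hi0]
      revert h1 h2 hu0
      cases f (u0, i u0) <;> cases g (u0, i u0) <;> cases f (v0, i u0) <;>
        cases g (v0, i u0) <;> simp
    have hall : ∀ u, f (u, i u) = g (u, i u) := by
      intro u
      by_cases huv : u = v0
      · subst huv; exact hv0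
      · exact hfg _ (hown u huv)
    funext b
    by_cases hb : b ∈ D
    · rw [hD, mem_insert, mem_image] at hb
      rcases hb with rfl | ⟨⟨w, u⟩, hwu, rfl⟩
      · exact hv0
      · obtain ⟨h3, h4, h5⟩ := hP'mem _ _ hwu
        have hS : ∀ e ∈ ({e0} : Finset (Ed F)), ¬ (e.1.1 = w ∧ e.1.2 = u) ∧
            ¬ (e.1.1 = u ∧ e.1.2 = w) := by
          intro e he
          rw [mem_singleton] at he
          subst he
          refine ⟨?_, ?_⟩
          · rintro ⟨h6, h7⟩; exact h4 ⟨h6.symm, h7.symm⟩
          · rintro ⟨h6, h7⟩; exact h5 ⟨h7.symm, h6.symm⟩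
        have h1 := QQ_adj F hf' h3 hS
        have h2 := QQ_adj F hg' h3 hS
        simp only
        rw [h1, h2, hall u]
    · exact hfg b hb

end

end Pool.Agent.H877_TF
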