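import Pool.Agent.H877_TF.Count2

/-!
# Bounds for the numbers of letter assignments
-/

namespace Pool.Agent.H877_TF

open Finset

section

variable {V : Type*} [Fintype V] [LinearOrder V]

/-- The total number of letter assignments. -/
noncomputable def tot (V : Type*) [Fintype V] (N : ℕ) : ℝ :=
  (N : ℝ) ^ (Fintype.card V) * 2 ^ (Fintype.card V * N)

theorem cnt_le_of (F : SimpleGraph V) (N : ℕ) (S : Finset (Ed F)) (G B : Finset (V → Fin N))
    (hz : ∀ i, i ∉ G → i ∉ B → cntx F S i = 0) (g : ℝ) (hg : ∀ i ∈ G, (cntx F S i : ℝ) ≤ g) :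
    (cnt F N S : ℝ) ≤ G.card * g + B.card * 2 ^ (Fintype.card V * N) := by
  classical
  rw [cnt_eq_sum]
  push_cast
  have h1 : (∑ i : V → Fin N, (cntx F S i : ℝ)) ≤ ∑ i ∈ G, (cntx F S i : ℝ) +
      ∑ i ∈ B, (cntx F S i : ℝ) := by
    have h2 : ∑ i : V → Fin N, (cntx F S i : ℝ) = ∑ i ∈ G ∪ B, (cntx F S i : ℝ) := by
      symm
      refine sum_subset (subset_univ _) ?_
      intro i _ hi
      rw [mem_union, not_or] at hi
      rw [hz i hi.1 hi.2]; simp
    rw [h2, ← sum_union_inter]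
    have : 0 ≤ ∑ i ∈ G ∩ B, (cntx F S i : ℝ) := sum_nonneg (fun _ _ => Nat.cast_nonneg _)
    linarith
  refine h1.trans (add_le_add ?_ ?_)
  · rw [← nsmul_eq_mul]
    exact sum_le_card_nsmul _ _ _ hg
  · rw [← nsmul_eq_mul]
    refine sum_le_card_nsmul _ _ _ (fun i _ => ?_)
    exact_mod_cast cntx_le_all F S i

omit [LinearOrder V] in
theorem tot_nonneg (N : ℕ) : 0 ≤ tot V N := by unfold tot; positivity

/-- The number of index assignments which are not injective. -/
theorem card_noninj (N : ℕ) (hN : 0 < N) :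
    ((univ.filter (fun i : V → Fin N => ¬ Function.Injective i)).card : ℝ) ≤
      (Fintype.card V : ℝ) ^ 2 * ((N : ℝ) ^ (Fintype.card V) / N) := by
  classical
  have hN' : (0 : ℝ) < N := by exact_mod_cast hN
  have h1 : (univ.filter (fun i : V → Fin N => ¬ Function.Injective i)) ⊆
      (univ.filter (fun p : V × V => p.1 ≠ p.2)).biUnion
        (fun p => univ.filter (fun i : V → Fin N => i p.1 = i p.2)) := by
    intro i hi
    have hi' := (mem_filter.1 hi).2
    unfold Function.Injective at hi'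
    push Not at hi'
    obtain ⟨a, b, h, hab⟩ := hi'
    rw [mem_biUnion]
    exact ⟨(a, b), mem_filter.2 ⟨mem_univ _, hab⟩, mem_filter.2 ⟨mem_univ _, h⟩⟩
  have h2 := (card_le_card h1).trans card_biUnion_le
  have h3 : ((∑ p ∈ univ.filter (fun p : V × V => p.1 ≠ p.2),
      (univ.filter (fun i : V → Fin N => i p.1 = i p.2)).card : ℕ) : ℝ) ≤
      (Fintype.card V : ℝ) ^ 2 * ((N : ℝ) ^ (Fintype.card V) / N) := by
    push_cast
    have h4 : ∀ p ∈ univ.filter (fun p : V × V => p.1 ≠ p.2),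
        ((univ.filter (fun i : V → Fin N => i p.1 = i p.2)).card : ℝ) ≤
          (N : ℝ) ^ (Fintype.card V) / N := by
      intro p hp
      rw [le_div_iff₀ hN']
      exact_mod_cast idx1 (mem_filter.1 hp).2
    refine (sum_le_card_nsmul _ _ _ h4).trans ?_
    rw [nsmul_eq_mul]
    refine mul_le_mul_of_nonneg_right ?_ (by positivity)
    have h5 : (univ.filter (fun p : V × V => p.1 ≠ p.2)).card ≤ (Fintype.card V) ^ 2 := by
      refine (card_le_univ _).trans ?_
      rw [Fintype.card_prod, sq]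
    exact_mod_cast h5
  exact le_trans (by exact_mod_cast h2) h3

/-- Bound (A). -/
theorem cnt_empty_le (F : SimpleGraph V) (N : ℕ) (hN : 0 < N) :
    (cnt F N (∅ : Finset (Ed F)) : ℝ) ≤
      tot V N * (1 / 4 ^ (Nat.card (Ed F)) + (Fintype.card V : ℝ) ^ 2 / N) := by
  classical
  have hN' : (0 : ℝ) < N := by exact_mod_cast hN
  have h := cnt_le_of F N (∅ : Finset (Ed F))
    (univ.filter (fun i : V → Fin N => Function.Injective i))
    (univ.filter (fun i : V → Fin N => ¬ Function.Injective i)) ?_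
    (2 ^ (Fintype.card V * N) / 4 ^ (Nat.card (Ed F))) ?_
  · refine h.trans ?_
    have h1 : ((univ.filter (fun i : V → Fin N => Function.Injective i)).card : ℝ) ≤
        (N : ℝ) ^ (Fintype.card V) := by
      have : (univ.filter (fun i : V → Fin N => Function.Injective i)).card ≤
          N ^ (Fintype.card V) := by
        refine (card_le_univ _).trans ?_
        simp
      exact_mod_cast this
    have h2 := card_noninj (V := V) N hN
    have h3 : (0 : ℝ) ≤ 2 ^ (Fintype.card V * N) := by positivity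
    calc _ ≤ (N : ℝ) ^ (Fintype.card V) * (2 ^ (Fintype.card V * N) / 4 ^ (Nat.card (Ed F))) +
          (Fintype.card V : ℝ) ^ 2 * ((N : ℝ) ^ (Fintype.card V) / N) *
            2 ^ (Fintype.card V * N) := by
          refine add_le_add (mul_le_mul_of_nonneg_right h1 (by positivity))
            (mul_le_mul_of_nonneg_right h2 h3)
      _ = _ := by unfold tot; ring
  · intro i h1 h2
    simp only [mem_filter, mem_univ, true_and, not_not] at h1 h2
    exact absurd h2 h1
  · intro i hi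
    rw [le_div_iff₀ (by positivity)]
    have := cntx_empty_of_inj F i (mem_filter.1 hi).2
    have h4 : (4 : ℝ) ^ (Nat.card (Ed F)) = 2 ^ (2 * Nat.card (Ed F)) := by
      rw [pow_mul]; norm_num
    rw [h4]
    exact_mod_cast this

/-- Bound (B'). -/
theorem cnt_le_of_mem (F : SimpleGraph V) (N : ℕ) (hN : 0 < N) (S : Finset (Ed F))
    (e0 : Ed F) (he0 : e0 ∈ S) :
    (cnt F N S : ℝ) ≤ tot V N * (1 / N) := by
  classical
  have hN' : (0 : ℝ) < N := by exact_mod_cast hN
  have h := cnt_le_of F N S ∅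
    (univ.filter (fun i : V → Fin N => i e0.1.1 = i e0.1.2)) ?_ 0 (by simp)
  · refine h.trans ?_
    have h1 : ((univ.filter (fun i : V → Fin N => i e0.1.1 = i e0.1.2)).card : ℝ) ≤
        (N : ℝ) ^ (Fintype.card V) / N := by
      rw [le_div_iff₀ hN']
      exact_mod_cast idx1 (ne_of_lt e0.2.1)
    have h3 : (0 : ℝ) ≤ 2 ^ (Fintype.card V * N) := by positivity
    calc _ ≤ (N : ℝ) ^ (Fintype.card V) / N * 2 ^ (Fintype.card V * N) := by
          have := mul_le_mul_of_nonneg_right h1 h3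
          simpa using this
      _ = _ := by unfold tot; ring
  · intro i _ h2
    refine cntx_eq_zero F S i ⟨e0, he0, ?_⟩
    intro h3
    exact h2 (mem_filter.2 ⟨mem_univ _, h3⟩)

/-- Bound (C). -/
theorem cnt_le_of_two (F : SimpleGraph V) (N : ℕ) (hN : 0 < N) (S : Finset (Ed F))
    (e1 e2 : Ed F) (he1 : e1 ∈ S) (he2 : e2 ∈ S) (hne : e1 ≠ e2) :
    (cnt F N S : ℝ) ≤ tot V N * (1 / N ^ 2) := by
  classical
  have hN' : (0 : ℝ) < N := by exact_mod_cast hN
  have h := cnt_le_of F N S ∅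
    (univ.filter (fun i : V → Fin N => i e1.1.1 = i e1.1.2 ∧ i e2.1.1 = i e2.1.2)) ?_ 0 (by simp)
  · refine h.trans ?_
    have h1 : ((univ.filter (fun i : V → Fin N =>
        i e1.1.1 = i e1.1.2 ∧ i e2.1.1 = i e2.1.2)).card : ℝ) ≤
        (N : ℝ) ^ (Fintype.card V) / N ^ 2 := by
      rw [le_div_iff₀ (by positivity)]
      have := idx2 (N := N) (ne_of_lt e1.2.1) (ne_of_lt e2.2.1) ?_ ?_
      · exact_mod_cast this
      · rintro ⟨h1, h2⟩
        exact hne (Subtype.ext (Prod.ext h1.symm h2.symm))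
      · rintro ⟨h1, h2⟩
        have h3 := e1.2.1
        have h4 := e2.2.1
        rw [h1, h2] at h4
        exact absurd h3 (not_lt_of_gt h4)
    have h3 : (0 : ℝ) ≤ 2 ^ (Fintype.card V * N) := by positivity
    calc _ ≤ (N : ℝ) ^ (Fintype.card V) / N ^ 2 * 2 ^ (Fintype.card V * N) := by
          have := mul_le_mul_of_nonneg_right h1 h3
          simpa using this
      _ = _ := by unfold tot; ring
  · intro i _ h2
    by_contra h4
    apply h4
    by_cases h5 : i e1.1.1 = i e1.1.2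
    · refine cntx_eq_zero F S i ⟨e2, he2, ?_⟩
      intro h3
      exact h2 (mem_filter.2 ⟨mem_univ _, h5, h3⟩)
    · exact cntx_eq_zero F S i ⟨e1, he1, h5⟩

/-- Bound (B). -/
theorem cnt_single_le (F : SimpleGraph V) (N : ℕ) (hN : 0 < N) (e0 : Ed F)
    (htri : ∀ w, ¬ (F.Adj w e0.1.1 ∧ F.Adj w e0.1.2)) :
    (cnt F N ({e0} : Finset (Ed F)) : ℝ) ≤
      tot V N * ((1 / N) * (2 / 4 ^ (Nat.card (Ed F)) + (Fintype.card V : ℝ) ^ 2 / N)) := by
  classical
  have hN' : (0 : ℝ) < N := by exact_mod_cast hN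
  set Good : (V → Fin N) → Prop := fun i => ∀ a b, i a = i b → a ≠ b →
    (a = e0.1.1 ∧ b = e0.1.2) ∨ (a = e0.1.2 ∧ b = e0.1.1) with hGood
  have h := cnt_le_of F N ({e0} : Finset (Ed F))
    (univ.filter (fun i : V → Fin N => i e0.1.1 = i e0.1.2 ∧ Good i))
    (univ.filter (fun i : V → Fin N => i e0.1.1 = i e0.1.2 ∧ ¬ Good i)) ?_
    (2 * 2 ^ (Fintype.card V * N) / 4 ^ (Nat.card (Ed F))) ?_
  · refine h.trans ?_
    have h1 : ((univ.filter (fun i : V → Fin N => i e0.1.1 = i e0.1.2 ∧ Good i)).card : ℝ) ≤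
        (N : ℝ) ^ (Fintype.card V) / N := by
      rw [le_div_iff₀ hN']
      have h2 := idx1 (N := N) (ne_of_lt e0.2.1)
      have h3 : (univ.filter (fun i : V → Fin N => i e0.1.1 = i e0.1.2 ∧ Good i)).card ≤
          (univ.filter (fun i : V → Fin N => i e0.1.1 = i e0.1.2)).card := by
        refine card_le_card ?_
        intro i hi
        exact mem_filter.2 ⟨mem_univ _, (mem_filter.1 hi).2.1⟩
      have h4 := (Nat.mul_le_mul_right N h3).trans h2
      exact_mod_cast h4
    have h2 : ((univ.filter (fun i : V → Fin N => i e0.1.1 = i e0.1.2 ∧ ¬ Good i)).card : ℝ) ≤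
        (Fintype.card V : ℝ) ^ 2 * ((N : ℝ) ^ (Fintype.card V) / N ^ 2) := by
      have h5 : (univ.filter (fun i : V → Fin N => i e0.1.1 = i e0.1.2 ∧ ¬ Good i)) ⊆
          (univ.filter (fun p : V × V => p.1 ≠ p.2 ∧
            ¬ (p.1 = e0.1.1 ∧ p.2 = e0.1.2) ∧ ¬ (p.1 = e0.1.2 ∧ p.2 = e0.1.1))).biUnion
            (fun p => univ.filter (fun i : V → Fin N =>
              i e0.1.1 = i e0.1.2 ∧ i p.1 = i p.2)) := by
        intro i hi
        obtain ⟨hi1, hi2⟩ := (mem_filter.1 hi).2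
        rw [hGood] at hi2
        push Not at hi2
        obtain ⟨a, b, h, hab, h6, h7⟩ := hi2
        rw [mem_biUnion]
        refine ⟨(a, b), mem_filter.2 ⟨mem_univ _, hab, ?_, ?_⟩, mem_filter.2 ⟨mem_univ _, hi1, h⟩⟩
        · rintro ⟨h8, h9⟩; exact h6 h8 h9
        · rintro ⟨h8, h9⟩; exact h7 h8 h9
      have h6 := (card_le_card h5).trans card_biUnion_le
      refine le_trans (Nat.cast_le.2 h6) ?_
      push_cast
      have h7 : ∀ p ∈ univ.filter (fun p : V × V => p.1 ≠ p.2 ∧
            ¬ (p.1 = e0.1.1 ∧ p.2 = e0.1.2) ∧ ¬ (p.1 = e0.1.2 ∧ p.2 = e0.1.1)),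
          ((univ.filter (fun i : V → Fin N =>
              i e0.1.1 = i e0.1.2 ∧ i p.1 = i p.2)).card : ℝ) ≤
            (N : ℝ) ^ (Fintype.card V) / N ^ 2 := by
        intro p hp
        obtain ⟨hp1, hp2, hp3⟩ := (mem_filter.1 hp).2
        rw [le_div_iff₀ (by positivity)]
        exact_mod_cast idx2 (N := N) (ne_of_lt e0.2.1) hp1 hp2 hp3
      refine (sum_le_card_nsmul _ _ _ h7).trans ?_
      rw [nsmul_eq_mul]
      refine mul_le_mul_of_nonneg_right ?_ (by positivity)
      have h8 : (univ.filter (fun p : V × V => p.1 ≠ p.2 ∧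
            ¬ (p.1 = e0.1.1 ∧ p.2 = e0.1.2) ∧ ¬ (p.1 = e0.1.2 ∧ p.2 = e0.1.1))).card ≤
          (Fintype.card V) ^ 2 := by
        refine (card_le_univ _).trans ?_
        rw [Fintype.card_prod, sq]
      exact_mod_cast h8
    have h3 : (0 : ℝ) ≤ 2 ^ (Fintype.card V * N) := by positivity
    calc _ ≤ (N : ℝ) ^ (Fintype.card V) / N *
          (2 * 2 ^ (Fintype.card V * N) / 4 ^ (Nat.card (Ed F))) +
          (Fintype.card V : ℝ) ^ 2 * ((N : ℝ) ^ (Fintype.card V) / N ^ 2) *
            2 ^ (Fintype.card V * N) := by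
          refine add_le_add (mul_le_mul_of_nonneg_right h1 (by positivity))
            (mul_le_mul_of_nonneg_right h2 h3)
      _ = _ := by unfold tot; ring
  · intro i h1 h2
    refine cntx_eq_zero F _ i ⟨e0, mem_singleton_self _, ?_⟩
    intro h3
    by_cases hg : Good i
    · exact h1 (mem_filter.2 ⟨mem_univ _, h3, hg⟩)
    · exact h2 (mem_filter.2 ⟨mem_univ _, h3, hg⟩)
  · intro i hi
    obtain ⟨hi1, hi2⟩ := (mem_filter.1 hi).2
    rw [le_div_iff₀ (by positivity)]
    have := cntx_single_of_good F e0 i hi1 hi2 htri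
    have h4 : (4 : ℝ) ^ (Nat.card (Ed F)) = 2 ^ (2 * Nat.card (Ed F)) := by
      rw [pow_mul]; norm_num
    rw [h4]
    exact_mod_cast this

end

end Pool.Agent.H877_TF
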