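import Pool.Agent.H877_TF.CGW

/-!
# Existence of admissible densities tending to zero, and the liminf version
-/

namespace Pool.Agent.H877_TF

open Finset Filter Topology

/-- A sample edge count. -/
def e0 (n : ℕ) : ℕ := n.choose 2 / (Nat.log 2 n + 1) + 1

/-- A sample density. -/
noncomputable def p0 (n : ℕ) : ℝ := if n < 2 then 1 else (e0 n : ℝ) / (n.choose 2)

theorem e0_le {n : ℕ} (hn : 2 ≤ n) : e0 n ≤ n.choose 2 := by
  unfold e0
  have h1 : 1 ≤ Nat.log 2 n := Nat.log_pos (by norm_num) hn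
  have h2 : 1 ≤ n.choose 2 := Nat.choose_pos hn
  have h3 : n.choose 2 / (Nat.log 2 n + 1) ≤ n.choose 2 / 2 :=
    Nat.div_le_div_left (by omega) (by norm_num)
  omega

theorem p0_lower {n : ℕ} (hn : 2 ≤ n) : 1 / ((Nat.log 2 n : ℝ) + 1) ≤ p0 n := by
  have hch : (0 : ℝ) < n.choose 2 := by exact_mod_cast Nat.choose_pos hn
  unfold p0
  rw [if_neg (by omega), div_le_div_iff₀ (by positivity) hch, one_mul]
  have h1 : n.choose 2 < e0 n * (Nat.log 2 n + 1) :=
    Nat.lt_mul_of_div_lt (Nat.lt_succ_self _) (Nat.succ_pos _)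
  exact_mod_cast h1.le

theorem p0_upper {n : ℕ} (hn : 2 ≤ n) :
    p0 n ≤ 1 / ((Nat.log 2 n : ℝ) + 1) + 1 / (n.choose 2 : ℝ) := by
  have hch : (0 : ℝ) < n.choose 2 := by exact_mod_cast Nat.choose_pos hn
  unfold p0 e0
  rw [if_neg (by omega)]
  push_cast
  rw [add_div]
  refine add_le_add ?_ le_rfl
  have h1 : ((n.choose 2 / (Nat.log 2 n + 1) : ℕ) : ℝ) ≤
      (n.choose 2 : ℝ) / ((Nat.log 2 n + 1 : ℕ) : ℝ) := Nat.cast_div_le
  push_cast at h1
  calc ((n.choose 2 / (Nat.log 2 n + 1) : ℕ) : ℝ) / (n.choose 2 : ℝ)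
      ≤ ((n.choose 2 : ℝ) / ((Nat.log 2 n : ℝ) + 1)) / (n.choose 2 : ℝ) :=
        div_le_div_of_nonneg_right h1 hch.le
    _ = _ := by field_simp

theorem log2_tendsto : Tendsto (fun n : ℕ => (Nat.log 2 n : ℝ)) atTop atTop := by
  refine tendsto_natCast_atTop_atTop.comp ?_
  rw [tendsto_atTop]
  intro K
  filter_upwards [eventually_ge_atTop (2 ^ K)] with n hn
  have := Nat.log_mono_right (b := 2) hn
  rwa [Nat.log_pow (by norm_num)] at this

theorem p0_pos (n : ℕ) : 0 < p0 n := by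
  by_cases hn : 2 ≤ n
  · exact lt_of_lt_of_le (by positivity) (p0_lower hn)
  · unfold p0; rw [if_pos (by omega)]; norm_num

theorem p0_le_one (n : ℕ) : p0 n ≤ 1 := by
  by_cases hn : 2 ≤ n
  · have hch : (0 : ℝ) < n.choose 2 := by exact_mod_cast Nat.choose_pos hn
    unfold p0; rw [if_neg (by omega), div_le_one hch]
    exact_mod_cast e0_le hn
  · unfold p0; rw [if_pos (by omega)]

theorem p0_tendsto : Tendsto p0 atTop (𝓝 0) := by
  have h1 : Tendsto (fun n : ℕ => 1 / ((Nat.log 2 n : ℝ) + 1)) atTop (𝓝 0) :=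
    (log2_tendsto.atTop_add tendsto_const_nhds).const_div_atTop 1
  have h2 : Tendsto (fun n : ℕ => 1 / (n.choose 2 : ℝ)) atTop (𝓝 0) := by
    have h3 : Tendsto (fun n : ℕ => (n.choose 2 : ℝ)) atTop atTop := by
      refine tendsto_natCast_atTop_atTop.comp ?_
      refine tendsto_atTop_mono' _ ?_ (tendsto_sub_atTop_nat 1)
      filter_upwards [eventually_ge_atTop 2] with n hn
      rw [Nat.choose_two_right, Nat.le_div_iff_mul_le (by norm_num)]
      nlinarith [Nat.sub_le n 1]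
    exact h3.const_div_atTop 1
  have h4 := h1.add h2
  rw [add_zero] at h4
  refine squeeze_zero' (Eventually.of_forall (fun n => (p0_pos n).le)) ?_ h4
  filter_upwards [eventually_ge_atTop 2] with n hn
  exact p0_upper hn

theorem log_p0_tendsto :
    Tendsto (fun n : ℕ => Real.log (1 / p0 n) / Real.log n) atTop (𝓝 0) := by
  -- `log (1/p0) ≤ log (log2 n + 1) ≤ 2 sqrt (log2 n + 1)`
  have h1 : Tendsto (fun n : ℕ => 4 / Real.sqrt (Real.log n)) atTop (𝓝 0) := by
    have h2 : Tendsto (fun n : ℕ => Real.sqrt (Real.log n)) atTop atTop :=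
      Real.tendsto_sqrt_atTop.comp (Real.tendsto_log_atTop.comp tendsto_natCast_atTop_atTop)
    exact h2.const_div_atTop 4
  refine squeeze_zero' ?_ ?_ h1
  · filter_upwards [eventually_ge_atTop 2] with n hn
    refine div_nonneg (Real.log_nonneg ?_) (Real.log_nonneg (by exact_mod_cast (by omega : 1 ≤ n)))
    rw [le_div_iff₀ (p0_pos n), one_mul]; exact p0_le_one n
  · have h5 : ∀ᶠ n : ℕ in atTop, 1 ≤ Real.log n :=
      (Real.tendsto_log_atTop.comp tendsto_natCast_atTop_atTop).eventually_ge_atTop 1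
    filter_upwards [eventually_ge_atTop 2, h5] with n hn hlog1
    have hn0 : (0 : ℝ) < n := by exact_mod_cast (by omega : 0 < n)
    set ℓ := Real.log n with hℓ
    have hlog2 : (Nat.log 2 n : ℝ) ≤ 2 * ℓ := by
      have h6 : (2 : ℝ) ^ (Nat.log 2 n) ≤ n := by
        exact_mod_cast Nat.pow_log_le_self 2 (by omega)
      have h7 := Real.log_le_log (by positivity) h6
      rw [Real.log_pow] at h7
      have h8 : (1 / 2 : ℝ) ≤ Real.log 2 := by
        have := Real.log_two_gt_d9; linarith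
      have h9 : (0 : ℝ) ≤ Nat.log 2 n := Nat.cast_nonneg _
      nlinarith
    have h6 : Real.log (1 / p0 n) ≤ Real.log (4 * ℓ) := by
      refine Real.log_le_log (by have := p0_pos n; positivity) ?_
      rw [div_le_iff₀ (p0_pos n)]
      have h7 := p0_lower hn
      rw [div_le_iff₀ (by positivity)] at h7
      have h8 : p0 n * ((Nat.log 2 n : ℝ) + 1) ≤ p0 n * (4 * ℓ) :=
        mul_le_mul_of_nonneg_left (by linarith) (p0_pos n).le
      linarith
    have h7 : Real.log (4 * ℓ) ≤ 4 * Real.sqrt ℓ := by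
      have h8 : Real.log (4 * ℓ) = 2 * Real.log (2 * Real.sqrt ℓ) := by
        have h9 : 4 * ℓ = (2 * Real.sqrt ℓ) ^ 2 := by
          rw [mul_pow, Real.sq_sqrt (by linarith)]; norm_num
        rw [h9, Real.log_pow]; norm_num
      have hs : 0 < Real.sqrt ℓ := Real.sqrt_pos.2 (by linarith)
      have h10 := Real.log_le_sub_one_of_pos (show 0 < 2 * Real.sqrt ℓ by positivity)
      rw [h8]; linarith
    have hs : 0 < Real.sqrt ℓ := Real.sqrt_pos.2 (by linarith)
    rw [div_le_div_iff₀ (by linarith) hs]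
    have h11 : Real.sqrt ℓ * Real.sqrt ℓ = ℓ := Real.mul_self_sqrt (by linarith)
    nlinarith

theorem adm_p0 : Adm p0 := by
  refine ⟨fun n => ⟨p0_pos n, p0_le_one n⟩, log_p0_tendsto, fun n => ?_⟩
  by_cases hn : 2 ≤ n
  · refine ⟨e0 n, ?_⟩
    have hch : (0 : ℝ) < n.choose 2 := by exact_mod_cast Nat.choose_pos hn
    unfold p0; rw [if_neg (by omega)]
    field_simp
  · refine ⟨0, ?_⟩
    have : n.choose 2 = 0 := Nat.choose_eq_zero_of_lt (by omega)
    rw [this]; simp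

theorem exists_adm : ∃ p : ℕ → ℝ, Adm p ∧ Tendsto p atTop (𝓝 0) := ⟨p0, adm_p0, p0_tendsto⟩

theorem tendsto_case (p : ℕ → ℝ) (hp : Adm p) (h0 : Tendsto p atTop (𝓝 0)) :
    ∃ G : ∀ n, SimpleGraph (Fin n), Cond p G ∧ ∀ᶠ n in atTop, (G n).CliqueFree 3 := by
  obtain ⟨G, hG1, hG2⟩ := main p hp Set.univ (h0.mono_left inf_le_left)
  exact ⟨G, hG1, hG2.mono (fun n h => h (Set.mem_univ n))⟩

theorem frequently_small (p : ℕ → ℝ) (hp : ∀ n, 0 < p n) (hinf : ¬ ∃ c > 0, ∀ n, c ≤ p n)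
    (ε : ℝ) (hε : 0 < ε) : ∃ᶠ n in atTop, p n < ε := by
  intro hev
  obtain ⟨N, hN⟩ := eventually_atTop.1 hev
  apply hinf
  -- the minimum over `n < N` and `ε`
  have hmin : ∃ c > 0, ∀ n < N, c ≤ p n := by
    clear hN
    induction N with
    | zero => exact ⟨1, one_pos, fun n hn => absurd hn (Nat.not_lt_zero n)⟩
    | succ N ih =>
      obtain ⟨c, hc, h⟩ := ih
      refine ⟨min c (p N), lt_min hc (hp N), fun n hn => ?_⟩
      rcases Nat.lt_succ_iff_lt_or_eq.1 hn with h1 | h1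
      · exact (min_le_left _ _).trans (h n h1)
      · subst h1; exact min_le_right _ _
  obtain ⟨c, hc, h⟩ := hmin
  refine ⟨min c ε, lt_min hc hε, fun n => ?_⟩
  by_cases hn : n < N
  · exact (min_le_left _ _).trans (h n hn)
  · exact (min_le_right _ _).trans (not_lt.1 (hN n (not_lt.1 hn)))

theorem inf_case (p : ℕ → ℝ) (hp : Adm p) (hinf : ¬ ∃ c > 0, ∀ n, c ≤ p n) :
    ∃ G : ∀ n, SimpleGraph (Fin n), Cond p G ∧ ∃ᶠ n in atTop, (G n).CliqueFree 3 := by
  have hpos : ∀ n, 0 < p n := fun n => (hp.1 n).1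
  have hfreq : ∀ j : ℕ, ∃ᶠ n in atTop, p n < 1 / ((j : ℝ) + 1) := fun j =>
    frequently_small p hpos hinf _ (by positivity)
  obtain ⟨φ, hφ, hφp⟩ := extraction_forall_of_frequently hfreq
  have hA : Tendsto p (atTop ⊓ 𝓟 (Set.range φ)) (𝓝 0) := by
    rw [tendsto_order]
    refine ⟨fun a ha => Eventually.of_forall (fun n => ha.trans (hpos n)), fun a ha => ?_⟩
    obtain ⟨J, hJ⟩ := exists_nat_one_div_lt ha
    rw [eventually_inf_principal]
    filter_upwards [eventually_ge_atTop (φ J)] with n hn hmem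
    obtain ⟨j, rfl⟩ := hmem
    have hjJ : J ≤ j := hφ.le_iff_le.1 hn
    have h1 : (1 : ℝ) / ((j : ℝ) + 1) ≤ 1 / ((J : ℝ) + 1) := by
      refine div_le_div_of_nonneg_left (by norm_num) (by positivity) ?_
      have : (J : ℝ) ≤ j := by exact_mod_cast hjJ
      linarith
    exact (hφp j).trans (h1.trans_lt hJ)
  obtain ⟨G, hG1, hG2⟩ := main p hp (Set.range φ) hA
  refine ⟨G, hG1, ?_⟩
  rw [frequently_atTop]
  intro a
  obtain ⟨N, hN⟩ := eventually_atTop.1 hG2
  have h1 : max a N ≤ φ (max a N) := hφ.le_apply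
  exact ⟨φ (max a N), (le_max_left _ _).trans h1,
    hN _ ((le_max_right _ _).trans h1) ⟨_, rfl⟩⟩

theorem not_tendsto_of_frequently (p : ℕ → ℝ) (G : ∀ n, SimpleGraph (Fin n))
    (h : ∃ᶠ n in atTop, (G n).CliqueFree 3) :
    ¬ Tendsto (fun n => sp (p n) (⊤ : SimpleGraph (Fin 3)) (G n)) atTop (𝓝 1) := by
  intro ht
  have h1 : ∀ᶠ n in atTop, 0 < sp (p n) (⊤ : SimpleGraph (Fin 3)) (G n) :=
    ht.eventually_const_lt (by norm_num)
  obtain ⟨n, hn1, hn2⟩ := (h.and_eventually h1).exists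
  rw [sp_top_of_cliqueFree (p n) (G n) hn1] at hn2
  exact lt_irrefl _ hn2

theorem iff_case (p : ℕ → ℝ) (hp : Adm p) :
    (∀ G : ∀ n, SimpleGraph (Fin n), Cond p G →
      Tendsto (fun n => sp (p n) (⊤ : SimpleGraph (Fin 3)) (G n)) atTop (𝓝 1)) ↔
    ∃ c > 0, ∀ n, c ≤ p n := by
  constructor
  · intro h
    by_contra hinf
    obtain ⟨G, hG1, hG2⟩ := inf_case p hp hinf
    exact not_tendsto_of_frequently p G hG2 (h G hG1)
  · rintro ⟨c, hc, hpc⟩ G hG
    exact cgw p hp c hc hpc G hG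

end Pool.Agent.H877_TF
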