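import Pool.Agent.H877_TF.Seq

/-!
# The final theorem
-/

namespace Pool.Agent.H877_TF

open Finset Filter Topology

/-- The condition for using the base graph with parameter `k` on `n` vertices. -/
def PP (p : ℕ → ℝ) (n k : ℕ) : Prop := k * n0 k ≤ n ∧ p n ≤ pi0 k * rr k ^ 3

open scoped Classical in
/-- The largest admissible parameter. -/
noncomputable def kk (p : ℕ → ℝ) (n : ℕ) : ℕ := Nat.findGreatest (PP p n) n

theorem kk_spec (p : ℕ → ℝ) (n : ℕ) (h : 1 ≤ kk p n) : PP p n (kk p n) := by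
  classical
  exact Nat.findGreatest_of_ne_zero rfl (Nat.one_le_iff_ne_zero.1 h)

theorem kk_tendsto (p : ℕ → ℝ) (A : Set ℕ) (hA : Tendsto p (atTop ⊓ 𝓟 A) (𝓝 0)) :
    Tendsto (kk p) (atTop ⊓ 𝓟 A) atTop := by
  classical
  rw [tendsto_atTop]
  intro K
  set K' := max K 1 with hK'
  have hK1 : 1 ≤ K' := le_max_right _ _
  have h1 : ∀ᶠ n in atTop ⊓ 𝓟 A, p n < pi0 K' * rr K' ^ 3 := by
    refine hA.eventually_lt_const ?_
    have := pi0_pos K'
    have := rr_pos hK1
    positivity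
  have h2 : ∀ᶠ n in atTop ⊓ 𝓟 A, max K' (K' * n0 K') ≤ n :=
    (eventually_ge_atTop _).filter_mono inf_le_left
  filter_upwards [h1, h2] with n hn1 hn2
  refine (le_max_left K 1).trans ?_
  unfold kk
  exact Nat.le_findGreatest ((le_max_left _ _).trans hn2)
    ⟨(le_max_right _ _).trans hn2, hn1.le⟩

/-- The density of a graph. -/
noncomputable def dens {n : ℕ} (G : SimpleGraph (Fin n)) : ℝ :=
  (Nat.card G.edgeSet : ℝ) / (n.choose 2)

theorem dens_mul {n : ℕ} (hn : 2 ≤ n) (G : SimpleGraph (Fin n)) :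
    (Nat.card G.edgeSet : ℝ) = dens G * (n.choose 2) := by
  unfold dens
  have hch : (0 : ℝ) < n.choose 2 := by exact_mod_cast Nat.choose_pos hn
  field_simp

theorem dens_BG_ge {k n : ℕ} (hk : 1 ≤ k) (hn : k * n0 k ≤ n) (hn2 : 2 ≤ n) :
    pi0 k * rr k ^ 3 ≤ dens (BG k n) := by
  have h1 := dd_BG_ge hk hn
  rw [dd_eq_two_edges] at h1
  unfold dens
  have hch : (0 : ℝ) < n.choose 2 := by exact_mod_cast Nat.choose_pos hn2
  rw [le_div_iff₀ hch, Nat.cast_choose_two]
  push_cast at h1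
  have hpi := pi0_pos k
  have hr := rr_pos hk
  have hn0 : (0 : ℝ) ≤ n := Nat.cast_nonneg _
  have h2 : 0 ≤ pi0 k * rr k ^ 3 := by positivity
  nlinarith

theorem dens_top {n : ℕ} (hn : 2 ≤ n) : dens (⊤ : SimpleGraph (Fin n)) = 1 := by
  classical
  unfold dens
  have hT : Nat.card (⊤ : SimpleGraph (Fin n)).edgeSet = n.choose 2 := by
    rw [Nat.card_eq_fintype_card, ← SimpleGraph.edgeFinset_card,
      SimpleGraph.card_edgeFinset_top_eq_card_choose_two, Fintype.card_fin]
  rw [hT]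
  have hch : (0 : ℝ) < n.choose 2 := by exact_mod_cast Nat.choose_pos hn
  field_simp

/-- Main theorem: along any set `A` of sizes on which `p → 0`, the graphs can be taken
triangle-free. -/
theorem main (p : ℕ → ℝ) (hp : Adm p) (A : Set ℕ) (hA : Tendsto p (atTop ⊓ 𝓟 A) (𝓝 0)) :
    ∃ G : ∀ n, SimpleGraph (Fin n), Cond p G ∧
      ∀ᶠ n in atTop, n ∈ A → (G n).CliqueFree 3 := by
  classical
  have hkk := kk_tendsto p A hA
  set G' : ∀ n, SimpleGraph (Fin n) := fun n => if n ∈ A then BG (kk p n) n else ⊤ with hG'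
  set C4 := SimpleGraph.cycleGraph 4 with hC4
  set U : ℕ → ℝ := fun n => if n ∈ A then RS C4 (kk p n) / rr (kk p n) ^ (4 + 3 * 4) else 1 with hU
  have hcardEd : Nat.card (Ed C4) = 4 := by rw [card_Ed_eq, hC4, card_C4]
  have hevA : ∀ K : ℕ, ∀ᶠ n in atTop, n ∈ A → K ≤ kk p n := by
    intro K
    have h1 := hkk.eventually_ge_atTop K
    rwa [eventually_inf_principal] at h1
  have hp' : ∀ᶠ n in atTop, (Nat.card (G' n).edgeSet : ℝ) = dens (G' n) * (n.choose 2) := by
    filter_upwards [eventually_ge_atTop 2] with n hn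
    exact dens_mul hn _
  have hpp : ∀ᶠ n in atTop, p n ≤ dens (G' n) := by
    filter_upwards [eventually_ge_atTop 2, hevA 1] with n hn hk
    by_cases hnA : n ∈ A
    · have hk1 := hk hnA
      obtain ⟨h1, h2⟩ := kk_spec p n hk1
      simp only [hG', if_pos hnA]
      exact h2.trans (dens_BG_ge hk1 h1 hn)
    · simp only [hG', if_neg hnA]
      rw [dens_top hn]; exact (hp.1 n).2
  have hU1 : Tendsto U atTop (𝓝 1) := by
    refine Tendsto.if ?_ tendsto_const_nhds
    exact (RS_tendsto C4 (4 + 3 * 4)).comp hkk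
  have hUb : ∀ᶠ n : ℕ in atTop, (emb (SimpleGraph.cycleGraph 4) (G' n) : ℝ) ≤
      (n : ℝ) ^ 4 * dens (G' n) ^ 4 * U n := by
    filter_upwards [eventually_ge_atTop 2, hevA 2] with n hn hk
    by_cases hnA : n ∈ A
    · have hk2 := hk hnA
      have hk1 : 1 ≤ kk p n := by omega
      obtain ⟨h1, h2⟩ := kk_spec p n hk1
      simp only [hG', hU, if_pos hnA]
      have hmm : Nat.card (Ed C4) ≤ mm (kk p n) := by
        rw [hcardEd]
        unfold mm
        calc 4 = 2 ^ 2 := by norm_num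
          _ ≤ 2 ^ (kk p n) := Nat.pow_le_pow_right (by norm_num) hk2
      have h3 := hm_sharp C4 (kk p n) hmm C4_tri
      rw [Fintype.card_fin, hcardEd] at h3
      have h4 := emb_BG_le hk1 h1 C4 (RS C4 (kk p n)) (by
        rw [← card_Ed_eq, hcardEd]
        unfold RS
        rw [hcardEd, Fintype.card_fin]
        exact h3) (RS_nonneg _ _) (dens (BG (kk p n) n)) (dens_BG_ge hk1 h1 hn)
      rw [hC4, card_C4] at h4
      exact h4
    · simp only [hG', hU, if_neg hnA]
      rw [dens_top hn]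
      have h1 := emb_le_pow (SimpleGraph.cycleGraph 4) (⊤ : SimpleGraph (Fin n))
      have h2 : (emb (SimpleGraph.cycleGraph 4) (⊤ : SimpleGraph (Fin n)) : ℝ) ≤ (n : ℝ) ^ 4 := by
        exact_mod_cast h1
      simpa using h2
  have hF : ∀ (k : ℕ) (F : SimpleGraph (Fin k)), ∃ C : ℝ, ∀ᶠ n : ℕ in atTop,
      (emb F (G' n) : ℝ) ≤ (n : ℝ) ^ k * dens (G' n) ^ (Nat.card F.edgeSet) * C := by
    intro k F
    obtain ⟨Y, hY⟩ := yy_bdd F
    set e := Nat.card F.edgeSet with he
    refine ⟨max (Real.exp Y * 2 ^ (k + 3 * e)) 1, ?_⟩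
    filter_upwards [eventually_ge_atTop 2, hevA 1] with n hn hk
    by_cases hnA : n ∈ A
    · have hk1 := hk hnA
      obtain ⟨h1, h2⟩ := kk_spec p n hk1
      simp only [hG', if_pos hnA]
      have h3 := hm_crude F (kk p n)
      rw [Fintype.card_fin, card_Ed_eq] at h3
      have hd := dens_BG_ge hk1 h1 hn
      have h4 := emb_BG_le hk1 h1 F (Real.exp (yy F (kk p n))) h3 (Real.exp_pos _).le
        (dens (BG (kk p n) n)) hd
      refine h4.trans ?_
      have hd0 : 0 ≤ dens (BG (kk p n) n) := by unfold dens; positivity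
      refine mul_le_mul_of_nonneg_left ?_ (by positivity)
      refine le_trans ?_ (le_max_left _ _)
      have hr := rr_pos hk1
      have hr2 : 1 / 2 ≤ rr (kk p n) := by
        unfold rr
        have h5 : (1 : ℝ) ≤ kk p n := by exact_mod_cast hk1
        have h6 : 1 / ((kk p n : ℝ) + 1) ≤ 1 / 2 :=
          div_le_div_of_nonneg_left (by norm_num) (by norm_num) (by linarith)
        linarith
      rw [div_le_iff₀ (by positivity), mul_assoc, ← mul_pow]
      have h7 : (1 : ℝ) ≤ (2 * rr (kk p n)) ^ (k + 3 * e) :=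
        one_le_pow₀ (by linarith)
      have h8 := Real.exp_le_exp.2 (hY (kk p n))
      have h9 := Real.exp_pos Y
      nlinarith
    · simp only [hG', if_neg hnA]
      rw [dens_top hn, one_pow, mul_one]
      have h2 : (emb F (⊤ : SimpleGraph (Fin n)) : ℝ) ≤ (n : ℝ) ^ k := by
        exact_mod_cast emb_le_pow F (⊤ : SimpleGraph (Fin n))
      refine h2.trans ?_
      have h3 : (0 : ℝ) ≤ (n : ℝ) ^ k := by positivity
      have h4 := le_max_right (Real.exp Y * 2 ^ (k + 3 * e)) 1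
      nlinarith
  obtain ⟨G, hG1, hG2⟩ := seq_sparsify p hp G' (fun n => dens (G' n)) hp' hpp U hU1 hUb hF
  refine ⟨G, hG1, ?_⟩
  filter_upwards [hG2] with n hn hnA
  have h1 : (G' n).CliqueFree 3 := by
    simp only [hG', if_pos hnA]
    exact BG_cliqueFree _ _
  exact h1.anti hn

theorem sp_top_of_cliqueFree {n : ℕ} (p : ℝ) (G : SimpleGraph (Fin n)) (h : G.CliqueFree 3) :
    sp p (⊤ : SimpleGraph (Fin 3)) G = 0 := by
  classical
  have h1 : emb (⊤ : SimpleGraph (Fin 3)) G = 0 := by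
    unfold emb
    have : IsEmpty {f : Fin 3 → Fin n // Function.Injective f ∧
        ∀ u v, (⊤ : SimpleGraph (Fin 3)).Adj u v → G.Adj (f u) (f v)} := by
      refine ⟨fun f => ?_⟩
      have e01 := f.2.2 0 1 (by simp)
      have e02 := f.2.2 0 2 (by simp)
      have e12 := f.2.2 1 2 (by simp)
      exact h {f.1 0, f.1 1, f.1 2} (SimpleGraph.is3Clique_triple_iff.2 ⟨e01, e02, e12⟩)
    exact Nat.card_of_isEmpty
  unfold sp
  rw [h1]
  simp

end Pool.Agent.H877_TF
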