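import Pool.Agent.H877_TF.Count3

/-!
# Homomorphism counts in the base graph
-/

namespace Pool.Agent.H877_TF

open Finset

section dist

variable {E : Type*} [Fintype E] [DecidableEq E]

/-- Distributivity: assignments `J : E → Fin m` are dominated by arbitrary families of subsets. -/
theorem sum_assign_le {m : ℕ} (g : Fin m → Finset E → ℝ) (hg : ∀ j S, 0 ≤ g j S) :
    ∑ J : E → Fin m, ∏ j, g j (univ.filter (fun e => J e = j)) ≤ ∏ j, ∑ S : Finset E, g j S := by
  classical
  rw [Finset.prod_univ_sum]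
  have hinj : Function.Injective (fun (J : E → Fin m) (j : Fin m) =>
      univ.filter (fun e => J e = j)) := by
    intro J J' h
    funext e
    have h1 := congrFun h (J e)
    have h2 : e ∈ univ.filter (fun e' => J e' = J e) := by simp
    have h3 : e ∈ univ.filter (fun e' => J' e' = J e) := by
      simp only at h1
      rw [← h1]; exact h2
    exact ((mem_filter.1 h3).2).symm
  calc ∑ J : E → Fin m, ∏ j, g j (univ.filter (fun e => J e = j))
      = ∑ T ∈ univ.image (fun (J : E → Fin m) (j : Fin m) => univ.filter (fun e => J e = j)),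
          ∏ j, g j (T j) := by
        rw [sum_image (fun a _ b _ h => hinj h)]
    _ ≤ ∑ T ∈ Fintype.piFinset (fun _ : Fin m => (univ : Finset (Finset E))),
          ∏ j, g j (T j) := by
        refine sum_le_sum_of_subset_of_nonneg ?_ ?_
        · intro T _
          simp
        · intro T _ _
          exact prod_nonneg (fun j _ => hg j _)

omit [DecidableEq E] in
theorem prod_pow_fiber {m : ℕ} (J : E → Fin m) (x : ℝ) :
    ∏ j : Fin m, x ^ (univ.filter (fun e => J e = j)).card = x ^ (Fintype.card E) := by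
  rw [prod_pow_eq_pow_sum]
  congr 1
  have := Finset.card_eq_sum_card_fiberwise (s := (univ : Finset E)) (t := (univ : Finset (Fin m)))
    (f := J) (fun _ _ => Finset.mem_coe.2 (mem_univ _))
  rw [← Finset.card_univ, this]

/-- The crude bound. -/
theorem sum_assign_le_crude {m : ℕ} (a : Finset E → ℝ) (ha : ∀ S, 0 ≤ a S) (x : ℝ) (hx : 0 < x) :
    ∑ J : E → Fin m, ∏ j, a (univ.filter (fun e => J e = j)) ≤
      (x ^ (Fintype.card E))⁻¹ * (∑ S : Finset E, x ^ S.card * a S) ^ m := by
  have h := sum_assign_le (m := m) (fun _ S => x ^ S.card * a S)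
    (fun _ S => mul_nonneg (pow_nonneg hx.le _) (ha S))
  simp only [prod_const, card_univ, Fintype.card_fin] at h
  rw [inv_mul_eq_div, le_div_iff₀ (by positivity), sum_mul]
  refine le_trans (le_of_eq ?_) h
  refine sum_congr rfl (fun J _ => ?_)
  rw [prod_mul_distrib, prod_pow_fiber, mul_comm]

/-- Assignments with a coincidence `J e1 = J e2`. -/
theorem sum_assign_le_coinc {m : ℕ} (a : Finset E → ℝ) (ha : ∀ S, 0 ≤ a S) (x : ℝ) (hx : 0 < x)
    (e1 e2 : E) (W W2 : ℝ) (hW : ∑ S : Finset E, x ^ S.card * a S ≤ W)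
    (hW2 : ∑ S ∈ univ.filter (fun S : Finset E => e1 ∈ S ∧ e2 ∈ S), x ^ S.card * a S ≤ W2) :
    ∑ J ∈ univ.filter (fun J : E → Fin m => J e1 = J e2),
        ∏ j, a (univ.filter (fun e => J e = j)) ≤
      m * ((x ^ (Fintype.card E))⁻¹ * (W2 * W ^ (m - 1))) := by
  classical
  have hterm : ∀ j0 : Fin m, ∑ J ∈ univ.filter (fun J : E → Fin m => J e1 = j0 ∧ J e2 = j0),
      ∏ j, a (univ.filter (fun e => J e = j)) ≤
      (x ^ (Fintype.card E))⁻¹ * (W2 * W ^ (m - 1)) := by
    intro j0
    set g : Fin m → Finset E → ℝ := fun j S =>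
      if j = j0 then (if e1 ∈ S ∧ e2 ∈ S then x ^ S.card * a S else 0) else x ^ S.card * a S
      with hg
    have hg0 : ∀ j S, 0 ≤ g j S := by
      intro j S
      have h1 : 0 ≤ x ^ S.card * a S := mul_nonneg (pow_nonneg hx.le _) (ha S)
      simp only [hg]
      split_ifs <;> simp [h1]
    have h := sum_assign_le g hg0
    have hprod : ∏ j, ∑ S : Finset E, g j S ≤ W2 * W ^ (m - 1) := by
      rw [← mul_prod_erase univ _ (mem_univ j0)]
      have h1 : ∑ S : Finset E, g j0 S ≤ W2 := by
        refine le_trans (le_of_eq ?_) hW2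
        rw [sum_filter]
        refine sum_congr rfl (fun S _ => ?_)
        simp [hg]
      have h2 : ∏ j ∈ univ.erase j0, ∑ S : Finset E, g j S ≤ W ^ (m - 1) := by
        have h3 : (univ.erase j0).card = m - 1 := by
          rw [card_erase_of_mem (mem_univ _), card_univ, Fintype.card_fin]
        rw [← h3, ← prod_const]
        refine prod_le_prod (fun j _ => sum_nonneg (fun S _ => hg0 j S)) ?_
        intro j hj
        have hne : j ≠ j0 := (mem_erase.1 hj).1
        refine le_trans (le_of_eq ?_) hW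
        refine sum_congr rfl (fun S _ => ?_)
        simp [hg, hne]
      exact mul_le_mul h1 h2 (prod_nonneg (fun j _ => sum_nonneg (fun S _ => hg0 j S)))
        ((sum_nonneg (fun S _ => hg0 j0 S)).trans h1)
    rw [inv_mul_eq_div, le_div_iff₀ (by positivity)]
    refine le_trans ?_ (h.trans hprod)
    rw [sum_mul]
    refine le_trans (le_of_eq ?_) (sum_le_sum_of_subset_of_nonneg
      (subset_univ (univ.filter (fun J : E → Fin m => J e1 = j0 ∧ J e2 = j0))) ?_)
    · refine sum_congr rfl (fun J hJ => ?_)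
      obtain ⟨hJ1, hJ2⟩ := (mem_filter.1 hJ).2
      rw [← prod_pow_fiber J x, ← prod_mul_distrib]
      refine prod_congr rfl (fun j _ => ?_)
      simp only [hg]
      by_cases hj : j = j0
      · subst hj
        simp [hJ1, hJ2, mul_comm]
      · simp [hj, mul_comm]
    · intro J _ _
      exact prod_nonneg (fun j _ => hg0 j _)
  calc ∑ J ∈ univ.filter (fun J : E → Fin m => J e1 = J e2),
        ∏ j, a (univ.filter (fun e => J e = j))
      = ∑ j0 : Fin m, ∑ J ∈ univ.filter (fun J : E → Fin m => J e1 = j0 ∧ J e2 = j0),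
        ∏ j, a (univ.filter (fun e => J e = j)) := by
        rw [← sum_fiberwise_of_maps_to (t := (univ : Finset (Fin m))) (g := fun J => J e1)
          (fun _ _ => mem_univ _)]
        refine sum_congr rfl (fun j0 _ => ?_)
        rw [filter_filter]
        refine sum_congr ?_ (fun _ _ => rfl)
        ext J
        simp only [mem_filter, mem_univ, true_and]
        constructor
        · rintro ⟨h1, h2⟩; exact ⟨h2, h1 ▸ h2⟩
        · rintro ⟨h1, h2⟩; exact ⟨h1.trans h2.symm, h1⟩
    _ ≤ ∑ _j0 : Fin m, (x ^ (Fintype.card E))⁻¹ * (W2 * W ^ (m - 1)) :=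
        sum_le_sum (fun j0 _ => hterm j0)
    _ = _ := by rw [sum_const, card_univ, Fintype.card_fin, nsmul_eq_mul]

/-- Injective assignments. -/
theorem prod_inj_le {m : ℕ} (a : Finset E → ℝ) (ha : ∀ S, 0 ≤ a S) (a1 : ℝ)
    (ha1 : ∀ e, a {e} ≤ a1) (J : E → Fin m) (hJ : Function.Injective J) :
    ∏ j, a (univ.filter (fun e => J e = j)) ≤
      a1 ^ (Fintype.card E) * (a ∅) ^ (m - Fintype.card E) := by
  classical
  have hcard : (univ.image J).card = Fintype.card E := by
    rw [card_image_of_injective _ hJ, card_univ]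
  rw [← prod_mul_prod_compl (univ.image J)]
  have h1 : ∏ j ∈ univ.image J, a (univ.filter (fun e => J e = j)) ≤
      a1 ^ (Fintype.card E) := by
    rw [← hcard, ← prod_const]
    refine prod_le_prod (fun j _ => ha _) ?_
    intro j hj
    obtain ⟨e, -, rfl⟩ := mem_image.1 hj
    have : univ.filter (fun e' => J e' = J e) = {e} := by
      ext e'
      simp [hJ.eq_iff]
    rw [this]
    exact ha1 e
  have h2 : ∏ j ∈ (univ.image J)ᶜ, a (univ.filter (fun e => J e = j)) =
      (a ∅) ^ (m - Fintype.card E) := by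
    have h3 : ((univ.image J)ᶜ).card = m - Fintype.card E := by
      rw [card_compl, Fintype.card_fin, hcard]
    rw [← h3]
    refine prod_eq_pow_card ?_
    intro j hj
    congr 1
    ext e
    simp only [mem_filter, mem_univ, true_and, notMem_empty, iff_false]
    rintro rfl
    exact (mem_compl.1 hj) (mem_image_of_mem _ (mem_univ _))
  rw [h2]
  exact mul_le_mul_of_nonneg_right h1 (pow_nonneg (ha _) _)

theorem sum_biUnion_le_sum {ι κ : Type*} [DecidableEq κ] (s : Finset ι) (t : ι → Finset κ)
    (f : κ → ℝ) (hf : ∀ b, 0 ≤ f b) :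
    ∑ b ∈ s.biUnion t, f b ≤ ∑ i ∈ s, ∑ b ∈ t i, f b := by
  classical
  induction s using Finset.induction_on with
  | empty => simp
  | insert i s hi ih =>
    rw [biUnion_insert, sum_insert hi]
    have h := sum_union_inter (s₁ := t i) (s₂ := s.biUnion t) (f := f)
    have h2 : 0 ≤ ∑ b ∈ t i ∩ s.biUnion t, f b := sum_nonneg (fun b _ => hf b)
    linarith

/-- The sharp bound. -/
theorem sum_assign_le_sharp {m : ℕ} (a : Finset E → ℝ) (ha : ∀ S, 0 ≤ a S) (x : ℝ) (hx : 0 < x)
    (a1 W W2 : ℝ) (ha1 : ∀ e, a {e} ≤ a1) (hW : ∑ S : Finset E, x ^ S.card * a S ≤ W)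
    (hW2 : ∀ e1 e2 : E, e1 ≠ e2 →
      ∑ S ∈ univ.filter (fun S : Finset E => e1 ∈ S ∧ e2 ∈ S), x ^ S.card * a S ≤ W2)
    (ha1' : 0 ≤ a1) (hW2' : 0 ≤ W2) :
    ∑ J : E → Fin m, ∏ j, a (univ.filter (fun e => J e = j)) ≤
      (m : ℝ) ^ (Fintype.card E) * (a1 ^ (Fintype.card E) * (a ∅) ^ (m - Fintype.card E)) +
      (Fintype.card E : ℝ) ^ 2 * (m * ((x ^ (Fintype.card E))⁻¹ * (W2 * W ^ (m - 1)))) := by
  classical
  have hWn : 0 ≤ W := (sum_nonneg (fun S _ => mul_nonneg (pow_nonneg hx.le _) (ha S))).trans hW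
  have hp : ∀ J : E → Fin m, 0 ≤ ∏ j, a (univ.filter (fun e => J e = j)) :=
    fun J => prod_nonneg (fun j _ => ha _)
  rw [← sum_filter_add_sum_filter_not univ (fun J : E → Fin m => Function.Injective J)]
  refine add_le_add ?_ ?_
  · have h1 : ∀ J ∈ univ.filter (fun J : E → Fin m => Function.Injective J),
        ∏ j, a (univ.filter (fun e => J e = j)) ≤
          a1 ^ (Fintype.card E) * (a ∅) ^ (m - Fintype.card E) :=
      fun J hJ => prod_inj_le a ha a1 ha1 J (mem_filter.1 hJ).2
    refine (sum_le_card_nsmul _ _ _ h1).trans ?_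
    rw [nsmul_eq_mul]
    refine mul_le_mul_of_nonneg_right ?_ (mul_nonneg (pow_nonneg ha1' _) (pow_nonneg (ha _) _))
    have h2 : (univ.filter (fun J : E → Fin m => Function.Injective J)).card ≤
        m ^ (Fintype.card E) := by
      refine (card_le_univ _).trans ?_
      simp
    exact_mod_cast h2
  · calc ∑ J ∈ univ.filter (fun J : E → Fin m => ¬ Function.Injective J),
          ∏ j, a (univ.filter (fun e => J e = j))
        ≤ ∑ J ∈ (univ.filter (fun p : E × E => p.1 ≠ p.2)).biUnion
            (fun p => univ.filter (fun J : E → Fin m => J p.1 = J p.2)),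
            ∏ j, a (univ.filter (fun e => J e = j)) := by
          refine sum_le_sum_of_subset_of_nonneg ?_ (fun J _ _ => hp J)
          intro J hJ
          have hJ' := (mem_filter.1 hJ).2
          unfold Function.Injective at hJ'
          push Not at hJ'
          obtain ⟨e1, e2, h, hne⟩ := hJ'
          rw [mem_biUnion]
          exact ⟨(e1, e2), mem_filter.2 ⟨mem_univ _, hne⟩, mem_filter.2 ⟨mem_univ _, h⟩⟩
      _ ≤ ∑ p ∈ univ.filter (fun p : E × E => p.1 ≠ p.2),
            ∑ J ∈ univ.filter (fun J : E → Fin m => J p.1 = J p.2),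
            ∏ j, a (univ.filter (fun e => J e = j)) := by
          exact sum_biUnion_le_sum _ _ _ hp
      _ ≤ ∑ p ∈ univ.filter (fun p : E × E => p.1 ≠ p.2),
            (m * ((x ^ (Fintype.card E))⁻¹ * (W2 * W ^ (m - 1)))) := by
          refine sum_le_sum (fun p hp => ?_)
          exact sum_assign_le_coinc a ha x hx p.1 p.2 W W2 hW (hW2 _ _ (mem_filter.1 hp).2)
      _ ≤ _ := by
          rw [sum_const, nsmul_eq_mul]
          refine mul_le_mul_of_nonneg_right ?_ (by positivity)
          have h2 : (univ.filter (fun p : E × E => p.1 ≠ p.2)).card ≤ (Fintype.card E) ^ 2 := by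
            refine (card_le_univ _).trans ?_
            rw [Fintype.card_prod, sq]
          exact_mod_cast h2

end dist

end Pool.Agent.H877_TF
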