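import Pool.Agent.H877_TF.Hom

/-!
# Homomorphism counts in the base graph, continued
-/

namespace Pool.Agent.H877_TF

open Finset

section

variable {V : Type*} [Fintype V] [LinearOrder V]

/-- The number of homomorphisms from `F` to the base graph. -/
noncomputable def hm (F : SimpleGraph V) (m N : ℕ) : ℕ :=
  Nat.card {φ : V → (Fin m → Lt N) // ∀ u v, F.Adj u v → (G0 m N).Adj (φ u) (φ v)}

open scoped Classical in
theorem hm_le_sum (F : SimpleGraph V) (m N : ℕ) :
    hm F m N ≤ ∑ J : Ed F → Fin m, ∏ j, cnt F N (univ.filter (fun e => J e = j)) := by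
  unfold hm cnt
  have h1 : ∑ J : Ed F → Fin m, ∏ j, Nat.card {f : V → Lt N //
      Pat F (univ.filter (fun e => J e = j)) f} =
      Nat.card (Σ J : Ed F → Fin m, ∀ j : Fin m,
        {f : V → Lt N // Pat F (univ.filter (fun e => J e = j)) f}) := by
    rw [Nat.card_sigma]
    refine sum_congr rfl (fun J _ => ?_)
    rw [Nat.card_pi]
  rw [h1]
  have hJ : ∀ φ : {φ : V → (Fin m → Lt N) // ∀ u v, F.Adj u v → (G0 m N).Adj (φ u) (φ v)},
      ∃ J : Ed F → Fin m, ∀ j, Pat F (univ.filter (fun e => J e = j)) (fun v => φ.1 v j) := by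
    intro φ
    have h2 : ∀ e : Ed F, ∃ j, spc (φ.1 e.1.1 j) (φ.1 e.1.2 j) ∧
        ∀ j', j' ≠ j → reg (φ.1 e.1.1 j') (φ.1 e.1.2 j') := fun e => φ.2 _ _ e.2.2
    choose J hJ1 hJ2 using h2
    refine ⟨J, fun j e => ⟨fun he => ?_, fun he => ?_⟩⟩
    · have h3 : J e = j := (mem_filter.1 he).2
      rw [← h3]; exact hJ1 e
    · refine hJ2 e j ?_
      rintro rfl
      exact he (mem_filter.2 ⟨mem_univ _, rfl⟩)
  choose J hJ' using hJ
  refine Nat.card_le_card_of_injective (fun φ => ⟨J φ, fun j => ⟨fun v => φ.1 v j, hJ' φ j⟩⟩) ?_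
  intro φ ψ h
  apply Subtype.ext
  have h2 : ∀ (a b : Σ J : Ed F → Fin m, ∀ j : Fin m,
        {f : V → Lt N // Pat F (univ.filter (fun e => J e = j)) f}), a = b →
        ∀ j v, (a.2 j).1 v = (b.2 j).1 v := by
    rintro a b rfl j v; rfl
  funext v j
  exact h2 _ _ h j v

theorem sum_singleton_card {E : Type*} [Fintype E] [DecidableEq E] (c : ℝ) :
    ∑ S : Finset E, (if S.card = 1 then c else 0) = Fintype.card E * c := by
  classical
  rw [← sum_filter, sum_const, nsmul_eq_mul]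
  congr 2
  have : (univ.filter (fun S : Finset E => S.card = 1)) = powersetCard 1 univ := by
    ext S; simp
  rw [this, card_powersetCard, card_univ, Nat.choose_one_right]

open scoped Classical in
/-- The weighted sum over patterns. -/
theorem weight_sum_le (F : SimpleGraph V) (N : ℕ) (hN : 0 < N) (x : ℝ) (hx : 1 ≤ x) :
    ∑ S : Finset (Ed F), x ^ S.card * (cnt F N S : ℝ) ≤
      tot V N * ((1 / 4 ^ (Nat.card (Ed F)) + (Fintype.card V : ℝ) ^ 2 / N) +
        Nat.card (Ed F) * (x / N) + 2 ^ (Nat.card (Ed F)) * (x ^ (Nat.card (Ed F)) / N ^ 2)) := by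
  classical
  have hN' : (0 : ℝ) < N := by exact_mod_cast hN
  have hx0 : 0 < x := by linarith
  have ht := tot_nonneg (V := V) N
  set A0 : ℝ := 1 / 4 ^ (Nat.card (Ed F)) + (Fintype.card V : ℝ) ^ 2 / N with hA0
  have hA0' : 0 ≤ A0 := by positivity
  have hpt : ∀ S : Finset (Ed F), x ^ S.card * (cnt F N S : ℝ) ≤
      (if S = ∅ then tot V N * A0 else 0) + (if S.card = 1 then tot V N * (x / N) else 0) +
        tot V N * (x ^ (Nat.card (Ed F)) / N ^ 2) := by
    intro S
    have h3 : 0 ≤ tot V N * (x ^ (Nat.card (Ed F)) / N ^ 2) := by positivity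
    have h4 : 0 ≤ tot V N * (x / N) := by positivity
    rcases S.eq_empty_or_nonempty with hS | hS
    · subst hS
      have := cnt_empty_le F N hN
      simp only [card_empty, pow_zero, one_mul, if_true]
      simp only [zero_ne_one, if_false]
      linarith
    · obtain ⟨e1, he1⟩ := hS
      by_cases h1 : S.card = 1
      · have h2 := cnt_le_of_mem F N hN S e1 he1
        have h5 : ¬ S = ∅ := by rintro rfl; simp at h1
        rw [if_neg h5, if_pos h1, h1, pow_one]
        have h6 : x * (cnt F N S : ℝ) ≤ x * (tot V N * (1 / N)) :=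
          mul_le_mul_of_nonneg_left h2 hx0.le
        have h7 : x * (tot V N * (1 / N)) = tot V N * (x / N) := by ring
        linarith
      · have h2 : 2 ≤ S.card := by
          have : 0 < S.card := card_pos.2 ⟨e1, he1⟩
          omega
        obtain ⟨e1, he1, e2, he2, hne⟩ := one_lt_card.1 h2
        have h3' := cnt_le_of_two F N hN S e1 e2 he1 he2 hne
        have h5 : ¬ S = ∅ := by rintro rfl; simp at h2
        rw [if_neg h5, if_neg h1]
        have h6 : S.card ≤ Nat.card (Ed F) := by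
          rw [Nat.card_eq_fintype_card]; exact card_le_univ S
        have h7 : x ^ S.card ≤ x ^ (Nat.card (Ed F)) := pow_le_pow_right₀ hx h6
        have h8 : x ^ S.card * (cnt F N S : ℝ) ≤
            x ^ (Nat.card (Ed F)) * (tot V N * (1 / N ^ 2)) :=
          mul_le_mul h7 h3' (Nat.cast_nonneg _) (by positivity)
        have h9 : x ^ (Nat.card (Ed F)) * (tot V N * (1 / N ^ 2)) =
            tot V N * (x ^ (Nat.card (Ed F)) / N ^ 2) := by ring
        linarith
  refine (sum_le_sum (fun S _ => hpt S)).trans (le_of_eq ?_)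
  rw [sum_add_distrib, sum_add_distrib, sum_singleton_card]
  simp only [sum_ite_eq', mem_univ, if_true, sum_const, card_univ, Fintype.card_finset,
    nsmul_eq_mul, Nat.cast_pow, Nat.cast_ofNat, Nat.card_eq_fintype_card]
  ring

open scoped Classical in
/-- The weighted sum over patterns containing two given edges. -/
theorem weight_sum2_le (F : SimpleGraph V) (N : ℕ) (hN : 0 < N) (x : ℝ) (hx : 1 ≤ x)
    (e1 e2 : Ed F) (hne : e1 ≠ e2) :
    ∑ S ∈ univ.filter (fun S : Finset (Ed F) => e1 ∈ S ∧ e2 ∈ S), x ^ S.card * (cnt F N S : ℝ) ≤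
      tot V N * (2 ^ (Nat.card (Ed F)) * (x ^ (Nat.card (Ed F)) / N ^ 2)) := by
  classical
  have hN' : (0 : ℝ) < N := by exact_mod_cast hN
  have hx0 : 0 < x := by linarith
  have ht := tot_nonneg (V := V) N
  have hpt : ∀ S ∈ univ.filter (fun S : Finset (Ed F) => e1 ∈ S ∧ e2 ∈ S),
      x ^ S.card * (cnt F N S : ℝ) ≤ tot V N * (x ^ (Nat.card (Ed F)) / N ^ 2) := by
    intro S hS
    obtain ⟨he1, he2⟩ := (mem_filter.1 hS).2
    have h3' := cnt_le_of_two F N hN S e1 e2 he1 he2 hne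
    have h6 : S.card ≤ Nat.card (Ed F) := by
      rw [Nat.card_eq_fintype_card]; exact card_le_univ S
    have h7 : x ^ S.card ≤ x ^ (Nat.card (Ed F)) := pow_le_pow_right₀ hx h6
    have h8 : x ^ S.card * (cnt F N S : ℝ) ≤
        x ^ (Nat.card (Ed F)) * (tot V N * (1 / N ^ 2)) :=
      mul_le_mul h7 h3' (Nat.cast_nonneg _) (by positivity)
    have h9 : x ^ (Nat.card (Ed F)) * (tot V N * (1 / N ^ 2)) =
        tot V N * (x ^ (Nat.card (Ed F)) / N ^ 2) := by ring
    linarith
  refine (sum_le_card_nsmul _ _ _ hpt).trans ?_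
  rw [nsmul_eq_mul]
  have h1 : ((univ.filter (fun S : Finset (Ed F) => e1 ∈ S ∧ e2 ∈ S)).card : ℝ) ≤
      2 ^ (Nat.card (Ed F)) := by
    have : (univ.filter (fun S : Finset (Ed F) => e1 ∈ S ∧ e2 ∈ S)).card ≤
        2 ^ (Nat.card (Ed F)) := by
      refine (card_le_univ _).trans ?_
      rw [Fintype.card_finset, Nat.card_eq_fintype_card]
    exact_mod_cast this
  have h3 : 0 ≤ tot V N * (x ^ (Nat.card (Ed F)) / N ^ 2) := by positivity
  refine (mul_le_mul_of_nonneg_right h1 h3).trans (le_of_eq ?_)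
  ring

/-- Crude bound for homomorphism counts in the base graph. -/
theorem hm_le_crude (F : SimpleGraph V) (m N : ℕ) (hN : 0 < N) (x : ℝ) (hx : 1 ≤ x) :
    (hm F m N : ℝ) ≤ (x ^ (Nat.card (Ed F)))⁻¹ * (tot V N *
      ((1 / 4 ^ (Nat.card (Ed F)) + (Fintype.card V : ℝ) ^ 2 / N) +
        Nat.card (Ed F) * (x / N) + 2 ^ (Nat.card (Ed F)) * (x ^ (Nat.card (Ed F)) / N ^ 2))) ^ m
      := by
  classical
  have h1 : (hm F m N : ℝ) ≤ ∑ J : Ed F → Fin m, ∏ j,
      (cnt F N (univ.filter (fun e => J e = j)) : ℝ) := by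
    exact_mod_cast hm_le_sum F m N
  have h2 := sum_assign_le_crude (m := m) (fun S : Finset (Ed F) => (cnt F N S : ℝ))
    (fun S => Nat.cast_nonneg _) x (by linarith)
  refine (h1.trans h2).trans ?_
  rw [← Nat.card_eq_fintype_card]
  refine mul_le_mul_of_nonneg_left ?_ (by positivity)
  refine pow_le_pow_left₀ (sum_nonneg (fun S _ => by positivity)) ?_ m
  exact weight_sum_le F N hN x hx

/-- Sharp bound for homomorphism counts in the base graph, for triangle-free `F`. -/
theorem hm_le_sharp (F : SimpleGraph V) (m N : ℕ) (hN : 0 < N) (x : ℝ) (hx : 1 ≤ x)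
    (htri : ∀ e0 : Ed F, ∀ w, ¬ (F.Adj w e0.1.1 ∧ F.Adj w e0.1.2)) :
    (hm F m N : ℝ) ≤ (m : ℝ) ^ (Nat.card (Ed F)) *
      ((tot V N * ((1 / N) * (2 / 4 ^ (Nat.card (Ed F)) + (Fintype.card V : ℝ) ^ 2 / N))) ^
          (Nat.card (Ed F)) *
        (tot V N * (1 / 4 ^ (Nat.card (Ed F)) + (Fintype.card V : ℝ) ^ 2 / N)) ^
          (m - Nat.card (Ed F))) +
      (Nat.card (Ed F) : ℝ) ^ 2 * (m * ((x ^ (Nat.card (Ed F)))⁻¹ *
        ((tot V N * (2 ^ (Nat.card (Ed F)) * (x ^ (Nat.card (Ed F)) / N ^ 2))) *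
        (tot V N *
      ((1 / 4 ^ (Nat.card (Ed F)) + (Fintype.card V : ℝ) ^ 2 / N) +
        Nat.card (Ed F) * (x / N) + 2 ^ (Nat.card (Ed F)) * (x ^ (Nat.card (Ed F)) / N ^ 2))) ^
          (m - 1)))) := by
  classical
  have ht := tot_nonneg (V := V) N
  have h1 : (hm F m N : ℝ) ≤ ∑ J : Ed F → Fin m, ∏ j,
      (cnt F N (univ.filter (fun e => J e = j)) : ℝ) := by
    exact_mod_cast hm_le_sum F m N
  have h2 := sum_assign_le_sharp (m := m) (fun S : Finset (Ed F) => (cnt F N S : ℝ))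
    (fun S => Nat.cast_nonneg _) x (by linarith)
    (tot V N * ((1 / N) * (2 / 4 ^ (Nat.card (Ed F)) + (Fintype.card V : ℝ) ^ 2 / N)))
    _ _ (fun e => cnt_single_le F N hN e (htri e)) (weight_sum_le F N hN x hx)
    (fun e1 e2 hne => weight_sum2_le F N hN x hx e1 e2 hne) (by positivity) (by positivity)
  refine (h1.trans h2).trans ?_
  rw [← Nat.card_eq_fintype_card]
  refine add_le_add ?_ le_rfl
  refine mul_le_mul_of_nonneg_left ?_ (by positivity)
  refine mul_le_mul_of_nonneg_left ?_ (by positivity)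
  refine pow_le_pow_left₀ (Nat.cast_nonneg _) ?_ _
  exact cnt_empty_le F N hN

end

end Pool.Agent.H877_TF
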