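import Pool.Agent.H877_TF.Sparse

/-!
# Limits of the auxiliary quantities
-/

namespace Pool.Agent.H877_TF

open Finset Filter Topology

theorem xe_div_m_tendsto (e : ℕ) :
    Tendsto (fun k : ℕ => ((k : ℝ) + 1) ^ e / (mm k)) atTop (𝓝 0) := by
  have h1 := tendsto_pow_const_div_const_pow_of_one_lt e (r := (2 : ℝ)) (by norm_num)
  have h2 := (h1.comp (tendsto_add_atTop_nat 1)).const_mul 2
  rw [mul_zero] at h2
  refine h2.congr (fun k => ?_)
  simp only [Function.comp_apply, mm]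
  push_cast
  rw [pow_succ]
  field_simp

theorem inv_succ_tendsto (c : ℝ) :
    Tendsto (fun k : ℕ => c / ((k : ℝ) + 1)) atTop (𝓝 0) := by
  have := (tendsto_one_div_add_atTop_nhds_zero_nat (𝕜 := ℝ)).const_mul c
  rw [mul_zero] at this
  refine this.congr (fun k => ?_)
  ring

theorem rr_tendsto : Tendsto rr atTop (𝓝 1) := by
  have := (inv_succ_tendsto 1).const_sub 1
  rw [sub_zero] at this
  exact this

theorem pi0_tendsto : Tendsto pi0 atTop (𝓝 0) := by
  have h1 : Tendsto (fun k : ℕ => 2 / ((k : ℝ) + 1)) atTop (𝓝 0) := inv_succ_tendsto 2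
  refine squeeze_zero (fun k => (pi0_pos k).le) (fun k => ?_) h1
  unfold pi0
  have h2 : (1 / 4 : ℝ) ^ mm k ≤ 1 := pow_le_one₀ (by norm_num) (by norm_num)
  have h3 : 0 ≤ 2 / ((k : ℝ) + 1) := by positivity
  nlinarith

section

variable {V : Type*} [Fintype V] [LinearOrder V]

theorem yy_tendsto (F : SimpleGraph V) : Tendsto (yy F) atTop
    (𝓝 (4 ^ (Nat.card (Ed F)) * ((Fintype.card V : ℝ) ^ 2 + Nat.card (Ed F) +
    2 ^ (Nat.card (Ed F)) * 0))) := by
  unfold yy
  exact (tendsto_const_nhds.add ((xe_div_m_tendsto _).const_mul _)).const_mul _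

theorem yy_bdd (F : SimpleGraph V) : ∃ Y : ℝ, ∀ k, yy F k ≤ Y := by
  obtain ⟨Y, hY⟩ := (yy_tendsto F).bddAbove_range
  exact ⟨Y, fun k => hY ⟨k, rfl⟩⟩

/-- The factor in the sharp bound. -/
noncomputable def RS (F : SimpleGraph V) (k : ℕ) : ℝ :=
  Real.exp (4 ^ (Nat.card (Ed F)) * (Fintype.card V : ℝ) ^ 2 / ((k : ℝ) + 1)) +
          (Nat.card (Ed F) : ℝ) ^ 2 * 4 ^ (Nat.card (Ed F)) *
            (((k : ℝ) + 1) ^ (Nat.card (Ed F)) / mm k) * Real.exp (yy F k)

theorem RS_nonneg (F : SimpleGraph V) (k : ℕ) : 0 ≤ RS F k := by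
  unfold RS; positivity

theorem RS_tendsto (F : SimpleGraph V) (j : ℕ) :
    Tendsto (fun k => RS F k / rr k ^ j) atTop (𝓝 1) := by
  have h1 : Tendsto (fun k : ℕ =>
      Real.exp (4 ^ (Nat.card (Ed F)) * (Fintype.card V : ℝ) ^ 2 / ((k : ℝ) + 1))) atTop (𝓝 1) := by
    have := (Real.continuous_exp.tendsto 0).comp
      (inv_succ_tendsto (4 ^ (Nat.card (Ed F)) * (Fintype.card V : ℝ) ^ 2))
    rw [Real.exp_zero] at this
    exact this
  have h2 := (Real.continuous_exp.tendsto _).comp (yy_tendsto F)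
  have h3 := (((xe_div_m_tendsto (Nat.card (Ed F))).const_mul
    ((Nat.card (Ed F) : ℝ) ^ 2 * 4 ^ (Nat.card (Ed F)))).mul h2)
  rw [mul_zero, zero_mul] at h3
  have h4 := h1.add h3
  have h5 := h4.div (rr_tendsto.pow j) (by norm_num)
  simp only [add_zero, one_pow, div_one] at h5
  refine h5.congr (fun k => ?_)
  rfl

end

theorem descFactorial_ratio_tendsto (v : ℕ) :
    Tendsto (fun n : ℕ => (n : ℝ) ^ v / (n.descFactorial v : ℝ)) atTop (𝓝 1) := by
  have h1 : Tendsto (fun n : ℕ => ((n : ℝ) / ((n : ℝ) + 1 - v)) ^ v) atTop (𝓝 1) := by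
    have h2 : Tendsto (fun n : ℕ => (n : ℝ) / ((n : ℝ) + 1 - v)) atTop (𝓝 1) := by
      have h3 := tendsto_natCast_div_add_atTop (𝕜 := ℝ) (1 - (v : ℝ))
      refine h3.congr (fun n => ?_)
      congr 1; ring
    have := h2.pow v
    rwa [one_pow] at this
  refine tendsto_of_tendsto_of_tendsto_of_le_of_le' tendsto_const_nhds h1 ?_ ?_
  · filter_upwards [eventually_ge_atTop v] with n hn
    have h2 : (0 : ℝ) < n.descFactorial v := by
      exact_mod_cast Nat.descFactorial_pos.2 hn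
    rw [le_div_iff₀ h2, one_mul]
    exact_mod_cast Nat.descFactorial_le_pow n v
  · filter_upwards [eventually_ge_atTop v] with n hn
    have hc : ((n + 1 - v : ℕ) : ℝ) = (n : ℝ) + 1 - v := by
      rw [Nat.cast_sub (by omega)]; push_cast; ring
    have h3 : (0 : ℝ) < (n : ℝ) + 1 - v := by
      rw [← hc]
      have : 0 < n + 1 - v := by omega
      exact_mod_cast this
    have h4 : ((n : ℝ) + 1 - v) ^ v ≤ n.descFactorial v := by
      rw [← hc]
      exact_mod_cast Nat.pow_sub_le_descFactorial n v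
    rw [div_pow]
    exact div_le_div_of_nonneg_left (by positivity) (by positivity) h4

/-- If `p = n^{-o(1)}`, then `n p^4 → ∞`. -/
theorem inv_np4_tendsto (p : ℕ → ℝ) (hp0 : ∀ n, 0 < p n)
    (hlog : Tendsto (fun n : ℕ => Real.log (1 / p n) / Real.log n) atTop (𝓝 0)) :
    Tendsto (fun n : ℕ => 2 / ((n : ℝ) * p n ^ 4)) atTop (𝓝 0) := by
  have h1 : ∀ᶠ n : ℕ in atTop, Real.log (1 / p n) / Real.log n < 1 / 8 :=
    hlog.eventually_lt_const (by norm_num)
  have h2 : Tendsto (fun n : ℕ => 2 / (n : ℝ) ^ (1 / 2 : ℝ)) atTop (𝓝 0) := by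
    have h3 : Tendsto (fun n : ℕ => (n : ℝ) ^ (1 / 2 : ℝ)) atTop atTop :=
      (tendsto_rpow_atTop (by norm_num)).comp tendsto_natCast_atTop_atTop
    exact h3.const_div_atTop 2
  refine squeeze_zero' ?_ ?_ h2
  · filter_upwards with n
    have := hp0 n
    positivity
  · filter_upwards [h1, eventually_ge_atTop 2] with n hn1 hn2
    have hn0 : (0 : ℝ) < n := by positivity
    have hn2' : (1 : ℝ) < n := by exact_mod_cast (by omega : 1 < n)
    have hlogn : 0 < Real.log n := Real.log_pos hn2'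
    have hpn := hp0 n
    rw [div_lt_iff₀ hlogn] at hn1
    have h4 : -Real.log (p n) ≤ 1 / 8 * Real.log n := by
      rw [one_div, Real.log_inv] at hn1
      exact hn1.le
    have h5 : (n : ℝ) ^ (1 / 2 : ℝ) ≤ n * p n ^ 4 := by
      rw [← Real.log_le_log_iff (by positivity) (by positivity), Real.log_rpow hn0,
        Real.log_mul (by positivity) (by positivity), Real.log_pow]
      push_cast
      linarith
    exact div_le_div_of_nonneg_left (by norm_num) (by positivity) h5

end Pool.Agent.H877_TF
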