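import Pool.Agent.H877_TF.Lim

/-!
# Sequences with prescribed density
-/

namespace Pool.Agent.H877_TF

open Finset Filter Topology

theorem card_C4 : Nat.card (SimpleGraph.cycleGraph 4).edgeSet = 4 := by
  have h1 := two_edges (SimpleGraph.cycleGraph 4)
  have h2 : Nat.card {p : Fin 4 × Fin 4 // (SimpleGraph.cycleGraph 4).Adj p.1 p.2} = 8 := by
    rw [Nat.card_eq_fintype_card, Fintype.card_subtype]
    decide
  omega

theorem C4_tri (e0 : Ed (SimpleGraph.cycleGraph 4)) (w : Fin 4) :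
    ¬ ((SimpleGraph.cycleGraph 4).Adj w e0.1.1 ∧ (SimpleGraph.cycleGraph 4).Adj w e0.1.2) := by
  obtain ⟨⟨u, v⟩, _, h⟩ := e0
  simp only at h ⊢
  have : ∀ u v w : Fin 4, (SimpleGraph.cycleGraph 4).Adj u v →
      ¬ ((SimpleGraph.cycleGraph 4).Adj w u ∧ (SimpleGraph.cycleGraph 4).Adj w v) := by decide
  exact this u v w h

/-- Lower bound for 4-cycles given the density. -/
theorem C4_lower {n : ℕ} (hn : 4 ≤ n) (G : SimpleGraph (Fin n)) (p : ℝ) (hp : 0 < p)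
    (hG : (Nat.card G.edgeSet : ℝ) = p * (n.choose 2)) :
    (((n : ℝ) - 1) / n) ^ 4 - 2 / (n * p ^ 4) ≤
      (emb (SimpleGraph.cycleGraph 4) G : ℝ) / ((n : ℝ) ^ 4 * p ^ 4) := by
  have hn0 : (0 : ℝ) < n := by exact_mod_cast (by omega : 0 < n)
  have h1 := dd_pow_four_le G
  have h2 : (dd G : ℝ) = p * (n * (n - 1)) := by
    rw [dd_eq_two_edges]
    push_cast
    rw [hG, Nat.cast_choose_two]
    ring
  have h3 : (hh G : ℝ) ≤ emb (SimpleGraph.cycleGraph 4) G + 2 * (n : ℝ) ^ 3 := by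
    exact_mod_cast hh_le G
  rw [h2] at h1
  rw [le_div_iff₀ (by positivity)]
  have h4 : (n : ℝ) ^ 4 * ((p * (n - 1)) ^ 4) ≤ (n : ℝ) ^ 4 *
      (emb (SimpleGraph.cycleGraph 4) G + 2 * (n : ℝ) ^ 3) := by
    calc (n : ℝ) ^ 4 * ((p * (n - 1)) ^ 4) = (p * (n * (n - 1))) ^ 4 := by ring
      _ ≤ (n : ℝ) ^ 4 * hh G := h1
      _ ≤ _ := mul_le_mul_of_nonneg_left h3 (by positivity)
  have h5 := le_of_mul_le_mul_left h4 (by positivity)
  have h6 : ((((n : ℝ) - 1) / n) ^ 4 - 2 / (n * p ^ 4)) * ((n : ℝ) ^ 4 * p ^ 4) =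
      (p * (n - 1)) ^ 4 - 2 * (n : ℝ) ^ 3 := by
    field_simp
  rw [h6]
  linarith

/-- There is always a graph with a prescribed admissible number of edges. -/
theorem exists_edges {n : ℕ} (e : ℕ) (he : e ≤ n.choose 2) :
    ∃ G : SimpleGraph (Fin n), Nat.card G.edgeSet = e := by
  classical
  have hT : Nat.card (⊤ : SimpleGraph (Fin n)).edgeSet = n.choose 2 := by
    rw [Nat.card_eq_fintype_card, ← SimpleGraph.edgeFinset_card,
      SimpleGraph.card_edgeFinset_top_eq_card_choose_two, Fintype.card_fin]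
  rcases Nat.eq_zero_or_pos (n.choose 2) with h0 | h0
  · exact ⟨⊤, by omega⟩
  · obtain ⟨G, -, hG, -⟩ := sparse_exists (⊤ : SimpleGraph (Fin n)) e (by rw [hT]; exact he)
      (by rw [hT]; exact h0) (∅ : Finset ℕ) (fun _ => 0) (fun _ => ⊥) (fun _ => 0) (fun _ => le_rfl)
    exact ⟨G, hG⟩

theorem emb_le_pow {k n : ℕ} (F : SimpleGraph (Fin k)) (G : SimpleGraph (Fin n)) :
    emb F G ≤ n ^ k := by
  classical
  unfold emb
  rw [Nat.card_eq_fintype_card]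
  refine (Fintype.card_subtype_le _).trans ?_
  simp

/-- One step: a good subgraph of `G'` with `e` edges. -/
theorem step {n : ℕ} (hn : 4 ≤ n) (G' : SimpleGraph (Fin n)) (e : ℕ) (p p' : ℝ) (hp : 0 < p)
    (hpe : (e : ℝ) = p * (n.choose 2)) (hp' : (Nat.card G'.edgeSet : ℝ) = p' * (n.choose 2))
    (hpp : p ≤ p') (U : ℝ)
    (hU : (emb (SimpleGraph.cycleGraph 4) G' : ℝ) ≤ (n : ℝ) ^ 4 * p' ^ 4 * U)
    (I : Finset ℕ) (kf : ℕ → ℕ) (F : ∀ j, SimpleGraph (Fin (kf j))) (C : ℕ → ℝ)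
    (hC : ∀ j, 0 < C j)
    (hF : ∀ j ∈ I, (emb (F j) G' : ℝ) ≤
      (n : ℝ) ^ (kf j) * p' ^ (Nat.card (F j).edgeSet) * C j) (δ : ℝ) (hδ : 0 < δ)
    (hδU : U - ((((n : ℝ) - 1) / n) ^ 4 - 2 / (n * p ^ 4)) ≤ δ) :
    ∃ G : SimpleGraph (Fin n), G ≤ G' ∧ Nat.card G.edgeSet = e ∧
      (emb (SimpleGraph.cycleGraph 4) G : ℝ) / ((n : ℝ) ^ 4 * p ^ 4) ≤ U + 2 * δ ∧
      ∀ j ∈ I, (emb (F j) G : ℝ) ≤
        (n : ℝ) ^ (kf j) * p ^ (Nat.card (F j).edgeSet) * (3 * 2 ^ j * C j) := by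
  classical
  have hn0 : (0 : ℝ) < n := by exact_mod_cast (by omega : 0 < n)
  have hch : (0 : ℝ) < n.choose 2 := by exact_mod_cast Nat.choose_pos (by omega : 2 ≤ n)
  have hp'0 : 0 < p' := lt_of_lt_of_le hp hpp
  have hE0 : (0 : ℝ) < Nat.card G'.edgeSet := by rw [hp']; positivity
  have hE : 0 < Nat.card G'.edgeSet := by exact_mod_cast hE0
  have heE : e ≤ Nat.card G'.edgeSet := by
    have : (e : ℝ) ≤ Nat.card G'.edgeSet := by
      rw [hpe, hp']; exact mul_le_mul_of_nonneg_right hpp hch.le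
    exact_mod_cast this
  have hratio : (e : ℝ) / Nat.card G'.edgeSet = p / p' := by
    rw [hpe, hp', mul_div_mul_right _ _ hch.ne']
  -- the family indexed by `Option ℕ`
  let kf' : Option ℕ → ℕ := fun o => o.elim 4 kf
  let F' : ∀ o : Option ℕ, SimpleGraph (Fin (kf' o)) := fun o =>
    match o with
    | none => SimpleGraph.cycleGraph 4
    | some j => F j
  let W : Option ℕ → ℝ := fun o =>
    match o with
    | none => 1 / ((n : ℝ) ^ 4 * p ^ 4)
    | some j => δ * (1 / 2) ^ j / (C j * ((n : ℝ) ^ (kf j) * p ^ (Nat.card (F j).edgeSet)))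
  have hW : ∀ o, 0 ≤ W o := by
    intro o
    cases o with
    | none => simp only [W]; positivity
    | some j =>
      have := hC j
      simp only [W]; positivity
  obtain ⟨G, hG1, hG2, hG3⟩ := sparse_exists G' e heE hE (insertNone I) kf' F' W hW
  rw [sum_insertNone, sum_insertNone, hratio] at hG3
  replace hG3 : 1 / ((n : ℝ) ^ 4 * p ^ 4) * (emb (SimpleGraph.cycleGraph 4) G : ℝ) +
      ∑ j ∈ I, δ * (1 / 2) ^ j / (C j * ((n : ℝ) ^ (kf j) *
        p ^ (Nat.card (F j).edgeSet))) * (emb (F j) G : ℝ) ≤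
      1 / ((n : ℝ) ^ 4 * p ^ 4) * ((emb (SimpleGraph.cycleGraph 4) G' : ℝ) *
        (p / p') ^ (Nat.card (SimpleGraph.cycleGraph 4).edgeSet)) +
      ∑ j ∈ I, δ * (1 / 2) ^ j / (C j * ((n : ℝ) ^ (kf j) *
        p ^ (Nat.card (F j).edgeSet))) * ((emb (F j) G' : ℝ) *
          (p / p') ^ (Nat.card (F j).edgeSet)) := hG3
  rw [card_C4] at hG3
  set a : ℝ := (emb (SimpleGraph.cycleGraph 4) G : ℝ) / ((n : ℝ) ^ 4 * p ^ 4) with ha
  have h1 : 1 / ((n : ℝ) ^ 4 * p ^ 4) * (emb (SimpleGraph.cycleGraph 4) G : ℝ) = a := by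
    rw [ha]; ring
  have h2 : 1 / ((n : ℝ) ^ 4 * p ^ 4) * ((emb (SimpleGraph.cycleGraph 4) G' : ℝ) *
      (p / p') ^ 4) ≤ U := by
    have h3 : (emb (SimpleGraph.cycleGraph 4) G' : ℝ) * (p / p') ^ 4 ≤
        ((n : ℝ) ^ 4 * p' ^ 4 * U) * (p / p') ^ 4 :=
      mul_le_mul_of_nonneg_right hU (by positivity)
    calc _ ≤ 1 / ((n : ℝ) ^ 4 * p ^ 4) * (((n : ℝ) ^ 4 * p' ^ 4 * U) * (p / p') ^ 4) :=
          mul_le_mul_of_nonneg_left h3 (by positivity)
      _ = U := by field_simp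
  have h4 : ∑ j ∈ I, δ * (1 / 2) ^ j / (C j * ((n : ℝ) ^ (kf j) *
      p ^ (Nat.card (F j).edgeSet))) * ((emb (F j) G' : ℝ) *
        (p / p') ^ (Nat.card (F j).edgeSet)) ≤ 2 * δ := by
    have h5 : ∀ j ∈ I, δ * (1 / 2) ^ j / (C j * ((n : ℝ) ^ (kf j) *
        p ^ (Nat.card (F j).edgeSet))) * ((emb (F j) G' : ℝ) *
        (p / p') ^ (Nat.card (F j).edgeSet)) ≤ δ * (1 / 2) ^ j := by
      intro j hj
      have hCj := hC j
      have h6 : (emb (F j) G' : ℝ) * (p / p') ^ (Nat.card (F j).edgeSet) ≤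
          ((n : ℝ) ^ (kf j) * p' ^ (Nat.card (F j).edgeSet) * C j) *
            (p / p') ^ (Nat.card (F j).edgeSet) :=
        mul_le_mul_of_nonneg_right (hF j hj) (by positivity)
      calc _ ≤ δ * (1 / 2) ^ j / (C j * ((n : ℝ) ^ (kf j) * p ^ (Nat.card (F j).edgeSet))) *
            (((n : ℝ) ^ (kf j) * p' ^ (Nat.card (F j).edgeSet) * C j) *
            (p / p') ^ (Nat.card (F j).edgeSet)) :=
            mul_le_mul_of_nonneg_left h6 (by positivity)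
        _ = δ * (1 / 2) ^ j := by
            rw [div_pow p p']
            field_simp
    refine (sum_le_sum h5).trans ?_
    rw [← mul_sum, mul_comm]
    refine mul_le_mul_of_nonneg_right ?_ hδ.le
    calc ∑ j ∈ I, (1 / 2 : ℝ) ^ j ≤ ∑ j ∈ range (I.sup id + 1), (1 / 2 : ℝ) ^ j := by
          refine sum_le_sum_of_subset_of_nonneg ?_ (fun j _ _ => by positivity)
          intro j hj
          exact mem_range.2 (Nat.lt_succ_of_le (le_sup (f := id) hj))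
      _ ≤ 2 := sum_geometric_two_le _
  have h7 : ∀ j ∈ I, 0 ≤ δ * (1 / 2) ^ j / (C j * ((n : ℝ) ^ (kf j) *
      p ^ (Nat.card (F j).edgeSet))) * (emb (F j) G : ℝ) := by
    intro j _
    have hCj := hC j
    positivity
  rw [h1] at hG3
  have h8 := sum_nonneg h7
  have hlow : (((n : ℝ) - 1) / n) ^ 4 - 2 / (n * p ^ 4) ≤ a :=
    C4_lower hn G p hp (by rw [hG2]; exact hpe)
  refine ⟨G, hG1, hG2, by linarith, ?_⟩
  intro j hj
  have hCj := hC j
  have h9 := single_le_sum h7 hj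
  have h10 : δ * (1 / 2) ^ j / (C j * ((n : ℝ) ^ (kf j) * p ^ (Nat.card (F j).edgeSet))) *
      (emb (F j) G : ℝ) ≤ 3 * δ := by linarith
  have h11 : (emb (F j) G : ℝ) = (δ * (1 / 2) ^ j / (C j * ((n : ℝ) ^ (kf j) *
      p ^ (Nat.card (F j).edgeSet))) * (emb (F j) G : ℝ)) *
      (2 ^ j * C j * ((n : ℝ) ^ (kf j) * p ^ (Nat.card (F j).edgeSet)) / δ) := by
    rw [one_div, inv_pow]
    field_simp
  rw [h11]
  calc _ ≤ 3 * δ * (2 ^ j * C j * ((n : ℝ) ^ (kf j) * p ^ (Nat.card (F j).edgeSet)) / δ) :=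
        mul_le_mul_of_nonneg_right h10 (by positivity)
    _ = _ := by field_simp

end Pool.Agent.H877_TF
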