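import Pool.Agent.H877_TF.Main

/-!
# Sequences with prescribed density, continued
-/

namespace Pool.Agent.H877_TF

open Finset Filter Topology

/-- The normalised number of labelled copies. -/
noncomputable def sp (p : ℝ) {k n : ℕ} (F : SimpleGraph (Fin k)) (G : SimpleGraph (Fin n)) : ℝ :=
  (emb F G : ℝ) / ((n.descFactorial k : ℝ) * p ^ (Nat.card F.edgeSet))

/-- Admissible densities. -/
def Adm (p : ℕ → ℝ) : Prop :=
  (∀ n, 0 < p n ∧ p n ≤ 1) ∧
  Tendsto (fun n : ℕ => Real.log (1 / p n) / Real.log n) atTop (𝓝 0) ∧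
  ∀ n, ∃ e : ℕ, (e : ℝ) = p n * (n.choose 2)

/-- Conditions 1-3. -/
def Cond (p : ℕ → ℝ) (G : ∀ n, SimpleGraph (Fin n)) : Prop :=
  (∀ n, (Nat.card (G n).edgeSet : ℝ) = p n * (n.choose 2)) ∧
  Tendsto (fun n => sp (p n) (SimpleGraph.cycleGraph 4) (G n)) atTop (𝓝 1) ∧
  ∀ (k : ℕ) (F : SimpleGraph (Fin k)), ∃ C : ℝ, ∀ n, sp (p n) F (G n) ≤ C

theorem bounded_of_eventually (f : ℕ → ℝ) (C : ℝ) (h : ∀ᶠ n in atTop, f n ≤ C) :
    ∃ C', ∀ n, f n ≤ C' := by
  obtain ⟨N, hN⟩ := eventually_atTop.1 h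
  refine ⟨|C| + ∑ i ∈ range N, |f i|, fun n => ?_⟩
  by_cases hn : N ≤ n
  · have h1 := hN n hn
    have h2 := le_abs_self C
    have h3 : 0 ≤ ∑ i ∈ range N, |f i| := sum_nonneg (fun i _ => abs_nonneg _)
    linarith
  · have h1 : |f n| ≤ ∑ i ∈ range N, |f i| :=
      single_le_sum (f := fun i => |f i|) (fun i _ => abs_nonneg _) (mem_range.2 (by omega))
    have h2 := le_abs_self (f n)
    have h3 := abs_nonneg C
    linarith

theorem seq_sparsify (p : ℕ → ℝ) (hp : Adm p) (G' : ∀ n, SimpleGraph (Fin n)) (p' : ℕ → ℝ)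
    (hp' : ∀ᶠ n in atTop, (Nat.card (G' n).edgeSet : ℝ) = p' n * (n.choose 2))
    (hpp : ∀ᶠ n in atTop, p n ≤ p' n) (U : ℕ → ℝ) (hU1 : Tendsto U atTop (𝓝 1))
    (hU : ∀ᶠ n : ℕ in atTop, (emb (SimpleGraph.cycleGraph 4) (G' n) : ℝ) ≤
      (n : ℝ) ^ 4 * p' n ^ 4 * U n)
    (hF : ∀ (k : ℕ) (F : SimpleGraph (Fin k)), ∃ C : ℝ, ∀ᶠ n : ℕ in atTop,
      (emb F (G' n) : ℝ) ≤ (n : ℝ) ^ k * p' n ^ (Nat.card F.edgeSet) * C) :
    ∃ G : ∀ n, SimpleGraph (Fin n), Cond p G ∧ ∀ᶠ n in atTop, G n ≤ G' n := by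
  classical
  obtain ⟨hp01, hlog, hint⟩ := hp
  choose e he using hint
  -- enumeration of all graphs
  obtain ⟨enum, henum⟩ := exists_surjective_nat (Σ k : ℕ, SimpleGraph (Fin k))
  have hC : ∀ j : ℕ, ∃ C : ℝ, 0 < C ∧ ∃ N : ℕ, ∀ n : ℕ, N ≤ n →
      (emb (enum j).2 (G' n) : ℝ) ≤
        (n : ℝ) ^ ((enum j).1) * p' n ^ (Nat.card (enum j).2.edgeSet) * C := by
    intro j
    obtain ⟨C, hC⟩ := hF (enum j).1 (enum j).2
    obtain ⟨N, hN⟩ := eventually_atTop.1 (hC.and hpp)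
    refine ⟨max C 1, lt_of_lt_of_le one_pos (le_max_right _ _), N, fun n hn => ?_⟩
    have hp'0 : 0 ≤ p' n := (hp01 n).1.le.trans (hN n hn).2
    exact ((hN n hn).1).trans (mul_le_mul_of_nonneg_left (le_max_left _ _) (by positivity))
  choose C hC0 N hN using hC
  obtain ⟨n1, hn1⟩ := eventually_atTop.1
    ((hp'.and hpp).and (hU.and (eventually_ge_atTop 4)))
  set L : ℕ → ℝ := fun n => (((n : ℝ) - 1) / n) ^ 4 - 2 / (n * p n ^ 4) with hL
  set δ : ℕ → ℝ := fun n => |U n - L n| + 1 / ((n : ℝ) + 1) with hδ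
  have hδ0 : ∀ n, 0 < δ n := by
    intro n
    have h1 : (0 : ℝ) < 1 / ((n : ℝ) + 1) := by positivity
    have h2 := abs_nonneg (U n - L n)
    simp only [hδ]; linarith
  have hchoice : ∀ n, ∃ G : SimpleGraph (Fin n), Nat.card G.edgeSet = e n ∧
      (n1 ≤ n → G ≤ G' n ∧
        (emb (SimpleGraph.cycleGraph 4) G : ℝ) / ((n : ℝ) ^ 4 * p n ^ 4) ≤ U n + 2 * δ n ∧
        ∀ j, j ≤ n → N j ≤ n → (emb (enum j).2 G : ℝ) ≤
          (n : ℝ) ^ ((enum j).1) * p n ^ (Nat.card (enum j).2.edgeSet) * (3 * 2 ^ j * C j)) := by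
    intro n
    by_cases hn : n1 ≤ n
    · obtain ⟨⟨h1, h2⟩, h3, h4⟩ := hn1 n hn
      obtain ⟨G, hG1, hG2, hG3, hG4⟩ := step h4 (G' n) (e n) (p n) (p' n) (hp01 n).1 (he n) h1 h2
        (U n) h3 ((range (n + 1)).filter (fun j => N j ≤ n)) (fun j => (enum j).1)
        (fun j => (enum j).2) C hC0
        (fun j hj => hN j n (mem_filter.1 hj).2) (δ n) (hδ0 n) (by
          have h5 := le_abs_self (U n - L n)
          have h6 : (0 : ℝ) < 1 / ((n : ℝ) + 1) := by positivity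
          simp only [hδ, hL] at h5 ⊢
          linarith)
      refine ⟨G, hG2, fun _ => ⟨hG1, hG3, fun j hj hNj => ?_⟩⟩
      exact hG4 j (mem_filter.2 ⟨mem_range.2 (by omega), hNj⟩)
    · have hle : e n ≤ n.choose 2 := by
        have h1 : (e n : ℝ) ≤ n.choose 2 := by
          rw [he n]
          have := (hp01 n).2
          have h2 : (0 : ℝ) ≤ (n.choose 2 : ℝ) := Nat.cast_nonneg _
          nlinarith
        exact_mod_cast h1
      obtain ⟨G, hG⟩ := exists_edges (e n) hle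
      exact ⟨G, hG, fun h => absurd h hn⟩
  choose G hG1 hG2 using hchoice
  have hLt : Tendsto L atTop (𝓝 1) := by
    have h1 : Tendsto (fun n : ℕ => (((n : ℝ) - 1) / n) ^ 4) atTop (𝓝 1) := by
      have h2 : Tendsto (fun n : ℕ => 1 - 1 / (n : ℝ)) atTop (𝓝 1) := by
        have := (tendsto_one_div_atTop_nhds_zero_nat (𝕜 := ℝ)).const_sub 1
        rwa [sub_zero] at this
      have h3 := h2.pow 4
      rw [one_pow] at h3
      refine h3.congr' ?_
      filter_upwards [eventually_ge_atTop 1] with n hn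
      have hn0 : (0 : ℝ) < n := by exact_mod_cast hn
      congr 1
      field_simp
    have h4 := h1.sub (inv_np4_tendsto p (fun n => (hp01 n).1) hlog)
    rwa [sub_zero] at h4
  have hδt : Tendsto δ atTop (𝓝 0) := by
    have h1 := ((hU1.sub hLt).abs).add (tendsto_one_div_add_atTop_nhds_zero_nat (𝕜 := ℝ))
    rw [sub_self, abs_zero, add_zero] at h1
    exact h1
  have hdf : ∀ k n : ℕ, k ≤ n → (0 : ℝ) < n.descFactorial k := fun k n h => by
    exact_mod_cast Nat.descFactorial_pos.2 h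
  refine ⟨G, ⟨fun n => ?_, ?_, ?_⟩, ?_⟩
  · rw [hG1 n]; exact he n
  · -- condition 2
    have hupper : Tendsto (fun n : ℕ => (U n + 2 * δ n) *
        ((n : ℝ) ^ 4 / (n.descFactorial 4 : ℝ))) atTop (𝓝 1) := by
      have h1 := (hU1.add (hδt.const_mul 2)).mul (descFactorial_ratio_tendsto 4)
      simpa using h1
    refine tendsto_of_tendsto_of_tendsto_of_le_of_le' hLt hupper ?_ ?_
    · filter_upwards [eventually_ge_atTop 4] with n hn
      have h1 := C4_lower hn (G n) (p n) (hp01 n).1 (by rw [hG1 n]; exact he n)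
      refine h1.trans ?_
      unfold sp
      rw [card_C4]
      have hpn := (hp01 n).1
      have hd := hdf 4 n hn
      refine div_le_div_of_nonneg_left (Nat.cast_nonneg _) (by positivity) ?_
      refine mul_le_mul_of_nonneg_right ?_ (by positivity)
      exact_mod_cast Nat.descFactorial_le_pow n 4
    · filter_upwards [eventually_ge_atTop n1, eventually_ge_atTop 4] with n hn hn4
      obtain ⟨-, h2, -⟩ := hG2 n hn
      unfold sp
      rw [card_C4]
      have hpn := (hp01 n).1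
      have hd := hdf 4 n hn4
      have hn0 : (0 : ℝ) < n := by exact_mod_cast (by omega : 0 < n)
      have h3 : (emb (SimpleGraph.cycleGraph 4) (G n) : ℝ) /
          ((n.descFactorial 4 : ℝ) * p n ^ 4) =
          (emb (SimpleGraph.cycleGraph 4) (G n) : ℝ) / ((n : ℝ) ^ 4 * p n ^ 4) *
            ((n : ℝ) ^ 4 / (n.descFactorial 4 : ℝ)) := by
        field_simp
      rw [h3]
      exact mul_le_mul_of_nonneg_right h2 (by positivity)
  · -- condition 3
    intro k F
    obtain ⟨j, hj⟩ := henum ⟨k, F⟩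
    refine bounded_of_eventually _ (3 * 2 ^ j * C j * 2) ?_
    have h1 : ∀ᶠ n : ℕ in atTop, (n : ℝ) ^ k / (n.descFactorial k : ℝ) < 2 :=
      (descFactorial_ratio_tendsto k).eventually_lt_const (by norm_num)
    filter_upwards [h1, eventually_ge_atTop n1, eventually_ge_atTop j, eventually_ge_atTop (N j),
      eventually_ge_atTop k] with n hn2 hn hjn hNn hkn
    obtain ⟨-, -, h3⟩ := hG2 n hn
    have h4 := h3 j hjn hNn
    rw [hj] at h4
    simp only at h4
    have hpn := (hp01 n).1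
    have hd := hdf k n hkn
    have hCj := hC0 j
    unfold sp
    calc (emb F (G n) : ℝ) / ((n.descFactorial k : ℝ) * p n ^ (Nat.card F.edgeSet))
        ≤ ((n : ℝ) ^ k * p n ^ (Nat.card F.edgeSet) * (3 * 2 ^ j * C j)) /
          ((n.descFactorial k : ℝ) * p n ^ (Nat.card F.edgeSet)) :=
          div_le_div_of_nonneg_right h4 (by positivity)
      _ = (3 * 2 ^ j * C j) * ((n : ℝ) ^ k / (n.descFactorial k : ℝ)) := by
          field_simp
      _ ≤ _ := mul_le_mul_of_nonneg_left hn2.le (by positivity)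
  · filter_upwards [eventually_ge_atTop n1] with n hn
    exact (hG2 n hn).1

end Pool.Agent.H877_TF
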