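import Pool.Agent.H877_TF.BlowK

/-!
# Sparsification to a prescribed number of edges, by averaging
-/

namespace Pool.Agent.H877_TF

open Finset

theorem choose_ratio (E e : ℕ) (h : e ≤ E) (j : ℕ) (hj : j ≤ e) :
    (E - j).choose (e - j) * E ^ j ≤ E.choose e * e ^ j := by
  induction j with
  | zero => simp
  | succ j ih =>
    have ih' := ih (by omega)
    obtain ⟨a, ha⟩ : ∃ a, E - j = a + 1 := ⟨E - j - 1, by omega⟩
    obtain ⟨b, hb⟩ : ∃ b, e - j = b + 1 := ⟨e - j - 1, by omega⟩
    have ha' : E - (j + 1) = a := by omega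
    have hb' : e - (j + 1) = b := by omega
    rw [ha', hb']
    rw [ha, hb] at ih'
    have h1 : (a + 1) * a.choose b = (a + 1).choose (b + 1) * (b + 1) :=
      Nat.add_one_mul_choose_eq a b
    have h2 : (b + 1) * E ≤ (a + 1) * e := by
      have h3 : E = a + 1 + j := by omega
      have h4 : e = b + 1 + j := by omega
      have h5 : b ≤ a := by omega
      rw [h3, h4]
      nlinarith
    have h3 : a.choose b * E ≤ (a + 1).choose (b + 1) * e := by
      suffices h6 : (a + 1) * (a.choose b * E) ≤ (a + 1) * ((a + 1).choose (b + 1) * e) from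
        Nat.le_of_mul_le_mul_left h6 (Nat.succ_pos a)
      calc (a + 1) * (a.choose b * E) = ((a + 1) * a.choose b) * E := by ring
        _ = (a + 1).choose (b + 1) * ((b + 1) * E) := by rw [h1]; ring
        _ ≤ (a + 1).choose (b + 1) * ((a + 1) * e) := Nat.mul_le_mul_left _ h2
        _ = (a + 1) * ((a + 1).choose (b + 1) * e) := by ring
    calc a.choose b * E ^ (j + 1) = (a.choose b * E) * E ^ j := by ring
      _ ≤ ((a + 1).choose (b + 1) * e) * E ^ j := Nat.mul_le_mul_right _ h3
      _ = ((a + 1).choose (b + 1) * E ^ j) * e := by ring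
      _ ≤ (E.choose e * e ^ j) * e := Nat.mul_le_mul_right _ ih'
      _ = _ := by ring

theorem card_super {α : Type*} [DecidableEq α] (X T : Finset α) (hT : T ⊆ X) (e : ℕ)
    (he : e ≤ X.card) :
    ((powersetCard e X).filter (fun S => T ⊆ S)).card * X.card ^ T.card ≤
      (powersetCard e X).card * e ^ T.card := by
  rw [card_powersetCard]
  by_cases hj : T.card ≤ e
  · have h1 : ((powersetCard e X).filter (fun S => T ⊆ S)).card ≤
        (X.card - T.card).choose (e - T.card) := by
      have h2 : (X.card - T.card).choose (e - T.card) =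
          (powersetCard (e - T.card) (X \ T)).card := by
        rw [card_powersetCard, card_sdiff_of_subset hT]
      rw [h2]
      refine card_le_card_of_injOn (fun S => S \ T) ?_ ?_
      · intro S hS
        obtain ⟨hS1, hS2⟩ := mem_filter.1 (mem_coe.1 hS)
        obtain ⟨hS3, hS4⟩ := mem_powersetCard.1 hS1
        refine mem_coe.2 (mem_powersetCard.2 ⟨sdiff_subset_sdiff hS3 (le_refl T), ?_⟩)
        rw [card_sdiff_of_subset hS2, hS4]
      · intro S hS S' hS' h
        obtain ⟨_, hS2⟩ := mem_filter.1 (mem_coe.1 hS)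
        obtain ⟨_, hS2'⟩ := mem_filter.1 (mem_coe.1 hS')
        simp only at h
        rw [← sdiff_union_of_subset hS2, ← sdiff_union_of_subset hS2', h]
    exact (Nat.mul_le_mul_right _ h1).trans (choose_ratio X.card e he T.card hj)
  · have h1 : ((powersetCard e X).filter (fun S => T ⊆ S)) = ∅ := by
      rw [filter_eq_empty_iff]
      intro S hS hTS
      have := card_le_card hTS
      rw [(mem_powersetCard.1 hS).2] at this
      exact hj this
    rw [h1]; simp

/-- Embeddings as a finset. -/
noncomputable def embF {k n : ℕ} (F : SimpleGraph (Fin k)) (G : SimpleGraph (Fin n)) :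
    Finset (Fin k → Fin n) := by
  classical
  exact univ.filter (fun f => Function.Injective f ∧ ∀ u v, F.Adj u v → G.Adj (f u) (f v))

theorem mem_embF {k n : ℕ} (F : SimpleGraph (Fin k)) (G : SimpleGraph (Fin n))
    (f : Fin k → Fin n) :
    f ∈ embF F G ↔ Function.Injective f ∧ ∀ u v, F.Adj u v → G.Adj (f u) (f v) := by
  classical
  unfold embF
  simp

theorem card_embF {k n : ℕ} (F : SimpleGraph (Fin k)) (G : SimpleGraph (Fin n)) :
    (embF F G).card = emb F G := by
  classical
  unfold embF emb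
  rw [Nat.card_eq_fintype_card, Fintype.card_subtype]

open scoped Classical in
/-- The averaging inequality for one graph `F`. -/
theorem sum_emb_le {n k : ℕ} (G' : SimpleGraph (Fin n)) (e : ℕ)
    (he : e ≤ G'.edgeFinset.card) (F : SimpleGraph (Fin k)) :
    (∑ S ∈ powersetCard e G'.edgeFinset,
      emb F (SimpleGraph.fromEdgeSet (S : Set (Sym2 (Fin n))))) *
        G'.edgeFinset.card ^ (Nat.card F.edgeSet) ≤
      (powersetCard e G'.edgeFinset).card * (emb F G' * e ^ (Nat.card F.edgeSet)) := by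
  set X := G'.edgeFinset with hX
  set T : (Fin k → Fin n) → Finset (Sym2 (Fin n)) := fun f => F.edgeFinset.image (Sym2.map f)
    with hT
  have hTcard : ∀ f ∈ embF F G', (T f).card = Nat.card F.edgeSet := by
    intro f hf
    rw [hT]
    simp only
    rw [card_image_of_injective _ (Sym2.map.injective ((mem_embF _ _ _).1 hf).1),
      SimpleGraph.edgeFinset_card, Nat.card_eq_fintype_card]
  have hTsub : ∀ f ∈ embF F G', T f ⊆ X := by
    intro f hf s hs
    obtain ⟨t, ht, rfl⟩ := mem_image.1 hs
    induction t with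
    | _ u v =>
      rw [SimpleGraph.mem_edgeFinset, SimpleGraph.mem_edgeSet] at ht
      rw [hX, SimpleGraph.mem_edgeFinset, Sym2.map_mk, SimpleGraph.mem_edgeSet]
      exact ((mem_embF _ _ _).1 hf).2 u v ht
  have h1 : ∀ S ∈ powersetCard e X, emb F (SimpleGraph.fromEdgeSet (S : Set (Sym2 (Fin n)))) ≤
      ((embF F G').filter (fun f => T f ⊆ S)).card := by
    intro S hS
    have hSX := (mem_powersetCard.1 hS).1
    rw [← card_embF]
    refine card_le_card ?_
    intro f hf
    rw [mem_embF] at hf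
    rw [mem_filter, mem_embF]
    refine ⟨⟨hf.1, fun u v huv => ?_⟩, ?_⟩
    · have h2 := (hf.2 u v huv)
      rw [SimpleGraph.fromEdgeSet_adj] at h2
      have h3 := hSX (mem_coe.1 h2.1)
      rw [hX, SimpleGraph.mem_edgeFinset, SimpleGraph.mem_edgeSet] at h3
      exact h3
    · intro s hs
      obtain ⟨t, ht, rfl⟩ := mem_image.1 hs
      induction t with
      | _ u v =>
        rw [SimpleGraph.mem_edgeFinset, SimpleGraph.mem_edgeSet] at ht
        have h2 := (hf.2 u v ht)
        rw [SimpleGraph.fromEdgeSet_adj] at h2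
        exact mem_coe.1 h2.1
  calc (∑ S ∈ powersetCard e X, emb F (SimpleGraph.fromEdgeSet (S : Set (Sym2 (Fin n))))) *
        X.card ^ (Nat.card F.edgeSet)
      ≤ (∑ S ∈ powersetCard e X, ((embF F G').filter (fun f => T f ⊆ S)).card) *
        X.card ^ (Nat.card F.edgeSet) := Nat.mul_le_mul_right _ (sum_le_sum h1)
    _ = (∑ f ∈ embF F G', ((powersetCard e X).filter (fun S => T f ⊆ S)).card) *
        X.card ^ (Nat.card F.edgeSet) := by
        congr 1
        exact (sum_card_bipartiteAbove_eq_sum_card_bipartiteBelow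
          (s := embF F G') (t := powersetCard e X) (fun f S => T f ⊆ S)).symm
    _ = ∑ f ∈ embF F G', ((powersetCard e X).filter (fun S => T f ⊆ S)).card *
        X.card ^ ((T f).card) := by
        rw [sum_mul]
        exact sum_congr rfl (fun f hf => by rw [hTcard f hf])
    _ ≤ ∑ f ∈ embF F G', (powersetCard e X).card * e ^ ((T f).card) :=
        sum_le_sum (fun f hf => card_super X (T f) (hTsub f hf) e he)
    _ = ∑ f ∈ embF F G', (powersetCard e X).card * e ^ (Nat.card F.edgeSet) :=
        sum_congr rfl (fun f hf => by rw [hTcard f hf])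
    _ = _ := by
        rw [sum_const, smul_eq_mul, card_embF]
        ring

/-- A subgraph with exactly `e` edges that is good on average for finitely many graphs. -/
theorem sparse_exists {n : ℕ} (G' : SimpleGraph (Fin n)) (e : ℕ)
    (he : e ≤ Nat.card G'.edgeSet) (hE : 0 < Nat.card G'.edgeSet) {ι : Type*} (I : Finset ι)
    (kf : ι → ℕ) (F : ∀ i, SimpleGraph (Fin (kf i))) (W : ι → ℝ) (hW : ∀ i, 0 ≤ W i) :
    ∃ G : SimpleGraph (Fin n), G ≤ G' ∧ Nat.card G.edgeSet = e ∧
      ∑ i ∈ I, W i * (emb (F i) G : ℝ) ≤ ∑ i ∈ I, W i * ((emb (F i) G' : ℝ) *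
        ((e : ℝ) / Nat.card G'.edgeSet) ^ (Nat.card (F i).edgeSet)) := by
  classical
  have hXc : G'.edgeFinset.card = Nat.card G'.edgeSet := by
    rw [SimpleGraph.edgeFinset_card, Nat.card_eq_fintype_card]
  have hne : (powersetCard e G'.edgeFinset).Nonempty := by
    rw [powersetCard_nonempty, hXc]; exact he
  have hE' : (0 : ℝ) < Nat.card G'.edgeSet := by exact_mod_cast hE
  have hsum : ∑ S ∈ powersetCard e G'.edgeFinset,
      (∑ i ∈ I, W i * (emb (F i) (SimpleGraph.fromEdgeSet (S : Set (Sym2 (Fin n)))) : ℝ)) ≤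
      ∑ _S ∈ powersetCard e G'.edgeFinset, (∑ i ∈ I, W i * ((emb (F i) G' : ℝ) *
        ((e : ℝ) / Nat.card G'.edgeSet) ^ (Nat.card (F i).edgeSet))) := by
    rw [sum_comm, sum_const, nsmul_eq_mul, mul_sum]
    refine sum_le_sum (fun i _ => ?_)
    rw [← mul_sum]
    have h1 := sum_emb_le G' e (by rw [hXc]; exact he) (F i)
    have h2 : ((∑ S ∈ powersetCard e G'.edgeFinset,
        (emb (F i) (SimpleGraph.fromEdgeSet (S : Set (Sym2 (Fin n)))) : ℝ))) *
        (Nat.card G'.edgeSet : ℝ) ^ (Nat.card (F i).edgeSet) ≤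
        ((powersetCard e G'.edgeFinset).card : ℝ) *
          ((emb (F i) G' : ℝ) * (e : ℝ) ^ (Nat.card (F i).edgeSet)) := by
      rw [← hXc]
      exact_mod_cast h1
    have h3 : (∑ S ∈ powersetCard e G'.edgeFinset,
        (emb (F i) (SimpleGraph.fromEdgeSet (S : Set (Sym2 (Fin n)))) : ℝ)) ≤
        ((powersetCard e G'.edgeFinset).card : ℝ) * ((emb (F i) G' : ℝ) *
        ((e : ℝ) / Nat.card G'.edgeSet) ^ (Nat.card (F i).edgeSet)) := by
      rw [div_pow, ← mul_div_assoc, ← mul_div_assoc, le_div_iff₀ (by positivity)]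
      exact h2
    calc W i * (∑ S ∈ powersetCard e G'.edgeFinset,
        (emb (F i) (SimpleGraph.fromEdgeSet (S : Set (Sym2 (Fin n)))) : ℝ))
        ≤ W i * (((powersetCard e G'.edgeFinset).card : ℝ) * ((emb (F i) G' : ℝ) *
        ((e : ℝ) / Nat.card G'.edgeSet) ^ (Nat.card (F i).edgeSet))) :=
          mul_le_mul_of_nonneg_left h3 (hW i)
      _ = _ := by ring
  obtain ⟨S, hS, hSle⟩ := exists_le_of_sum_le hne hsum
  obtain ⟨hS1, hS2⟩ := mem_powersetCard.1 hS
  have hSe : (SimpleGraph.fromEdgeSet (S : Set (Sym2 (Fin n)))).edgeSet =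
      (S : Set (Sym2 (Fin n))) := by
    rw [SimpleGraph.edgeSet_fromEdgeSet]
    ext s
    simp only [Set.mem_diff, mem_coe]
    constructor
    · exact fun h => h.1
    · intro h
      refine ⟨h, ?_⟩
      intro hd
      have h3 := hS1 h
      rw [SimpleGraph.mem_edgeFinset] at h3
      exact SimpleGraph.not_isDiag_of_mem_edgeSet G' h3 hd
  refine ⟨SimpleGraph.fromEdgeSet (S : Set (Sym2 (Fin n))), ?_, ?_, hSle⟩
  · rw [← SimpleGraph.edgeSet_subset_edgeSet, hSe]
    intro s hs
    have := hS1 (mem_coe.1 hs)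
    rwa [SimpleGraph.mem_edgeFinset] at this
  · rw [hSe]
    rw [Nat.card_coe_set_eq, Set.ncard_coe_finset, hS2]

end Pool.Agent.H877_TF
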